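import Pool.Agent.Run7.h795.UW.Stm2

/-!
# Simultaneous approximation of odd zeta values in windows: the asymptotic size
-/

open Polynomial Pool.Agent.H337R2 Pool.Agent.W165.OZ Filter Topology

namespace Run7.h795.UW

noncomputable section

/-- `as_arc` with the exact power of 2 -/
lemma a2_arc {N n h b r : ℕ} {C : ℝ} (hN : 1 ≤ N) (hC : 0 < C) {m : ℕ} (hm : h * n / 2 = m) :
    Run7.h795.UW.Arc N n h b C r ≤ Pool.Agent.W165.OZ.Arc (N * (b + 1)) n h C r *
      ((4 * (h : ℝ) * n + b + 1) ^ (b * r) * 2 ^ (4 * m * r)) := by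
  unfold Run7.h795.UW.Arc Pool.Agent.W165.OZ.Arc
  rw [hm]
  have h1 : ∏ i ∈ Finset.range r, (MM N (i / (b + 1)) ^ (4 * (m - 1 - i)))⁻¹ ≤
      (∏ i ∈ Finset.range r, (MM (N * (b + 1)) i ^ (4 * (m - 1 - i)))⁻¹) * 2 ^ (4 * m * r) := by
    have h2 : ∏ i ∈ Finset.range r, (MM N (i / (b + 1)) ^ (4 * (m - 1 - i)))⁻¹ ≤
        ∏ i ∈ Finset.range r, ((MM (N * (b + 1)) i ^ (4 * (m - 1 - i)))⁻¹ * 2 ^ (4 * m)) := by
      apply Finset.prod_le_prod
      · intro i _
        have := MM_one_le N (i / (b + 1))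
        positivity
      · intro i _
        have e1 := MM_one_le N (i / (b + 1))
        have e2 := MM_one_le (N * (b + 1)) i
        have e3 := as_MM N b i hN
        have e4 : (MM N (i / (b + 1)))⁻¹ ≤ (MM (N * (b + 1)) i)⁻¹ * 2 := by
          rw [inv_mul_eq_div, le_div_iff₀ (by linarith), inv_mul_le_iff₀ (by linarith)]
          linarith
        have e5 : ((MM N (i / (b + 1)))⁻¹) ^ (4 * (m - 1 - i)) ≤
            ((MM (N * (b + 1)) i)⁻¹ * 2) ^ (4 * (m - 1 - i)) :=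
          pow_le_pow_left₀ (by positivity) e4 _
        rw [mul_pow, inv_pow, inv_pow] at e5
        refine e5.trans (mul_le_mul_of_nonneg_left ?_ (by positivity))
        exact pow_le_pow_right₀ (by norm_num) (by omega)
    refine h2.trans ?_
    rw [Finset.prod_mul_distrib, Finset.prod_const, Finset.card_range, ← pow_mul]
  rw [mul_pow, ← pow_mul]
  calc (r.factorial : ℝ) * (C ^ r * (4 * (h : ℝ) * n + b + 1) ^ (b * r)) *
        ∏ i ∈ Finset.range r, (MM N (i / (b + 1)) ^ (4 * (m - 1 - i)))⁻¹ ≤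
      (r.factorial : ℝ) * (C ^ r * (4 * (h : ℝ) * n + b + 1) ^ (b * r)) *
        ((∏ i ∈ Finset.range r, (MM (N * (b + 1)) i ^ (4 * (m - 1 - i)))⁻¹) * 2 ^ (4 * m * r)) :=
        mul_le_mul_of_nonneg_left h1 (by positivity)
    _ = _ := by ring

/-- the comparison with the case `b = 0` -/
lemma a2_comp {N n h b r B q q2 m : ℕ} {C Z : ℝ} (hN : 1 ≤ N) (hC : 0 < C) (hq : 1 ≤ q)
    (hm : h * n / 2 = m) (hZ : 0 < Z) (hP : (PPn n (hb h b) B : ℝ) ≤ Z ^ r)
    (hq2 : (q : ℝ) * (Dl n B : ℝ) ^ b * (4 * (h : ℝ) * n + b + 1) ^ b * 2 ^ (4 * m) * Z ≤ q2) :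
    Run7.h795.UW.Arc N n h b C r * (((q : ℝ) * (Dl n B : ℝ) ^ b) ^ r *
      (∏ i ∈ Finset.range r, (sc n h B i : ℝ) ^ 2) * (PPn n (hb h b) B : ℝ)) ≤
    Pool.Agent.W165.OZ.Arc (N * (b + 1)) n h C r *
      ((q2 : ℝ) ^ r * (∏ i ∈ Finset.range r, (sc n h B i : ℝ) ^ 2) * (PPn n h B : ℝ)) := by
  have hD : (0 : ℝ) < (Dl n B : ℝ) := by exact_mod_cast Run7.h795.UW.Dl_pos n B
  have hP1 : (1 : ℝ) ≤ (PPn n h B : ℝ) := by exact_mod_cast PPn_pos n h B
  have hP2 : (0 : ℝ) < (PPn n (hb h b) B : ℝ) := by exact_mod_cast PPn_pos n _ B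
  have hs : (0 : ℝ) < ∏ i ∈ Finset.range r, (sc n h B i : ℝ) ^ 2 := by
    apply Finset.prod_pos
    intro i _
    have : (0 : ℝ) < (sc n h B i : ℝ) := by exact_mod_cast sc_pos n h B i
    positivity
  have hq0 : (0 : ℝ) < (q : ℝ) := by exact_mod_cast hq
  have hA := arcOZ_pos (N * (b + 1)) n h r hC
  have hY : (0 : ℝ) < 4 * (h : ℝ) * n + b + 1 := by positivity
  have e1 := a2_arc (b := b) (r := r) hN hC hm
  have e2 : ((q : ℝ) * (Dl n B : ℝ) ^ b * (4 * (h : ℝ) * n + b + 1) ^ b * 2 ^ (4 * m) * Z) ^ r ≤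
      (q2 : ℝ) ^ r := pow_le_pow_left₀ (by positivity) hq2 r
  calc Run7.h795.UW.Arc N n h b C r * (((q : ℝ) * (Dl n B : ℝ) ^ b) ^ r *
      (∏ i ∈ Finset.range r, (sc n h B i : ℝ) ^ 2) * (PPn n (hb h b) B : ℝ))
      ≤ (Pool.Agent.W165.OZ.Arc (N * (b + 1)) n h C r *
          ((4 * (h : ℝ) * n + b + 1) ^ (b * r) * 2 ^ (4 * m * r))) *
          (((q : ℝ) * (Dl n B : ℝ) ^ b) ^ r *
          (∏ i ∈ Finset.range r, (sc n h B i : ℝ) ^ 2) * (PPn n (hb h b) B : ℝ)) :=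
          mul_le_mul_of_nonneg_right e1 (by positivity)
    _ ≤ (Pool.Agent.W165.OZ.Arc (N * (b + 1)) n h C r *
          ((4 * (h : ℝ) * n + b + 1) ^ (b * r) * 2 ^ (4 * m * r))) *
          (((q : ℝ) * (Dl n B : ℝ) ^ b) ^ r *
          (∏ i ∈ Finset.range r, (sc n h B i : ℝ) ^ 2) * Z ^ r) := by gcongr
    _ = Pool.Agent.W165.OZ.Arc (N * (b + 1)) n h C r *
          (((q : ℝ) * (Dl n B : ℝ) ^ b * (4 * (h : ℝ) * n + b + 1) ^ b * 2 ^ (4 * m) * Z) ^ r *
          (∏ i ∈ Finset.range r, (sc n h B i : ℝ) ^ 2) * 1) := by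
          rw [mul_pow _ Z, mul_pow _ (2 ^ (4 * m)), mul_pow _ ((4 * (h : ℝ) * n + b + 1) ^ b),
            ← pow_mul (4 * (h : ℝ) * n + b + 1) b r, ← pow_mul (2 : ℝ) (4 * m) r]
          ring
    _ ≤ _ := by gcongr

theorem t_a2 : S_A2 := by
  intro N κ B b D C hN hB hD hC hDN
  obtain ⟨h, hh⟩ : ∃ h, h = (b + 1) * κ := ⟨_, rfl⟩
  have hκ64 : 64 ≤ κ := by
    have : 1 * 1 ≤ D * N := Nat.mul_le_mul hD hN
    have : 64 * (D * N) ≤ κ := by rw [← mul_assoc]; exact hDN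
    omega
  have hh64 : 64 * (b + 1) ≤ h := by
    rw [hh, mul_comm]
    exact Nat.mul_le_mul_left _ hκ64
  have hDN' : 64 * D * (N * (b + 1)) ≤ h := by
    rw [hh]
    calc 64 * D * (N * (b + 1)) = (b + 1) * (64 * D * N) := by ring
      _ ≤ (b + 1) * κ := Nat.mul_le_mul_left _ hDN
  obtain ⟨ν1, hν1⟩ := Pool.Agent.TH818.SA.t_as2 (N * (b + 1)) h B D C
    (Nat.mul_pos (by omega) (by omega)) hB hD hC hDN'
  obtain ⟨n2, hn2⟩ := as_growth ((b : ℝ) * Real.log (4 * (h : ℝ) + b + 1)) (b : ℝ)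
    ((b : ℝ) * (4 * (B : ℝ) ^ ((3 : ℝ) / 4)))
  refine ⟨max 1 (max ν1 n2), fun ν hν n hn r hr1 hr2 q hq hlq => ?_⟩
  rw [← hh] at hr1 hr2 hlq ⊢
  have hνa : 1 ≤ ν := (le_max_left _ _).trans hν
  have hνb : ν1 ≤ ν := (le_max_left _ _).trans ((le_max_right _ _).trans hν)
  have hνc : n2 ≤ ν := (le_max_right _ _).trans ((le_max_right _ _).trans hν)
  have hnν : ν ≤ n := by
    rw [hn]
    have : 1 * ν ≤ (4 * D) * ν := Nat.mul_le_mul_right ν (by omega)
    omega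
  obtain ⟨hn0, hgr⟩ := hn2 n (hνc.trans hnν)
  -- casts
  have hNR : (1 : ℝ) ≤ N := by exact_mod_cast hN
  have hDR : (1 : ℝ) ≤ D := by exact_mod_cast hD
  have hκR : (64 : ℝ) ≤ κ := by exact_mod_cast hκ64
  have hBR : (1 : ℝ) ≤ B := by exact_mod_cast hB
  have hnR : (1 : ℝ) ≤ n := by exact_mod_cast hn0
  have hhe : (h : ℝ) = ((b : ℝ) + 1) * κ := by rw [hh]; push_cast; ring
  have hhR : 64 * ((b : ℝ) + 1) ≤ h := by exact_mod_cast hh64
  have hb0 : (0 : ℝ) ≤ b := by positivity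
  have hhpos : (0 : ℝ) < h := by linarith
  have hqR : (1 : ℝ) ≤ q := by exact_mod_cast hq
  have hνR : (1 : ℝ) ≤ ν := by exact_mod_cast hνa
  have hnνR : (n : ℝ) = 4 * D * ν := by rw [hn]; push_cast; ring
  have hr1R : (h : ℝ) * ν ≤ 8 * r := by exact_mod_cast hr1
  have hhn0 : 0 < (h : ℝ) * n := by positivity
  have hhn64 : 64 ≤ (h : ℝ) * n := by
    have : (64 : ℝ) ≤ h := by linarith
    exact this.trans (le_mul_of_one_le_right hhpos.le hnR)
  have hlogn : 0 ≤ Real.log n := Real.log_nonneg hnR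
  have hlogB : 0 ≤ Real.log B := Real.log_nonneg hBR
  obtain ⟨m, hm⟩ : ∃ m, 2 * m = h * n := ⟨h * (2 * D * ν), by rw [hn]; ring⟩
  have hmR : 2 * (m : ℝ) = h * n := by exact_mod_cast hm
  set Y : ℝ := (B : ℝ) * (B + 1) / κ * (1 + Real.log B) with hY
  have hY0 : 0 ≤ Y := by rw [hY]; positivity
  -- the factor `Z`
  have hl4 : Real.log 4 = 2 * Real.log 2 := by
    rw [show (4 : ℝ) = 2 ^ 2 by norm_num, Real.log_pow]; norm_num
  have hl2 := Real.log_two_lt_d9
  have hl2p : 0 < Real.log 2 := Real.log_pos (by norm_num)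
  have hPP := t_pp n (hb h b) B hn0 hB
  have hP0 : (0 : ℝ) < (PPn n (hb h b) B : ℝ) := by exact_mod_cast PPn_pos n _ B
  have hhbR : ((hb h b : ℕ) : ℝ) ≤ ((b : ℝ) + 1) * (h * (129 / 128)) := by
    unfold hb
    push_cast
    have e1 : ((b / 2 : ℕ) : ℝ) ≤ (b : ℝ) / 2 := Nat.cast_div_le
    have e2 : (b : ℝ) / 2 ≤ h / 128 := by linarith
    apply mul_le_mul_of_nonneg_left _ (by linarith)
    linarith
  have hrn : (h : ℝ) * n ≤ 32 * D * r := by
    rw [hnνR]
    calc (h : ℝ) * (4 * D * ν) = 4 * D * (h * ν) := by ring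
      _ ≤ 4 * D * (8 * r) := mul_le_mul_of_nonneg_left hr1R (by positivity)
      _ = _ := by ring
  have hlogP : Real.log (PPn n (hb h b) B : ℝ) ≤ r * (45 * D * Y * (h * n)) := by
    refine hPP.trans ?_
    have hT : 0 ≤ ((B : ℝ) * (B + 1)) * (n : ℝ) ^ 2 * (1 + Real.log B) := by positivity
    have e1 : ((hb h b : ℕ) : ℝ) * Real.log 4 * ((B : ℝ) * (B + 1)) * (n : ℝ) ^ 2 *
        (1 + Real.log B) ≤ (((b : ℝ) + 1) * (h * (129 / 128))) * Real.log 4 *
        (((B : ℝ) * (B + 1)) * (n : ℝ) ^ 2 * (1 + Real.log B)) := by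
      have e2 : ((hb h b : ℕ) : ℝ) * Real.log 4 ≤
          (((b : ℝ) + 1) * (h * (129 / 128))) * Real.log 4 :=
        mul_le_mul_of_nonneg_right hhbR (by rw [hl4]; linarith)
      have e3 := mul_le_mul_of_nonneg_right e2 hT
      calc _ = ((hb h b : ℕ) : ℝ) * Real.log 4 *
          (((B : ℝ) * (B + 1)) * (n : ℝ) ^ 2 * (1 + Real.log B)) := by ring
        _ ≤ _ := e3
    refine e1.trans ?_
    have e4 : (((b : ℝ) + 1) * (h * (129 / 128))) * Real.log 4 *
        (((B : ℝ) * (B + 1)) * (n : ℝ) ^ 2 * (1 + Real.log B)) =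
        (129 / 128 * Real.log 4) * (((h : ℝ) * n) * ((h * n) * Y)) := by
      rw [hY, hhe]
      have : (κ : ℝ) ≠ 0 := by linarith
      field_simp
    rw [e4]
    have e5 : 129 / 128 * Real.log 4 * 32 ≤ 45 := by
      rw [hl4]
      norm_num at hl2 ⊢
      linarith
    have e6 : (0 : ℝ) ≤ 129 / 128 * Real.log 4 := by rw [hl4]; linarith
    calc (129 / 128 * Real.log 4) * (((h : ℝ) * n) * ((h * n) * Y))
        ≤ (129 / 128 * Real.log 4) * ((32 * D * r) * ((h * n) * Y)) := by gcongr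
      _ = (129 / 128 * Real.log 4 * 32) * (D * r * ((h * n) * Y)) := by ring
      _ ≤ 45 * (D * r * ((h * n) * Y)) := mul_le_mul_of_nonneg_right e5 (by positivity)
      _ = _ := by ring
  set Z : ℝ := Real.exp (45 * D * Y * (h * n)) with hZ
  have hZ0 : 0 < Z := Real.exp_pos _
  have hPZ : (PPn n (hb h b) B : ℝ) ≤ Z ^ r := by
    rw [← Real.log_le_log_iff hP0 (by positivity), Real.log_pow, hZ, Real.log_exp]
    exact hlogP
  -- the new `q`
  have hDl : (0 : ℝ) < (Dl n B : ℝ) := by exact_mod_cast Run7.h795.UW.Dl_pos n B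
  have hDl1 : (1 : ℝ) ≤ (Dl n B : ℝ) := by exact_mod_cast Run7.h795.UW.Dl_pos n B
  set A : ℝ := (q : ℝ) * (Dl n B : ℝ) ^ b * (4 * (h : ℝ) * n + b + 1) ^ b * 2 ^ (4 * m) * Z with hA
  have hA1 : 1 ≤ A := by
    have h1 : (1 : ℝ) ≤ (Dl n B : ℝ) ^ b := one_le_pow₀ hDl1
    have h2 : (1 : ℝ) ≤ (4 * (h : ℝ) * n + b + 1) ^ b := one_le_pow₀ (by linarith)
    have h3 : (1 : ℝ) ≤ 2 ^ (4 * m) := one_le_pow₀ (by norm_num)
    have h4 : 1 ≤ Z := by rw [hZ]; exact Real.one_le_exp (by positivity)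
    rw [hA]
    exact one_le_mul_of_one_le_of_one_le (one_le_mul_of_one_le_of_one_le
      (one_le_mul_of_one_le_of_one_le (one_le_mul_of_one_le_of_one_le hqR h1) h2) h3) h4
  obtain ⟨q2, hq2⟩ : ∃ q2, q2 = ⌈A⌉₊ := ⟨_, rfl⟩
  have hq2a : A ≤ q2 := by rw [hq2]; exact Nat.le_ceil _
  have hq2b : (q2 : ℝ) ≤ 2 * A := by
    have := (Nat.ceil_lt_add_one (show 0 ≤ A by linarith)).le
    rw [← hq2] at this
    linarith
  have hq21 : 1 ≤ q2 := by
    have : (1 : ℝ) ≤ q2 := hA1.trans hq2a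
    exact_mod_cast this
  have hcomp := a2_comp (B := B) (b := b) (r := r) (q := q) (q2 := q2) (Z := Z) hN hC hq
    (show h * n / 2 = m by omega) hZ0 hPZ hq2a
  have hpos : 0 < Run7.h795.UW.Arc N n h b C r * (((q : ℝ) * (Dl n B : ℝ) ^ b) ^ r *
      (∏ i ∈ Finset.range r, (sc n h B i : ℝ) ^ 2) * (PPn n (hb h b) B : ℝ)) := by
    have hs : (0 : ℝ) < ∏ i ∈ Finset.range r, (sc n h B i : ℝ) ^ 2 := by
      apply Finset.prod_pos
      intro i _
      have : (0 : ℝ) < (sc n h B i : ℝ) := by exact_mod_cast sc_pos n h B i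
      positivity
    have := arc_pos N n h b r hC
    positivity
  refine lt_of_le_of_lt (Real.log_le_log hpos hcomp) ?_
  refine hν1 ν hνb n (h * ν) (2 * D * h * ν) hn rfl rfl r hr1 hr2 q2 hq21 ?_
  -- the logarithm of the new `q`
  have hlA : Real.log A = Real.log q + b * Real.log (Dl n B : ℝ) +
      b * Real.log (4 * (h : ℝ) * n + b + 1) + (4 * m : ℕ) * Real.log 2 +
      45 * D * Y * (h * n) := by
    have hY1 : (0 : ℝ) < 4 * (h : ℝ) * n + b + 1 := by positivity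
    rw [hA, Real.log_mul (by positivity) (by positivity), Real.log_mul (by positivity) (by positivity),
      Real.log_mul (by positivity) (by positivity), Real.log_mul (by positivity) (by positivity),
      Real.log_pow, Real.log_pow, Real.log_pow, hZ, Real.log_exp]
  have hlq2 : Real.log q2 ≤ Real.log 2 + Real.log A := by
    rw [← Real.log_mul (by norm_num) (by linarith)]
    exact Real.log_le_log (by linarith) hq2b
  have hDL := t_dl n B hn0 hB
  have g1 : Real.log (4 * (h : ℝ) * n + b + 1) ≤ Real.log (4 * (h : ℝ) + b + 1) + Real.log n := by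
    rw [← Real.log_mul (by positivity) (by positivity)]
    apply Real.log_le_log (by positivity)
    have e1 : (b : ℝ) ≤ b * n := le_mul_of_one_le_right hb0 hnR
    calc 4 * (h : ℝ) * n + b + 1 ≤ 4 * (h : ℝ) * n + b * n + 1 * n :=
          add_le_add (add_le_add le_rfl e1) (by rw [one_mul]; exact hnR)
      _ = _ := by ring
  have hBn : 0 < (B : ℝ) * n := by positivity
  have g2 : Real.sqrt ((B : ℝ) * n) * Real.log ((B : ℝ) * n) ≤
      4 * (B : ℝ) ^ ((3 : ℝ) / 4) * (n : ℝ) ^ ((3 : ℝ) / 4) := by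
    have := as_sqrt_log (y := (B : ℝ) * n) hBn
    rw [Real.mul_rpow (by linarith) (by linarith)] at this
    linarith
  have g3 : (b : ℝ) * Real.log (4 * (h : ℝ) * n + b + 1) +
      b * (Real.sqrt ((B : ℝ) * n) * Real.log ((B : ℝ) * n)) ≤ 6 * n := by
    have e1 := mul_le_mul_of_nonneg_left g1 hb0
    have e2 := mul_le_mul_of_nonneg_left g2 hb0
    refine le_trans (add_le_add e1 e2) (le_trans (le_of_eq ?_) hgr)
    ring
  have g4 : (b : ℝ) * (n * Real.log 4) ≤ (1 / 32) * (h * n) := by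
    have e1 : Real.log 4 ≤ 2 := log4_le
    have e2 : (b : ℝ) * 64 ≤ h := by linarith
    have e3 : (b : ℝ) * n * 64 ≤ h * n := by
      calc (b : ℝ) * n * 64 = b * 64 * n := by ring
        _ ≤ h * n := mul_le_mul_of_nonneg_right e2 (zero_le_one.trans hnR)
    calc (b : ℝ) * (n * Real.log 4) = (b * n) * Real.log 4 := by ring
      _ ≤ (b * n) * 2 := mul_le_mul_of_nonneg_left e1 (by positivity)
      _ ≤ _ := by linarith
  have g5 : 6 * (n : ℝ) ≤ (6 / 64) * (h * n) := by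
    have : 64 * (n : ℝ) ≤ h * n := mul_le_mul_of_nonneg_right (by linarith) (by linarith)
    linarith
  have g6 : ((4 * m : ℕ) : ℝ) * Real.log 2 ≤ (14 / 10) * (h * n) := by
    push_cast
    have : 4 * (m : ℝ) * Real.log 2 = (2 * Real.log 2) * (h * n) := by rw [← hmR]; ring
    rw [this]
    apply mul_le_mul_of_nonneg_right _ hhn0.le
    norm_num at hl2 ⊢
    linarith
  have g7 : (b : ℝ) * Real.log (Dl n B : ℝ) ≤ b * (n * Real.log 4) +
      b * (Real.sqrt ((B : ℝ) * n) * Real.log ((B : ℝ) * n)) := by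
    have := mul_le_mul_of_nonneg_left hDL hb0
    linarith
  have g8 : Real.log 2 ≤ (1 / 64) * (h * n) := by
    norm_num at hl2
    linarith
  have g9 : Real.log q2 ≤ Real.log q + 2 * (h * n) + 45 * D * Y * (h * n) := by
    rw [hlA] at hlq2
    linarith
  -- the exponents
  have hlr : Real.log ((h : ℝ) / (32 * D * ((N * (b + 1) : ℕ) : ℝ))) =
      Real.log ((κ : ℝ) / (32 * D * N)) := by
    congr 1
    rw [hhe]
    push_cast
    field_simp
  have hYh : (B : ℝ) * (B + 1) / h * (1 + Real.log B) ≤ Y := by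
    rw [hY]
    apply mul_le_mul_of_nonneg_right _ (by linarith)
    apply div_le_div_of_nonneg_left (by positivity) (by linarith)
    rw [hhe]
    exact le_mul_of_one_le_left (by linarith) (by linarith)
  have hU : (h : ℝ) * n * UU N κ B D + 3 * (h * n) + 45 * D * Y * (h * n) ≤
      h * n * Pool.Agent.TH818.SA.UU (N * (b + 1)) h B D := by
    have e1 : UU N κ B D + 3 + 45 * D * Y ≤ Pool.Agent.TH818.SA.UU (N * (b + 1)) h B D := by
      unfold UU Pool.Agent.TH818.SA.UU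
      rw [hlr, ← hY]
      have e2 : 45 * D * ((B : ℝ) * (B + 1) / h * (1 + Real.log B)) ≤ 45 * D * Y :=
        mul_le_mul_of_nonneg_left hYh (by positivity)
      linarith
    have e3 := mul_le_mul_of_nonneg_left e1 hhn0.le
    linarith
  linarith

end

end Run7.h795.UW
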