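import Pool.Agent.Run7.h795.UW.Stm2

/-!
# Simultaneous approximation of odd zeta values in windows: the choice of the parameters
-/

open Polynomial Pool.Agent.H337R2 Pool.Agent.W165.OZ Filter Topology

namespace Run7.h795.UW

noncomputable section

/-- the condition on the exponents -/
lemma exp_cond2 (D lam Y U : ℝ) (hD : 1 ≤ D) (hU : U = (2 - 1 / (2 * D)) * lam - 22 - 90 * D * Y)
    (hY : 0 ≤ Y) (hl : D * (60 + 180 * D * Y) ≤ lam) :
    2 * lam + 13 ≤ (1 + 1 / D) * U ∧ 1 ≤ U := by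
  have hD0 : 0 < D := by linarith
  have h0 : 0 ≤ lam := le_trans (by positivity) hl
  have h1 : 60 + 180 * D * Y ≤ lam / D := by
    rw [le_div_iff₀ hD0]
    linarith
  have h2 : (1 + 1 / D) * (2 - 1 / (2 * D)) * lam = 2 * lam + lam / D + (lam / D) * ((1 - 1 / D) / 2) := by
    field_simp
    ring
  have h3 : 0 ≤ (lam / D) * ((1 - 1 / D) / 2) := by
    have : 1 / D ≤ 1 := by
      rw [div_le_one hD0]
      exact hD
    apply mul_nonneg (by positivity)
    linarith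
  have h4 : 1 + 1 / D ≤ 2 := by
    have : 1 / D ≤ 1 := by
      rw [div_le_one hD0]
      exact hD
    linarith
  have h5 : (1 + 1 / D) * (22 + 90 * D * Y) ≤ 2 * (22 + 90 * D * Y) :=
    mul_le_mul_of_nonneg_right h4 (by positivity)
  have h6 : 2 * lam + 13 ≤ (1 + 1 / D) * U := by
    rw [hU]
    have e : (1 + 1 / D) * ((2 - 1 / (2 * D)) * lam - 22 - 90 * D * Y) =
        (1 + 1 / D) * (2 - 1 / (2 * D)) * lam - (1 + 1 / D) * (22 + 90 * D * Y) := by ring
    rw [e, h2]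
    linarith
  refine ⟨h6, ?_⟩
  have hUpos : 0 ≤ U := by
    by_contra hneg
    push Not at hneg
    have : (1 + 1 / D) * U < 0 := mul_neg_of_pos_of_neg (by positivity) hneg
    linarith
  have h7 : (1 + 1 / D) * U ≤ 2 * U := mul_le_mul_of_nonneg_right h4 hUpos
  linarith

/-- the choice of the parameters -/
theorem t_f2 : S_F2 := by
  unfold S_F2
  obtain ⟨c, hc⟩ : ∃ c : ℝ, c = 1 / 5000 := ⟨_, rfl⟩
  have hc0 : 0 < c := by rw [hc]; norm_num
  rw [← hc]
  have e1 : ∀ᶠ s : ℕ in atTop, Real.log s * Real.log s ≤ s := by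
    have h1 := (Real.isLittleO_pow_log_id_atTop (n := 2)).bound (show (0 : ℝ) < 1 by norm_num)
    have h2 := (tendsto_natCast_atTop_atTop (R := ℝ)).eventually h1
    filter_upwards [h2] with s hs
    have hs' : ‖Real.log (s : ℝ) ^ 2‖ ≤ 1 * ‖(s : ℝ)‖ := by simpa using hs
    rw [one_mul, Real.norm_eq_abs, Real.norm_eq_abs, abs_of_nonneg (by positivity : (0 : ℝ) ≤ (s : ℝ)),
      abs_of_nonneg (sq_nonneg _), sq] at hs'
    exact hs'
  have e2 : ∀ᶠ s : ℕ in atTop, 3 ≤ Real.log s :=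
    (Real.tendsto_log_atTop.comp tendsto_natCast_atTop_atTop).eventually_ge_atTop 3
  obtain ⟨s0, hs0⟩ := eventually_atTop.1 (e1.and e2)
  refine ⟨s0, fun s hs D hD hDL => ?_⟩
  obtain ⟨h1, h2⟩ := hs0 s hs
  obtain ⟨L1, hL1⟩ : ∃ L, L = Real.log s := ⟨_, rfl⟩
  obtain ⟨L2, hL2⟩ : ∃ L, L = Real.log L1 := ⟨_, rfl⟩
  rw [← hL1] at h1 h2 hDL ⊢
  rw [← hL2] at hDL ⊢
  have hs2 : (4 : ℝ) ≤ s := by
    by_contra hcon
    push Not at hcon
    have hsp : (0 : ℝ) < s := by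
      rcases Nat.eq_zero_or_pos s with h | h
      · subst h
        simp at hL1
        linarith
      · exact_mod_cast h
    have := Real.log_le_sub_one_of_pos hsp
    rw [← hL1] at this
    linarith
  have hs4 : 4 ≤ s := by exact_mod_cast hs2
  have hL2p : 0 < L2 := by
    rw [hL2]
    exact Real.log_pos (by linarith)
  have hL21 : L2 ≤ L1 := by
    rw [hL2]
    have := Real.log_le_sub_one_of_pos (show 0 < L1 by linarith)
    linarith
  have hD1 : (1 : ℝ) ≤ D := by exact_mod_cast hD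
  have hL1p : 0 < L1 := by linarith
  obtain ⟨x, hx⟩ : ∃ x, x = (s : ℝ) * L2 / L1 / (D : ℝ) ^ 2 := ⟨_, rfl⟩
  have hsx : c / D * Real.sqrt ((s : ℝ) * L2 / L1) = c * Real.sqrt x := by
    rw [hx, Real.sqrt_div' ((s : ℝ) * L2 / L1) (show (0 : ℝ) ≤ (D : ℝ) ^ 2 by positivity),
      Real.sqrt_sq (by positivity)]
    ring
  rw [hsx]
  have hxp : 0 < x := by
    rw [hx]
    positivity
  have hx1 : (1 / c) ^ 2 ≤ x := by
    rw [hx, le_div_iff₀ (by positivity), le_div_iff₀ hL1p]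
    have h3 : (D : ℝ) ^ 2 ≤ (c * L2) ^ 2 := pow_le_pow_left₀ (by positivity) hDL 2
    have h4 : L2 * L1 ≤ s := (mul_le_mul_of_nonneg_right hL21 hL1p.le).trans h1
    calc (1 / c) ^ 2 * (D : ℝ) ^ 2 * L1 ≤ (1 / c) ^ 2 * (c * L2) ^ 2 * L1 := by gcongr
      _ = (L2 * L1) * L2 := by field_simp
      _ ≤ s * L2 := mul_le_mul_of_nonneg_right h4 hL2p.le
  have hsq : 1 / c ≤ Real.sqrt x := Real.le_sqrt_of_sq_le hx1
  have hcs : 1 ≤ c * Real.sqrt x := by
    calc 1 = c * (1 / c) := by field_simp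
      _ ≤ _ := mul_le_mul_of_nonneg_left hsq hc0.le
  obtain ⟨B, hB⟩ : ∃ B, B = ⌈c * Real.sqrt x⌉₊ := ⟨_, rfl⟩
  have hB1 : c * Real.sqrt x ≤ B := by
    rw [hB]
    exact Nat.le_ceil _
  have hB2 : (B : ℝ) ≤ 2 * (c * Real.sqrt x) := by
    have := (Nat.ceil_lt_add_one (show 0 ≤ c * Real.sqrt x by positivity)).le
    rw [← hB] at this
    linarith
  have hB3 : (1 : ℝ) ≤ B := hcs.trans hB1
  have hB4 : (B : ℝ) * (B + 1) ≤ 8 * c ^ 2 * x := by
    have h3 : (B : ℝ) * (B + 1) ≤ 2 * (B : ℝ) ^ 2 := by nlinarith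
    have h4 : (B : ℝ) ^ 2 ≤ (2 * (c * Real.sqrt x)) ^ 2 :=
      pow_le_pow_left₀ (by linarith) hB2 2
    have h5 : (2 * (c * Real.sqrt x)) ^ 2 = 4 * c ^ 2 * x := by
      rw [mul_pow, mul_pow, Real.sq_sqrt hxp.le]
      ring
    linarith
  obtain ⟨h, hh⟩ : ∃ h, h = s / 2 := ⟨_, rfl⟩
  have hh1 : 2 * h ≤ s := by omega
  have hh2 : (s : ℝ) / 4 ≤ h := by
    have h3 : s ≤ 4 * h := by omega
    have h4 : (s : ℝ) ≤ 4 * h := by exact_mod_cast h3
    linarith
  have hhp : (0 : ℝ) < h := by linarith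
  -- the quotient
  have hy : (B : ℝ) * (B + 1) / h ≤ 32 * c ^ 2 * L2 / ((D : ℝ) ^ 2 * L1) := by
    rw [div_le_div_iff₀ hhp (by positivity)]
    have h3 : (8 * c ^ 2 * x) * ((D : ℝ) ^ 2 * L1) = 8 * c ^ 2 * (s * L2) := by
      rw [hx]
      field_simp
    calc (B : ℝ) * (B + 1) * ((D : ℝ) ^ 2 * L1) ≤ (8 * c ^ 2 * x) * ((D : ℝ) ^ 2 * L1) :=
          mul_le_mul_of_nonneg_right hB4 (by positivity)
      _ = 32 * c ^ 2 * L2 * (s / 4) := by rw [h3]; ring
      _ ≤ 32 * c ^ 2 * L2 * h := mul_le_mul_of_nonneg_left hh2 (by positivity)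
  have hDy : D * ((B : ℝ) * (B + 1) / h) ≤ 32 * c ^ 2 * (L2 / L1) := by
    calc D * ((B : ℝ) * (B + 1) / h) ≤ D * (32 * c ^ 2 * L2 / ((D : ℝ) ^ 2 * L1)) :=
          mul_le_mul_of_nonneg_left hy (by positivity)
      _ = (32 * c ^ 2 * (L2 / L1)) * (1 / D) := by field_simp
      _ ≤ (32 * c ^ 2 * (L2 / L1)) * 1 := by
          apply mul_le_mul_of_nonneg_left _ (by positivity)
          rw [div_le_one (by positivity)]
          exact hD1
      _ = _ := mul_one _
  have hyp : 0 < (B : ℝ) * (B + 1) / h := by positivity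
  have h32 : 32 * D * (B * (B + 1)) ≤ h := by
    have h3 : L2 / L1 ≤ 1 := by
      rw [div_le_one hL1p]
      exact hL21
    have h4 : D * ((B : ℝ) * (B + 1) / h) ≤ 1 / 32 := by
      refine hDy.trans ?_
      have : 32 * c ^ 2 * (L2 / L1) ≤ 32 * c ^ 2 * 1 := mul_le_mul_of_nonneg_left h3 (by positivity)
      refine this.trans ?_
      rw [hc]
      norm_num
    rw [← mul_div_assoc, div_le_iff₀ hhp] at h4
    have h5 : (32 : ℝ) * D * (B * (B + 1)) ≤ h := by linarith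
    exact_mod_cast h5
  have hBs : (B : ℝ) ≤ s := by
    have h3 : B ≤ s := by
      have h4 : B * 1 ≤ B * (B + 1) := Nat.mul_le_mul_left B (by omega)
      have h5 : 1 * (B * (B + 1)) ≤ 32 * D * (B * (B + 1)) := Nat.mul_le_mul_right _ (by omega)
      omega
    exact_mod_cast h3
  have hlB : 1 + Real.log B ≤ 2 * L1 := by
    have h3 := Real.log_le_log (by linarith) hBs
    rw [← hL1] at h3
    linarith
  have hlB0 : 0 ≤ 1 + Real.log B := by
    have := Real.log_nonneg hB3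
    linarith
  refine ⟨h, B, hh1, by exact_mod_cast hB3, h32, hB1, ?_⟩
  have hleft : D * (60 + 180 * D * ((B : ℝ) * (B + 1) / h * (1 + Real.log B))) ≤ L2 / 2 := by
    have h3 : ((B : ℝ) * (B + 1) / h) * (1 + Real.log B) ≤
        (32 * c ^ 2 * L2 / ((D : ℝ) ^ 2 * L1)) * (2 * L1) :=
      mul_le_mul hy hlB hlB0 (by positivity)
    calc D * (60 + 180 * D * ((B : ℝ) * (B + 1) / h * (1 + Real.log B))) ≤
          D * (60 + 180 * D * ((32 * c ^ 2 * L2 / ((D : ℝ) ^ 2 * L1)) * (2 * L1))) := by gcongr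
      _ = 60 * D + 11520 * c ^ 2 * L2 := by field_simp; ring
      _ ≤ 60 * (c * L2) + 11520 * c ^ 2 * L2 := by linarith
      _ ≤ L2 / 2 := by
        rw [hc]
        norm_num
        linarith
  have hright : L2 / 2 ≤ Real.log ((h : ℝ) / (16 * D * (B * (B + 1)))) := by
    have h4 : L1 / L2 ≤ (h : ℝ) / (16 * D * (B * (B + 1))) := by
      rw [div_le_div_iff₀ hL2p (by positivity)]
      rw [← mul_div_assoc, div_le_iff₀ hhp] at hDy
      have h5 : L1 * (16 * D * (B * (B + 1))) = 16 * L1 * (D * ((B : ℝ) * (B + 1))) := by ring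
      rw [h5]
      have h6 : 16 * L1 * (D * ((B : ℝ) * (B + 1))) ≤ 16 * L1 * (32 * c ^ 2 * (L2 / L1) * h) :=
        mul_le_mul_of_nonneg_left hDy (by positivity)
      refine h6.trans ?_
      have h7 : 16 * L1 * (32 * c ^ 2 * (L2 / L1) * h) = (512 * c ^ 2) * (h * L2) := by
        field_simp
        ring
      rw [h7]
      have h8 : 512 * c ^ 2 ≤ 1 := by rw [hc]; norm_num
      have h9 : 0 ≤ (h : ℝ) * L2 := by positivity
      nlinarith
    have h5 := Real.log_le_log (by positivity) h4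
    rw [Real.log_div hL1p.ne' hL2p.ne', ← hL2] at h5
    have h6 : Real.log L2 ≤ L2 / 2 := by
      have h7 := Real.log_le_sub_one_of_pos (show 0 < L2 / 2 by positivity)
      rw [Real.log_div hL2p.ne' (by norm_num)] at h7
      have h8 := Real.log_two_lt_d9
      linarith
    linarith
  linarith

end

end Run7.h795.UW
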