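import Pool.Agent.Run7.h795.UW.Stm2

/-!
# Simultaneous approximation of odd zeta values in windows: the main argument
-/

set_option autoImplicit false

open Polynomial Pool.Agent.H337R2 Pool.Agent.W165.OZ Filter Topology

namespace Run7.h795.UW

noncomputable section

lemma mo_cast2 (n h B b : ℕ) (w : ℕ → ℤ) (z : ℕ → ℚ) (k : ℕ) :
    mo (A := ℝ) n h B b w (fun i => ((z i : ℚ) : ℝ)) k = ((mo (A := ℚ) n h B b w z k : ℚ) : ℝ) := by
  unfold mo La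
  rw [Rat.cast_sum]
  refine Finset.sum_congr rfl fun i _ => ?_
  simp only [eq_ratCast, Rat.cast_sub, Rat.cast_mul, Rat.cast_id]

/-- the condition on the exponents -/
lemma exp_cond3 (D lam Y U : ℝ) (hD : 1 ≤ D) (hU : U = (2 - 1 / (2 * D)) * lam - 22 - 90 * D * Y)
    (hY : 0 ≤ Y) (hl : D * (60 + 180 * D * Y) ≤ lam) :
    2 * lam + 13 ≤ (1 + 1 / D) * U ∧ 1 ≤ U := by
  have hD0 : 0 < D := by linarith
  have h0 : 0 ≤ lam := le_trans (by positivity) hl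
  have h1 : 60 + 180 * D * Y ≤ lam / D := by
    rw [le_div_iff₀ hD0]
    linarith
  have h2 : (1 + 1 / D) * (2 - 1 / (2 * D)) * lam = 2 * lam + lam / D + (lam / D) * ((1 - 1 / D) / 2) := by
    field_simp
    ring
  have h3 : 0 ≤ (lam / D) * ((1 - 1 / D) / 2) := by
    have : 1 / D ≤ 1 := by
      rw [div_le_one hD0]
      exact hD
    apply mul_nonneg (by positivity)
    linarith
  have h4 : 1 + 1 / D ≤ 2 := by
    have : 1 / D ≤ 1 := by
      rw [div_le_one hD0]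
      exact hD
    linarith
  have h5 : (1 + 1 / D) * (22 + 90 * D * Y) ≤ 2 * (22 + 90 * D * Y) :=
    mul_le_mul_of_nonneg_right h4 (by positivity)
  have h6 : 2 * lam + 13 ≤ (1 + 1 / D) * U := by
    rw [hU]
    have : (1 + 1 / D) * ((2 - 1 / (2 * D)) * lam - 22 - 90 * D * Y) =
        (1 + 1 / D) * (2 - 1 / (2 * D)) * lam - (1 + 1 / D) * (22 + 90 * D * Y) := by ring
    rw [this, h2]
    linarith
  refine ⟨h6, ?_⟩
  by_contra hcon
  push Not at hcon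
  have h7 : (1 + 1 / D) * U ≤ 2 := by
    rcases le_or_gt U 0 with h | h
    · have : (1 + 1 / D) * U ≤ 0 := mul_nonpos_of_nonneg_of_nonpos (by positivity) h
      linarith
    · calc (1 + 1 / D) * U ≤ 2 * 1 := mul_le_mul h4 hcon.le h.le (by norm_num)
        _ = 2 := by norm_num
  linarith

theorem core2 (h1 : S_WE) (h2 : S_NO) (h3 : S_RM) (hPE : S_PE) (hES : S_ES) (hVN : S_VN) (hVA : S_VA)
    (hA2 : S_A2) (hP2 : S_P2) (κ B b D : ℕ) (hD : 1 ≤ D) (hB : 1 ≤ B) (hbe : Even b) (hb2 : 2 ≤ b)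
    (hBh : 32 * D * (B * (B + 1)) ≤ κ)
    (hineq : D * (60 + 180 * D * ((B : ℝ) * (B + 1) / κ * (1 + Real.log B))) ≤
      Real.log ((κ : ℝ) / (16 * D * (B * (B + 1)))))
    (I : Finset ℕ) (hI : I.card < B) :
    ∃ q0 : ℕ, ∀ q : ℕ, q0 ≤ q → ¬ ∀ i, Odd i → 3 ≤ i → i ≤ 2 * ((b + 1) * κ) → i ∉ I →
      ∃ p : ℤ, |(q : ℝ) * zr (i + b) - p| < (q : ℝ) ^ (-(1 / (D : ℝ))) := by
  classical
  obtain ⟨w, hw, hWI'⟩ := h1 B (I.image (· + b)) (lt_of_le_of_lt Finset.card_image_le hI)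
  have hWI : ∀ i ∈ I, WW B w (i + b) = 0 := fun i hi => hWI' _ (Finset.mem_image_of_mem _ hi)
  obtain ⟨N, δ, c1, c2, τ, ω, hNod, h2N, hNO⟩ := h2 B w hw
  have hN := hNod.hN
  have hDN : 64 * D * N ≤ κ := by
    have e1 : 32 * D * (2 * N) ≤ 32 * D * (B * (B + 1)) := Nat.mul_le_mul_left _ h2N
    have e2 : 32 * D * (2 * N) = 64 * D * N := by ring
    omega
  have hκ : 1 ≤ κ := by
    have : 1 * 1 ≤ D * N := Nat.mul_le_mul hD hN
    have : 64 * (D * N) ≤ κ := by rw [← mul_assoc]; exact hDN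
    omega
  obtain ⟨h, hhdef⟩ : ∃ h : ℕ, h = (b + 1) * κ := ⟨_, rfl⟩
  have hh : 1 ≤ h := by
    rw [hhdef]; exact Nat.mul_pos (by omega) hκ
  have hc2 : 0 < c2 := lt_of_lt_of_le (lt_of_lt_of_le hNod.hc1 (hNod.wlo 0)) (hNod.whi 0)
  have hNr : (1 : ℝ) ≤ N := by exact_mod_cast hN
  have hDr : (1 : ℝ) ≤ D := by exact_mod_cast hD
  have hhr : (1 : ℝ) ≤ h := by exact_mod_cast hh
  have hκr : (1 : ℝ) ≤ κ := by exact_mod_cast hκ
  have hBr : (1 : ℝ) ≤ B := by exact_mod_cast hB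
  have hC : 0 < 4 * (N : ℝ) ^ 2 * c2 := by positivity
  -- the exponents
  obtain ⟨lam, hlam⟩ : ∃ lam, lam = Real.log ((κ : ℝ) / (32 * D * N)) := ⟨_, rfl⟩
  obtain ⟨Y, hY⟩ : ∃ Y, Y = (B : ℝ) * (B + 1) / κ * (1 + Real.log B) := ⟨_, rfl⟩
  have hlB : 0 ≤ Real.log B := Real.log_nonneg hBr
  have hY0 : 0 ≤ Y := by rw [hY]; positivity
  have hlam2 : D * (60 + 180 * D * Y) ≤ lam := by
    rw [hY, hlam]
    refine hineq.trans (Real.log_le_log (by positivity) ?_)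
    apply div_le_div_of_nonneg_left (by positivity) (by positivity)
    have : (2 * N : ℝ) ≤ (B : ℝ) * (B + 1) := by exact_mod_cast h2N
    have e1 : 16 * (D : ℝ) * (2 * N) ≤ 16 * D * ((B : ℝ) * (B + 1)) :=
      mul_le_mul_of_nonneg_left this (by positivity)
    linarith
  obtain ⟨U, hU⟩ : ∃ U, U = UU N κ B D := ⟨_, rfl⟩
  have hU' : U = (2 - 1 / (2 * (D : ℝ))) * lam - 22 - 90 * D * Y := by
    rw [hU, hlam, hY]
    rfl
  obtain ⟨hV, hU1⟩ := exp_cond3 D lam Y U hDr hU' hY0 hlam2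
  obtain ⟨V, hVdef⟩ : ∃ V, V = (1 + 1 / (D : ℝ)) * U := ⟨_, rfl⟩
  rw [← hVdef, hlam] at hV
  -- the thresholds
  obtain ⟨ν3, hν3⟩ := hVN N δ c1 c2 τ ω hNod κ b D hD hDN
  obtain ⟨ν4, hν4⟩ := hVA N δ c1 c2 τ ω hNod κ b D hD hDN
  obtain ⟨ν1, hν1⟩ := hA2 N κ B b D (2 * (4 * (N : ℝ) ^ 2 * c2)) hN hB hD (by positivity) hDN
  have hCw0 : 0 ≤ Cw h B b w := by
    unfold Cw
    exact mul_nonneg (by positivity) (Finset.sum_nonneg fun _ _ => abs_nonneg _)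
  obtain ⟨ν2, hν2⟩ := hES N κ b D hN hD hDN (Cw h B b w + 1) (4 * (N : ℝ) ^ 2 * c2) V (by linarith) hC hV
  rw [← hhdef] at hν1 hν2 hν3 hν4
  have hP : 0 < 4 * (D : ℝ) * h * U := by positivity
  have hlim := (Real.tendsto_log_atTop.comp tendsto_natCast_atTop_atTop).eventually_ge_atTop
    (4 * (D : ℝ) * h * U * (((ν3 + ν4 + ν1 + ν2 + B + 1 : ℕ)) : ℝ))
  obtain ⟨q1, hq1⟩ := eventually_atTop.1 hlim
  refine ⟨max q1 1, fun q hq hall => ?_⟩
  rw [← hhdef] at hall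
  have hqq1 : 4 * (D : ℝ) * h * U * (((ν3 + ν4 + ν1 + ν2 + B + 1 : ℕ)) : ℝ) ≤ Real.log q :=
    hq1 q ((le_max_left _ _).trans hq)
  have hq1' : 1 ≤ q := (le_max_right _ _).trans hq
  have hqr : (1 : ℝ) ≤ q := by exact_mod_cast hq1'
  have hqpos : (0 : ℝ) < q := by linarith
  -- the choice of `ν`
  obtain ⟨ν, hν⟩ : ∃ ν, ν = ⌈Real.log q / (4 * D * h * U)⌉₊ := ⟨_, rfl⟩
  have hνa : Real.log q / (4 * D * h * U) ≤ ν := by rw [hν]; exact Nat.le_ceil _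
  have hνb : (ν : ℝ) < Real.log q / (4 * D * h * U) + 1 := by
    rw [hν]
    exact Nat.ceil_lt_add_one (div_nonneg (Real.log_nonneg hqr) hP.le)
  have hνge : ν3 + ν4 + ν1 + ν2 + B + 1 ≤ ν := by
    have e1 : (((ν3 + ν4 + ν1 + ν2 + B + 1 : ℕ)) : ℝ) ≤ Real.log q / (4 * D * h * U) := by
      rw [le_div_iff₀ hP]
      linarith
    exact_mod_cast e1.trans hνa
  have hνc : Real.log q ≤ 4 * D * h * U * ν := by
    rw [div_le_iff₀ hP] at hνa
    linarith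
  have hνd : 4 * D * h * U * (ν - 1) ≤ Real.log q := by
    have e1 : (ν : ℝ) - 1 ≤ Real.log q / (4 * D * h * U) := by linarith
    rw [le_div_iff₀ hP] at e1
    linarith
  obtain ⟨n, hn⟩ : ∃ n, n = 4 * D * ν := ⟨_, rfl⟩
  have hnν : ν ≤ n := by
    rw [hn]
    have : 1 * ν ≤ (4 * D) * ν := Nat.mul_le_mul_right ν (by omega)
    omega
  have hn2 : 2 ≤ n := by
    rw [hn]
    have : 1 * 1 ≤ D * ν := Nat.mul_le_mul hD (by omega)
    have : 4 * D * ν = 4 * (D * ν) := by ring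
    omega
  have hne : Even n := ⟨2 * D * ν, by rw [hn]; ring⟩
  -- the rational approximations
  obtain ⟨η, hη⟩ : ∃ η : ℝ, η = (q : ℝ) ^ (-(1 + 1 / (D : ℝ))) := ⟨_, rfl⟩
  have hη0 : 0 < η := by rw [hη]; exact Real.rpow_pos_of_pos hqpos _
  have hrat : ∀ i, ∃ p : ℤ, (Odd i → 3 ≤ i → i ≤ 2 * h → i ∉ I →
      |(q : ℝ) * zr (i + b) - p| < (q : ℝ) ^ (-(1 / (D : ℝ)))) ∧
      (¬ (Odd i ∧ 3 ≤ i ∧ i ≤ 2 * h ∧ i ∉ I) → p = 0) := by
    intro i
    by_cases hc : Odd i ∧ 3 ≤ i ∧ i ≤ 2 * h ∧ i ∉ I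
    · obtain ⟨p, hp⟩ := hall i hc.1 hc.2.1 hc.2.2.1 hc.2.2.2
      exact ⟨p, fun _ _ _ _ => hp, fun hx => absurd hc hx⟩
    · exact ⟨0, fun a b c d => absurd ⟨a, b, c, d⟩ hc, fun _ => rfl⟩
  choose p hp1 hp0 using hrat
  obtain ⟨z, hz⟩ : ∃ z : ℕ → ℚ, z = fun j => (p (j - b) : ℚ) / q := ⟨_, rfl⟩
  have hqz : ∀ i, ∃ a : ℤ, (q : ℚ) * z i = a := by
    intro i
    refine ⟨p (i - b), ?_⟩
    rw [hz]
    have : (q : ℚ) ≠ 0 := by
      have : 0 < q := hq1'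
      positivity
    field_simp
  have hzb : ∀ i, z (i + b) = (p i : ℚ) / q := by
    intro i
    rw [hz]
    simp only [Nat.add_sub_cancel]
  -- the real values
  obtain ⟨x, hx⟩ : ∃ x : ℕ → ℝ, x = fun j => if j = 1 + b then 0 else zz j := ⟨_, rfl⟩
  have hxb : ∀ i, i ≠ 1 → x (i + b) = zz (i + b) := by
    intro i hi
    rw [hx]
    simp only
    rw [if_neg (by omega)]
  have hzzodd : ∀ i, Odd i → 3 ≤ i → zz (i + b) = zr (i + b) := by
    intro i hi hi3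
    unfold zz
    rw [if_pos ⟨hi.add_even hbe, by omega⟩]
  have hzzev : ∀ i, ¬ Odd i → zz (i + b) = 0 := by
    intro i hi
    unfold zz
    rw [if_neg]
    rintro ⟨hx, -⟩
    exact hi ((Nat.odd_add.1 hx).2 hbe)
  have hx1 : x (1 + b) = 0 := by
    rw [hx]
    simp only
    rw [if_pos trivial]
  have hclose : ∀ i ∈ Finset.Icc 1 (2 * h), WW B w (i + b) ≠ 0 → |((z (i + b) : ℚ) : ℝ) - x (i + b)| ≤ η := by
    intro i hi hWi
    have hi2 := (Finset.mem_Icc.1 hi).2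
    have hiI : i ∉ I := fun hmem => hWi (hWI i hmem)
    by_cases hc : Odd i ∧ 3 ≤ i
    · have e1 := hp1 i hc.1 hc.2 hi2 hiI
      rw [hxb i (by omega), hzzodd i hc.1 hc.2, hzb]
      push_cast
      have e3 : (p i : ℝ) / q - zr (i + b) = -(((q : ℝ) * zr (i + b) - p i) / q) := by
        field_simp
        ring
      rw [e3, abs_neg, abs_div, abs_of_pos hqpos, div_le_iff₀ hqpos, hη]
      have e4 : (q : ℝ) ^ (-(1 + 1 / (D : ℝ))) * q = (q : ℝ) ^ (-(1 / (D : ℝ))) := by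
        conv_lhs => rw [← Real.rpow_one (q : ℝ), ← Real.rpow_mul hqpos.le, ← Real.rpow_add hqpos]
        congr 1
        ring
      rw [e4]
      exact e1.le
    · have e1 : p i = 0 := hp0 i fun hx => hc ⟨hx.1, hx.2.1⟩
      have e2 : x (i + b) = 0 := by
        by_cases h1 : i = 1
        · rw [h1, hx1]
        · rw [hxb i h1]
          apply hzzev
          intro ho
          have := (Finset.mem_Icc.1 hi).1
          exact hc ⟨ho, by obtain ⟨t, ht⟩ := ho; omega⟩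
      rw [e2, hzb, e1]
      simp
      exact hη0.le
  -- the moments
  have hMom : Mom n h b τ ω (mo (A := ℝ) n h B b w x) := by
    intro k hk
    obtain ⟨hs, hv⟩ := h3 n h B b w hn2 hne hh hbe hb2 k hk
    have h8 := hNO (fun t => Dv n h b t (X ^ k)) hs
    rw [← hv, mb_mo_eq n h B b hbe hb2 w ∅ x (fun i hi => absurd hi (Finset.notMem_empty i))
      (fun i g1 g2 _ _ => by rw [hxb i (by omega), hzzodd i g1 g2])
      (fun i g1 => by
        rw [hxb i (fun h => g1 (h ▸ odd_one)), hzzev i g1]) k hk] at h8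
    exact h8
  have hpert := hPE n h B b w (fun i => ((z i : ℚ) : ℝ)) x η hclose
  have hEp0 : 0 ≤ Ep n h B b w η := by
    unfold Ep
    positivity
  -- the size of the perturbation
  have hlη : Real.log η ≤ -(V * (h * (n - 4 * D))) := by
    rw [hη, Real.log_rpow hqpos]
    have e1 : V * ((h : ℝ) * (n - 4 * D)) = (1 + 1 / (D : ℝ)) * (4 * D * h * U * (ν - 1)) := by
      rw [hVdef, hn]
      push_cast
      ring
    rw [e1]
    have e2 : (1 + 1 / (D : ℝ)) * (4 * D * h * U * (ν - 1)) ≤ (1 + 1 / (D : ℝ)) * Real.log q :=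
      mul_le_mul_of_nonneg_left hνd (by positivity)
    linarith
  have hes := hν2 ν (by omega) n hn η hη0 hlη
  have hEsmall : Ep n h B b w η * 16 ^ (h * ν) * MM N (κ * ν) ^ (2 * (h * n)) ≤ 4 * (N : ℝ) ^ 2 * c2 := by
    refine le_trans ?_ hes
    have hMM : 0 ≤ MM N (κ * ν) := le_trans zero_le_one (le_max_left _ _)
    unfold Ep
    gcongr
    linarith
  obtain ⟨r, hr1, hr2, hr3⟩ := hν3 ν (by omega) n hn _ hMom
    (mo (A := ℝ) n h B b w (fun i => ((z i : ℚ) : ℝ))) (Ep n h B b w η) hEp0 hpert hEsmall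
  have hr4 := hν4 ν (by omega) n hn _ hMom
    (mo (A := ℝ) n h B b w (fun i => ((z i : ℚ) : ℝ))) (Ep n h B b w η) hEp0 hpert hEsmall r hr2
  have hDH : DH (mo (A := ℝ) n h B b w (fun i => ((z i : ℚ) : ℝ))) r =
      ((DH (mo (A := ℚ) n h B b w z) r : ℚ) : ℝ) := by
    rw [← ma_DH_cast]
    congr 1
    funext k
    exact mo_cast2 n h B b w z k
  have hr3' : DH (mo (A := ℚ) n h B b w z) r ≠ 0 := by
    intro h8
    apply hr3
    rw [hDH, h8]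
    simp
  have h2r : 2 * r ≤ h * n := by
    rw [hn]
    have e1 : 2 * (h * ν) ≤ (4 * D) * (h * ν) := Nat.mul_le_mul_right _ (by omega)
    have e2 : h * (4 * D * ν) = (4 * D) * (h * ν) := by ring
    omega
  have e1 := hP2 n h B b w z q hq1' hqz hbe hn2 hne hh hB (by omega) r h2r hr3'
  obtain ⟨F, hF⟩ : ∃ F : ℝ, F = ((q : ℝ) * (Dl n B : ℝ) ^ b) ^ r * (∏ i ∈ Finset.range r, (sc n h B i : ℝ) ^ 2) *
      (PPn n (hb h b) B : ℝ) := ⟨_, rfl⟩
  have e1' : (1 : ℝ) ≤ |DH (mo (A := ℝ) n h B b w (fun i => ((z i : ℚ) : ℝ))) r| * F := by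
    rw [hDH, hF]
    have h8 : ((1 : ℚ) : ℝ) ≤ ((|DH (mo (A := ℚ) n h B b w z) r| *
      (((q : ℚ) * (Dl n B : ℚ) ^ b) ^ r * (∏ i ∈ Finset.range r, sc n h B i ^ 2) *
        (PPn n (hb h b) B : ℚ)) : ℚ) : ℝ) := by
      exact_mod_cast e1
    push_cast at h8
    exact h8
  have hnn : (0 : ℝ) ≤ F := by
    rw [hF]
    have : (0 : ℝ) ≤ ∏ i ∈ Finset.range r, (sc n h B i : ℝ) ^ 2 :=
      Finset.prod_nonneg fun i _ => sq_nonneg _
    positivity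
  have e4 : (1 : ℝ) ≤ Arc N n h b (2 * (4 * (N : ℝ) ^ 2 * c2)) r * F :=
    e1'.trans (mul_le_mul_of_nonneg_right hr4 hnn)
  have e5 := Real.log_nonneg e4
  have e6 := hν1 ν (by omega) n hn r hr1 hr2 q hq1' (by
    rw [← hU]
    refine hνc.trans (le_of_eq ?_)
    rw [hn]
    push_cast
    ring)
  rw [← hF] at e6
  linarith

/-- the main theorem on simultaneous approximation -/
theorem t_m2 (h1 : S_WE) (h2 : S_NO) (h3 : S_RM) (hPE : S_PE) (hES : S_ES) (hVN : S_VN) (hVA : S_VA)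
    (hA2 : S_A2) (hP2 : S_P2) : S_M2 := by
  classical
  intro κ B b D hD hB hbe hb2 hBh hineq
  obtain ⟨h, hhdef⟩ : ∃ h : ℕ, h = (b + 1) * κ := ⟨_, rfl⟩
  have h4 : ∀ I : Finset ℕ, ∃ q0 : ℕ, I.card < B → ∀ q : ℕ, q0 ≤ q → ¬ ∀ i, Odd i → 3 ≤ i →
      i ≤ 2 * h → i ∉ I → ∃ p : ℤ, |(q : ℝ) * zr (i + b) - p| < (q : ℝ) ^ (-(1 / (D : ℝ))) := by
    intro I
    by_cases hI : I.card < B
    · obtain ⟨q0, hq0⟩ := core2 h1 h2 h3 hPE hES hVN hVA hA2 hP2 κ B b D hD hB hbe hb2 hBh hineq I hI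
      rw [← hhdef] at hq0
      exact ⟨q0, fun _ => hq0⟩
    · exact ⟨0, fun h => absurd h hI⟩
  choose f hf using h4
  rw [← hhdef]
  refine ⟨(Finset.Icc 3 (2 * h)).powerset.sup f, fun q hq => ?_⟩
  obtain ⟨I, hI⟩ : ∃ I : Finset ℕ, I = (Finset.Icc 3 (2 * h)).filter (fun i => Odd i ∧
    ∀ p : ℤ, (q : ℝ) ^ (-(1 / (D : ℝ))) ≤ |(q : ℝ) * zr (i + b) - p|) := ⟨_, rfl⟩
  have hmem : ∀ i, i ∈ I ↔ (3 ≤ i ∧ i ≤ 2 * h) ∧ Odd i ∧
      ∀ p : ℤ, (q : ℝ) ^ (-(1 / (D : ℝ))) ≤ |(q : ℝ) * zr (i + b) - p| := by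
    intro i
    rw [hI, Finset.mem_filter, Finset.mem_Icc]
  refine ⟨I, ?_, fun i hi => ?_⟩
  · by_contra hcon
    push Not at hcon
    have h5 : I ∈ (Finset.Icc 3 (2 * h)).powerset := by
      rw [Finset.mem_powerset, hI]
      exact Finset.filter_subset _ _
    have h6 := hf I hcon q ((Finset.le_sup (f := f) h5).trans hq)
    apply h6
    intro i ho h3 h4 hiI
    by_contra hno
    push Not at hno
    exact hiI ((hmem i).2 ⟨⟨h3, h4⟩, ho, hno⟩)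
  · obtain ⟨a, b, c⟩ := (hmem i).1 hi
    exact ⟨a.1, a.2, b, c⟩

end

end Run7.h795.UW
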