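import Pool.Agent.Run7.h795.UW.Stm2

/-!
# The perturbation of the moments, its size, and the determinants belonging to rational numbers
-/

set_option autoImplicit false

open Polynomial Pool.Agent.H337R2 Pool.Agent.W165.OZ Filter Topology

namespace Run7.h795.UW

noncomputable section

theorem t_pe : S_PE := by
  intro n h B b w z z' η hz k
  have e1 : mo n h B b w z k - mo n h B b w z' k =
      ∑ i ∈ Finset.Icc 1 (2 * h), ((rhoP n h (num n (X ^ k)) i : ℚ) : ℝ) *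
        ((bc b i : ℝ) * (WW B w (i + b) : ℝ)) * (z (i + b) - z' (i + b)) := by
    unfold mo La
    rw [← Finset.sum_sub_distrib]
    refine Finset.sum_congr rfl fun i _ => ?_
    simp only [eq_ratCast, Rat.cast_mul, Rat.cast_intCast, Rat.cast_natCast]
    ring
  rw [e1]
  refine (Finset.abs_sum_le_sum_abs _ _).trans ?_
  have e2 : ∀ i ∈ Finset.Icc 1 (2 * h), |((rhoP n h (num n (X ^ k)) i : ℚ) : ℝ) *
        ((bc b i : ℝ) * (WW B w (i + b) : ℝ)) * (z (i + b) - z' (i + b))| ≤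
        ((n : ℝ) ^ 2 * 2 ^ (2 * h) * ((8 : ℝ) ^ n / n.factorial) ^ (2 * h) *
          ((n : ℝ) ^ 2) ^ k) * η * |(bc b i : ℝ) * (WW B w (i + b) : ℝ)| := by
    intro i hi
    by_cases h0 : WW B w (i + b) = 0
    · rw [h0]; simp
    · have e3 := hz i hi h0
      have e4 : |((rhoP n h (num n (X ^ k)) i : ℚ) : ℝ)| ≤
          (n : ℝ) ^ 2 * 2 ^ (2 * h) * ((8 : ℝ) ^ n / n.factorial) ^ (2 * h) * ((n : ℝ) ^ 2) ^ k := by
        have := (Rat.cast_le (K := ℝ)).2 (Pool.Agent.TH818.SA.rhoP_bound n h k i)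
        push_cast at this
        exact this
      rw [abs_mul, abs_mul]
      calc |((rhoP n h (num n (X ^ k)) i : ℚ) : ℝ)| * |(bc b i : ℝ) * (WW B w (i + b) : ℝ)| *
            |z (i + b) - z' (i + b)|
          ≤ ((n : ℝ) ^ 2 * 2 ^ (2 * h) * ((8 : ℝ) ^ n / n.factorial) ^ (2 * h) *
            ((n : ℝ) ^ 2) ^ k) * |(bc b i : ℝ) * (WW B w (i + b) : ℝ)| * η := by gcongr
        _ = _ := by ring
  refine (Finset.sum_le_sum e2).trans ?_
  rw [← Finset.mul_sum]
  unfold Ep Cw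
  apply le_of_eq
  ring

theorem t_p2 : S_P2 := by
  intro n h B b w z q hq hqz hbe hn hne hh hB hBn r hr h0
  have hint : ∀ i, IsIntegral ℤ ((q : ℚ) * z i) := by
    intro i
    obtain ⟨a, ha⟩ := hqz i
    rw [ha]
    have : ((a : ℤ) : ℚ) = algebraMap ℤ ℚ a := by simp
    rw [this]
    exact isIntegral_algebraMap
  have h1 := t_pk t_se t_sf ℚ n h B b w z q hq hint hbe hn hne hh hB hBn r hr h0
  rw [Algebra.norm_self, MonoidHom.id_apply, abs_mul] at h1
  have h2 : |algebraMap ℚ ℚ (((q : ℚ) * (Dl n B : ℚ) ^ b) ^ r * (∏ i ∈ Finset.range r, sc n h B i ^ 2) *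
      (PPn n (hb h b) B : ℚ))| = ((q : ℚ) * (Dl n B : ℚ) ^ b) ^ r * (∏ i ∈ Finset.range r, sc n h B i ^ 2) *
      (PPn n (hb h b) B : ℚ) := by
    have h3 : (0 : ℚ) ≤ ∏ i ∈ Finset.range r, sc n h B i ^ 2 := Finset.prod_nonneg fun i _ => sq_nonneg _
    rw [Algebra.algebraMap_self_apply, abs_of_nonneg]
    positivity
  rw [h2] at h1
  linarith

theorem t_es2 : S_ES := by
  intro N κ b D hN hD hDN Cc c0 V hCc hc0 hV
  have hbr : (0 : ℝ) < (b : ℝ) + 1 := by positivity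
  have hNr : (1 : ℝ) ≤ N := by exact_mod_cast hN
  have hDr : (1 : ℝ) ≤ D := by exact_mod_cast hD
  have e1 : ((((b + 1) * κ : ℕ) : ℝ)) / (32 * D * ((N * (b + 1) : ℕ) : ℝ)) = (κ : ℝ) / (32 * D * N) := by
    push_cast
    field_simp
  obtain ⟨ν0, h0⟩ := Pool.Agent.TH818.SA.t_es (N * (b + 1)) ((b + 1) * κ) D (Nat.mul_pos (by omega) (by omega))
    hD (by
      calc 64 * D * (N * (b + 1)) = (b + 1) * (64 * D * N) := by ring
        _ ≤ (b + 1) * κ := Nat.mul_le_mul_left _ hDN) Cc c0 V hCc hc0 (by rw [e1]; exact hV)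
  refine ⟨ν0, fun ν hν n hn η hη hlη => ?_⟩
  have h1 := h0 ν hν n ((b + 1) * κ * ν) (2 * D * ((b + 1) * κ) * ν) hn rfl rfl η hη hlη
  have e2 : MM (N * (b + 1)) ((b + 1) * κ * ν) = MM N (κ * ν) := by
    unfold MM
    congr 1
    push_cast
    field_simp
  have e3 : 4 * (2 * D * ((b + 1) * κ) * ν) = 2 * ((b + 1) * κ * n) := by
    rw [hn]; ring
  rw [e2, e3] at h1
  exact h1

end

end Run7.h795.UW
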