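import Pool.Agent.Run7.h795.UW.C2
import Pool.Agent.Run7.h795.UW.PE
import Pool.Agent.Run7.h795.UW.M2

/-!
# Odd zeta values in windows: simultaneous approximation, finite-dimensional rational subspaces
-/

set_option autoImplicit false

open Polynomial Pool.Agent.H337R2 Filter Topology

namespace Run7.h795.UW

/-- **Simultaneous approximation in windows.** -/
theorem w_sim (hM : S_M2) (hF : S_F2) : ∃ K0 : ℕ, ∀ K ≥ K0, ∀ s : ℕ, Odd s → ∀ D : ℕ, 1 ≤ D →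
    (D : ℝ) ≤ (1 / 10000) * Real.log (Real.log K) → ∃ q0 : ℕ, ∀ q : ℕ, q0 ≤ q →
    (1 / 10000) / D * Real.sqrt (K * Real.log (Real.log K) / Real.log K) ≤
      (Set.ncard {j : ℕ | s < j ∧ j ≤ K * s ∧ Odd j ∧ ∀ p : ℤ,
        (q : ℝ) ^ (-(1 / (D : ℝ))) ≤ |(q : ℝ) * (∑' n : ℕ, 1 / ((n : ℝ) + 1) ^ j) - p|} : ℝ) := by
  obtain ⟨s0, h0⟩ := Pool.Agent.TH818.SA.t_final
  obtain ⟨s1, hs⟩ := hF
  obtain ⟨K1, hK1⟩ := shift_bound
  refine ⟨max s0 (max (s1 + 1) K1), fun K hK s hs1 D hD hDL => ?_⟩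
  have hKs0 : s0 ≤ K := (le_max_left _ _).trans hK
  have hKs1 : s1 + 1 ≤ K := ((le_max_left _ _).trans (le_max_right _ _)).trans hK
  have hKK1 : K1 ≤ K := ((le_max_right _ _).trans (le_max_right _ _)).trans hK
  obtain ⟨k1, k2, k3, k4⟩ := hK1 K hKK1
  have hDR : (1 : ℝ) ≤ D := by exact_mod_cast hD
  have hll0 : 0 < Real.log (Real.log (K : ℝ)) := by linarith
  have hfin : ∀ q : ℕ, {j : ℕ | s < j ∧ j ≤ K * s ∧ Odd j ∧ ∀ p : ℤ,
        (q : ℝ) ^ (-(1 / (D : ℝ))) ≤ |(q : ℝ) * (∑' n : ℕ, 1 / ((n : ℝ) + 1) ^ j) - p|}.Finite := fun q =>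
    (Set.finite_Iic (K * s)).subset fun i hi => hi.2.1
  rcases Nat.lt_or_ge s 3 with h3 | h3
  · -- `s = 1`
    have hs1' : s = 1 := by
      obtain ⟨t, ht⟩ := hs1
      omega
    subst hs1'
    obtain ⟨q0, hq0⟩ := h0 K hKs0 D hD (hDL.trans (mul_le_mul_of_nonneg_right (by norm_num) hll0.le))
    refine ⟨q0, fun q hq => ?_⟩
    have h4 := hq0 q hq
    refine le_trans (mul_le_mul_of_nonneg_right (div_le_div_of_nonneg_right (by norm_num) (by linarith))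
      (Real.sqrt_nonneg _)) (h4.trans ?_)
    have h5 : {i : ℕ | 3 ≤ i ∧ i ≤ K ∧ Odd i ∧ ∀ p : ℤ,
        (q : ℝ) ^ (-(1 / (D : ℝ))) ≤ |(q : ℝ) * (∑' n : ℕ, 1 / ((n : ℝ) + 1) ^ i) - p|} ⊆
        {j : ℕ | 1 < j ∧ j ≤ K * 1 ∧ Odd j ∧ ∀ p : ℤ,
        (q : ℝ) ^ (-(1 / (D : ℝ))) ≤ |(q : ℝ) * (∑' n : ℕ, 1 / ((n : ℝ) + 1) ^ j) - p|} := by
      rintro i ⟨g1, g2, g3, g4⟩
      exact ⟨by omega, by omega, g3, g4⟩
    exact_mod_cast Set.ncard_le_ncard h5 (hfin q)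
  · obtain ⟨b, hb⟩ : ∃ b, s = b + 1 := ⟨s - 1, by omega⟩
    have hbe : Even b := by
      obtain ⟨t, ht⟩ := hs1
      exact ⟨t, by omega⟩
    have hD' : (D : ℝ) ≤ (1 / 5000) * Real.log (Real.log ((K - 1 : ℕ) : ℝ)) := by
      linarith
    obtain ⟨κ, B, h1, h2, h3', h4, h5⟩ := hs (K - 1) (by omega) D hD hD'
    obtain ⟨q0, hq0⟩ := hM κ B b D hD h2 hbe (by omega) h3' h5
    refine ⟨q0, fun q hq => ?_⟩
    obtain ⟨I, hI, hI2⟩ := hq0 q hq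
    have h6 : (1 / 10000) / D * Real.sqrt (K * Real.log (Real.log K) / Real.log K) ≤
        (1 / 5000) / D * Real.sqrt (((K - 1 : ℕ) : ℝ) * Real.log (Real.log ((K - 1 : ℕ) : ℝ)) /
          Real.log ((K - 1 : ℕ) : ℝ)) := by
      have e1 : (K : ℝ) * Real.log (Real.log K) / Real.log K ≤
          2 ^ 2 * (((K - 1 : ℕ) : ℝ) * Real.log (Real.log ((K - 1 : ℕ) : ℝ)) /
            Real.log ((K - 1 : ℕ) : ℝ)) := by
        linarith
      calc (1 / 10000) / D * Real.sqrt (K * Real.log (Real.log K) / Real.log K)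
          ≤ (1 / 10000) / D * (2 * Real.sqrt (((K - 1 : ℕ) : ℝ) * Real.log (Real.log ((K - 1 : ℕ) : ℝ)) /
          Real.log ((K - 1 : ℕ) : ℝ))) := by
            apply mul_le_mul_of_nonneg_left _ (by positivity)
            refine (Real.sqrt_le_sqrt e1).trans (le_of_eq ?_)
            rw [Real.sqrt_mul (by norm_num), Real.sqrt_sq (by norm_num)]
        _ = _ := by ring
    refine h6.trans (h4.trans ?_)
    have hsub : ((I.image (· + b) : Finset ℕ) : Set ℕ) ⊆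
        {j : ℕ | s < j ∧ j ≤ K * s ∧ Odd j ∧ ∀ p : ℤ,
        (q : ℝ) ^ (-(1 / (D : ℝ))) ≤ |(q : ℝ) * (∑' n : ℕ, 1 / ((n : ℝ) + 1) ^ j) - p|} := by
      intro j hj
      rw [Finset.mem_coe, Finset.mem_image] at hj
      obtain ⟨i, hi, rfl⟩ := hj
      obtain ⟨a1, a2, a3, a4⟩ := hI2 i hi
      refine ⟨by omega, ?_, a3.add_even hbe, a4⟩
      have e1 : 2 * ((b + 1) * κ) ≤ (b + 1) * (K - 1) := by
        calc 2 * ((b + 1) * κ) = (b + 1) * (2 * κ) := by ring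
          _ ≤ (b + 1) * (K - 1) := Nat.mul_le_mul_left _ h1
      have e2 : K * s = (b + 1) * (K - 1) + (b + 1) := by
        obtain ⟨m, rfl⟩ : ∃ m, K = m + 1 := ⟨K - 1, by omega⟩
        rw [hb, Nat.add_sub_cancel]; ring
      rw [e2]
      omega
    have h7 := Set.ncard_le_ncard hsub (hfin q)
    rw [Set.ncard_coe_finset, Finset.card_image_of_injective _ (add_left_injective b)] at h7
    exact_mod_cast hI.trans h7

/-- **Odd zeta values in windows outside finite-dimensional subspaces.** -/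
theorem w_sub (hM : S_M2) (hF : S_F2) : ∃ K0 : ℕ, ∀ K ≥ K0, ∀ s : ℕ, Odd s → ∀ D : ℕ, 1 ≤ D →
    (D : ℝ) ≤ (1 / 20000) * Real.log (Real.log K) →
    ∀ V : Submodule ℚ ℝ, FiniteDimensional ℚ V → Module.finrank ℚ V ≤ D →
    (1 / 20000) / D * Real.sqrt (K * Real.log (Real.log K) / Real.log K) ≤
      (Set.ncard {j : ℕ | s < j ∧ j ≤ K * s ∧ Odd j ∧ (∑' n : ℕ, 1 / ((n : ℝ) + 1) ^ j) ∉ V} : ℝ) := by
  classical
  obtain ⟨K0, hK0⟩ := w_sim hM hF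
  refine ⟨K0, fun K hK s hs D hD hDL V hV hVD => ?_⟩
  have hDr : (1 : ℝ) ≤ D := by exact_mod_cast hD
  have h1 : ((D + 1 : ℕ) : ℝ) ≤ (1 / 10000) * Real.log (Real.log K) := by
    push_cast
    linarith
  obtain ⟨q0, hq0⟩ := hK0 K hK s hs (D + 1) (by omega) h1
  obtain ⟨J, hJ⟩ : ∃ J : Finset ℕ, J = (Finset.Icc 1 (K * s)).filter (fun i => Odd i ∧
    (∑' n : ℕ, 1 / ((n : ℝ) + 1) ^ i) ∈ V) := ⟨_, rfl⟩
  obtain ⟨q, hqq0, hq⟩ := Pool.Agent.TH818.SA.sim_sub V D hVD J (fun i => ∑' n : ℕ, 1 / ((n : ℝ) + 1) ^ i)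
    (fun i hi => by
      rw [hJ, Finset.mem_filter] at hi
      exact hi.2.2) q0
  have h2 := hq0 q hqq0
  have h3 : (1 / 20000) / D * Real.sqrt (K * Real.log (Real.log K) / Real.log K) ≤
      (1 / 10000) / ((D + 1 : ℕ) : ℝ) * Real.sqrt (K * Real.log (Real.log K) / Real.log K) := by
    apply mul_le_mul_of_nonneg_right _ (Real.sqrt_nonneg _)
    push_cast
    rw [div_le_div_iff₀ (by positivity) (by positivity)]
    linarith
  refine (h3.trans h2).trans ?_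
  have hfin : {j : ℕ | s < j ∧ j ≤ K * s ∧ Odd j ∧ (∑' n : ℕ, 1 / ((n : ℝ) + 1) ^ j) ∉ V}.Finite :=
    (Set.finite_Iic (K * s)).subset fun i hi => hi.2.1
  have hsub : {j : ℕ | s < j ∧ j ≤ K * s ∧ Odd j ∧ ∀ p : ℤ, (q : ℝ) ^ (-(1 / ((D + 1 : ℕ) : ℝ))) ≤
      |(q : ℝ) * (∑' n : ℕ, 1 / ((n : ℝ) + 1) ^ j) - p|} ⊆
      {j : ℕ | s < j ∧ j ≤ K * s ∧ Odd j ∧ (∑' n : ℕ, 1 / ((n : ℝ) + 1) ^ j) ∉ V} := by
    rintro i ⟨a1, a2, a3, a4⟩
    refine ⟨a1, a2, a3, fun hmem => ?_⟩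
    have hiJ : i ∈ J := by
      rw [hJ, Finset.mem_filter, Finset.mem_Icc]
      exact ⟨⟨by omega, a2⟩, a3, hmem⟩
    obtain ⟨p, hp⟩ := hq i hiJ
    have h4 := a4 p
    push_cast at h4
    linarith
  exact_mod_cast Set.ncard_le_ncard hsub hfin

end Run7.h795.UW
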