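import Pool.Agent.Run7.h795.UW.Stm
import Pool.Agent.W165.OZ.NU

/-!
# UW-NU: the numerical comparison behind the non-vanishing theorem
-/

open Real Pool.Agent.W165.OZ

namespace Run7.h795.UW

namespace NU

/-- the asymptotic comparison -/
theorem growth (A K : ℝ) : ∃ m0 : ℕ, ∀ m : ℕ, m0 ≤ m → A * log (m : ℝ) + K < m := by
  have hA : 0 < 1 / (2 * (|A| + 1)) := by positivity
  have h1 := (Real.isLittleO_log_id_atTop).def hA
  have h2 : ∀ᶠ x : ℝ in Filter.atTop, A * log x + K < x := by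
    filter_upwards [h1, Filter.eventually_gt_atTop (2 * |K| + 1)] with x hx hK
    have hx0 : 0 < x := by have := abs_nonneg K; linarith
    simp only [id, Real.norm_eq_abs, abs_of_pos hx0] at hx
    have h3 : A * log x ≤ |A| * |log x| := by
      rw [← abs_mul]; exact le_abs_self _
    have h4 : |A| * |log x| ≤ x / 2 := by
      have h5 : (|A| + 1) * |log x| ≤ (|A| + 1) * (1 / (2 * (|A| + 1)) * x) :=
        mul_le_mul_of_nonneg_left hx (by positivity)
      have h6 : (|A| + 1) * (1 / (2 * (|A| + 1)) * x) = x / 2 := by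
        field_simp
      have h7 : |A| * |log x| ≤ (|A| + 1) * |log x| :=
        mul_le_mul_of_nonneg_right (by linarith) (abs_nonneg _)
      linarith
    have := le_abs_self K
    have := abs_nonneg K
    linarith
  have h3 := tendsto_natCast_atTop_atTop (R := ℝ) |>.eventually h2
  obtain ⟨m0, hm0⟩ := Filter.eventually_atTop.1 h3
  exact ⟨m0, fun m hm => hm0 m hm⟩

/-- the loss is polynomial -/
theorem log_PW (b κ : ℕ) (δ : ℝ) (hδ : 0 < δ) : ∃ K : ℝ, ∀ n M : ℕ, 2 * M = κ * n → 1 ≤ M →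
    log (PW n ((b + 1) * κ) b δ) ≤ 2 * b * log (M : ℝ) + K := by
  refine ⟨log ((b : ℝ) + 1) + b * log (2 * (9 * (b + 1) / δ)) + b * log (9 * ((b : ℝ) + 1)), ?_⟩
  intro n M hM hM1
  have hMR : (1 : ℝ) ≤ M := by exact_mod_cast hM1
  have hM2 : 2 * (M : ℝ) = κ * n := by exact_mod_cast hM
  have he : 4 * (((b + 1) * κ : ℕ) : ℝ) * n + b + 1 = ((b : ℝ) + 1) * (8 * M + 1) := by
    push_cast
    have : 4 * (((b : ℝ) + 1) * κ) * n = 4 * ((b : ℝ) + 1) * (κ * n) := by ring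
    rw [this, ← hM2]; ring
  have hle : ((b : ℝ) + 1) * (8 * M + 1) ≤ (9 * (b + 1)) * M := by nlinarith
  have hpos : 0 < ((b : ℝ) + 1) * (8 * M + 1) := by positivity
  unfold PW
  rw [he]
  rw [Real.log_mul (by positivity) (by positivity), Real.log_mul (by positivity) (by positivity),
    Real.log_pow, Real.log_pow]
  have h1 : log (((b : ℝ) + 1) * (8 * M + 1)) ≤ log (9 * ((b : ℝ) + 1)) + log M := by
    rw [← Real.log_mul (by positivity) (by positivity)]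
    exact Real.log_le_log hpos hle
  have h2 : log (2 * (((b : ℝ) + 1) * (8 * M + 1) / δ)) ≤ log (2 * (9 * (b + 1) / δ)) + log M := by
    rw [← Real.log_mul (by positivity) (by positivity)]
    apply Real.log_le_log (by positivity)
    have : 2 * (9 * ((b : ℝ) + 1) / δ) * M = 2 * ((9 * (b + 1)) * M / δ) := by ring
    rw [this]
    gcongr
  have hb : (0 : ℝ) ≤ b := Nat.cast_nonneg b
  have h3 := mul_le_mul_of_nonneg_left h1 hb
  have h4 := mul_le_mul_of_nonneg_left h2 hb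
  linarith

/-- the main comparison, without the factors of polynomial size -/
theorem core (N : ℕ) (δ : ℝ) (hN : 1 ≤ N) (κ : ℕ) (hκ : 32 * N ≤ κ) :
    ∃ (K : ℝ) (n0 : ℕ), ∀ n ≥ n0, ∀ m r0 : ℕ, 2 * m = κ * n → r0 = (m + 7) / 8 →
    n ≤ m ∧ 1 ≤ r0 ∧ r0 ≤ m ∧ 0 < MM N m ∧
    - (2 * ((m : ℝ) - r0) * log (MM N m)) + 4 * m * log (2 + (r0 : ℝ) / N + n) -
      (6 * N * log δ + (2 * log ((m - 1).factorial : ℝ) - ((m : ℝ) - 1) * log (6 * (N : ℝ) ^ 2))) -
      (6 * N * log δ + (2 * log ((r0 - 1).factorial : ℝ) - ((r0 : ℝ) - 1) * log (6 * (N : ℝ) ^ 2))) ≤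
      4 * log m + K - m := by
  have hN' : (1 : ℝ) ≤ N := by exact_mod_cast hN
  have hNpos : (0 : ℝ) < N := by linarith
  refine ⟨- 12 * N * log δ + 7 / 8 * (2 + 2 * log 8 + log 6), 240 * N + 8, ?_⟩
  intro n hn2 m r0 hm hr0
  have hmn : 16 * N * n ≤ m := by
    have : 32 * N * n ≤ κ * n := Nat.mul_le_mul_right n hκ
    have e : 2 * (16 * N * n) = 32 * N * n := by ring
    omega
  have hnm : n ≤ m := by
    have h1 : 1 * n ≤ 16 * N * n := Nat.mul_le_mul_right n (by omega)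
    omega
  have hmN : 240 * N + 8 ≤ m := by omega
  have hm1 : 1 ≤ m := by omega
  have hr1 : 1 ≤ r0 := by omega
  have hrm : r0 ≤ m := by omega
  have hr8 : m ≤ 8 * r0 := by omega
  have hr8' : 8 * r0 ≤ m + 7 := by omega
  have hmR : (240 * N + 8 : ℝ) ≤ m := by exact_mod_cast hmN
  have hmpos : (0 : ℝ) < m := by linarith
  have hrpos : (0 : ℝ) < r0 := by exact_mod_cast hr1
  have hr8R : (m : ℝ) ≤ 8 * r0 := by exact_mod_cast hr8
  have hr8R' : (8 : ℝ) * r0 ≤ m + 7 := by exact_mod_cast hr8'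
  have hrmR : (r0 : ℝ) ≤ m := by exact_mod_cast hrm
  have hnR : 16 * (N : ℝ) * n ≤ m := by exact_mod_cast hmn
  -- the maximum
  have hMM : MM N m = (m : ℝ) / N := by
    unfold MM
    apply max_eq_right
    rw [le_div_iff₀ hNpos]
    linarith
  -- the big base
  have hbase : 2 + (r0 : ℝ) / N + n ≤ (m : ℝ) / (5 * N) := by
    have e1 : (r0 : ℝ) / N ≤ (m + 7) / 8 / N := by
      apply div_le_div_of_nonneg_right _ hNpos.le
      linarith
    have e2 : (n : ℝ) ≤ m / (16 * N) := by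
      rw [le_div_iff₀ (by positivity)]; linarith
    have e3 : (m + 7 : ℝ) / 8 / N = m / (8 * N) + 7 / (8 * N) := by
      field_simp
    have e4 : (7 : ℝ) / (8 * N) ≤ 1 := by
      rw [div_le_one (by positivity)]; linarith
    have e5 : (m : ℝ) / (5 * N) = m / (8 * N) + m / (16 * N) + m / (80 * N) := by
      field_simp; ring
    have e6 : (3 : ℝ) ≤ m / (80 * N) := by
      rw [le_div_iff₀ (by positivity)]; linarith
    linarith
  have hbpos : 0 < 2 + (r0 : ℝ) / N + n := by positivity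
  have hMMpos : 0 < MM N m := by rw [hMM]; positivity
  refine ⟨hnm, hr1, hrm, hMMpos, ?_⟩
  rw [hMM]
  -- bounds
  have hlogm : 0 ≤ log (m : ℝ) := Real.log_nonneg (by linarith)
  have hlogr : log (r0 : ℝ) ≤ log m := Real.log_le_log hrpos hrmR
  have hlogr' : log (m : ℝ) ≤ log 8 + log r0 := by
    rw [← Real.log_mul (by norm_num) hrpos.ne']
    exact Real.log_le_log hmpos hr8R
  have hlogN : 0 ≤ log (N : ℝ) := Real.log_nonneg hN'
  have hlog6N : log (6 * (N : ℝ) ^ 2) = log 6 + 2 * log N := by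
    rw [Real.log_mul (by norm_num) (by positivity), Real.log_pow]; norm_num
  have hlog6 : 0 ≤ log (6 : ℝ) := Real.log_nonneg (by norm_num)
  have hlog8 : 0 ≤ log (8 : ℝ) := Real.log_nonneg (by norm_num)
  have hb : log (2 + (r0 : ℝ) / N + n) ≤ log m - (log 5 + log N) := by
    have := Real.log_le_log hbpos hbase
    rwa [Real.log_div hmpos.ne' (by positivity), Real.log_mul (by norm_num) hNpos.ne'] at this
  have hmNlog : log ((m : ℝ) / N) = log m - log N := Real.log_div hmpos.ne' hNpos.ne'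
  have hfm' := Pool.Agent.W165.OZ.NU.log_fact_pred m hm1
  have hfr' := Pool.Agent.W165.OZ.NU.log_fact_pred r0 hr1
  rw [hlog6N, hmNlog]
  have p1 : 4 * (m : ℝ) * log (2 + (r0 : ℝ) / N + n) ≤ 4 * m * (log m - (log 5 + log N)) :=
    mul_le_mul_of_nonneg_left hb (by positivity)
  have p2 : (r0 : ℝ) * log m ≤ r0 * (log 8 + log r0) :=
    mul_le_mul_of_nonneg_left hlogr' hrpos.le
  have p3 : (r0 : ℝ) * (2 + 2 * log 8 + log 6) ≤ (m / 8 + 7 / 8) * (2 + 2 * log 8 + log 6) :=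
    mul_le_mul_of_nonneg_right (by linarith) (by positivity)
  have hl8 : log (8 : ℝ) = 3 * log 2 := by
    rw [show (8 : ℝ) = 2 ^ 3 by norm_num, Real.log_pow]; norm_num
  have hl6 : log (6 : ℝ) = log 2 + log 3 := by
    rw [show (6 : ℝ) = 2 * 3 by norm_num, Real.log_mul (by norm_num) (by norm_num)]
  have hcb := Pool.Agent.W165.OZ.NU.const_bound
  have p4 : (m : ℝ) * (26 + 15 * log 2 + 9 * log 3) ≤ m * (32 * log 5) :=
    mul_le_mul_of_nonneg_left hcb hmpos.le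
  rw [hl8, hl6] at p3
  rw [hl8] at p2
  rw [hl6] at hlog6
  rw [hl8, hl6]
  push_cast
  linarith [p1, p2, p3, p4, hfm', hfr', hlogr, hlogN, hlog6]

end NU

open NU in
theorem t_nu : S_NU := by
  intro N δ c1 c2 hN hδ hδ1 hc1 hc2 κ b hκ
  have hN' : (1 : ℝ) ≤ N := by exact_mod_cast hN
  have hNpos : (0 : ℝ) < N := by linarith
  obtain ⟨K, n0, hcore⟩ := core N δ hN κ hκ
  obtain ⟨K1, hPW⟩ := log_PW b κ δ hδ
  obtain ⟨m0, hm0⟩ := growth (2 * b + 1 + 4 * (b + 1))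
    (K1 + log (4 * (N : ℝ) ^ 2 * c2) - log c1 + (b + 1) * |K|)
  refine ⟨max n0 m0, ?_⟩
  intro n hn M M0 hM hM0
  obtain ⟨hnm, hr1, hrm, hMMpos, hc⟩ := hcore n (le_trans (le_max_left _ _) hn) M M0 hM hM0
  have hmm : m0 ≤ M := le_trans (le_trans (le_max_right _ _) hn) hnm
  have hfinal := hm0 M hmm
  have hM1 : 1 ≤ M := le_trans hr1 hrm
  have hMR : (1 : ℝ) ≤ M := by exact_mod_cast hM1
  have hmpos : (0 : ℝ) < M := by linarith
  have hrpos : (0 : ℝ) < M0 := by exact_mod_cast hr1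
  have hrmR : (M0 : ℝ) ≤ M := by exact_mod_cast hrm
  have hlogm : 0 ≤ log (M : ℝ) := Real.log_nonneg hMR
  have hlogr : log (M0 : ℝ) ≤ log M := Real.log_le_log hrpos hrmR
  have hp := hPW n M hM hM1
  have hbpos : 0 < 2 + (M0 : ℝ) / N + n := by positivity
  have hfm : (0 : ℝ) < ((M - 1).factorial : ℝ) := by exact_mod_cast Nat.factorial_pos _
  have hfr : (0 : ℝ) < ((M0 - 1).factorial : ℝ) := by exact_mod_cast Nat.factorial_pos _
  have hPWpos : 0 < PW n ((b + 1) * κ) b δ := by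
    unfold PW
    positivity
  have hX1 : (0 : ℝ) < 4 * (N : ℝ) ^ 2 * c2 := by positivity
  have hX2 : (0 : ℝ) < (MM N M ^ (2 * ((b + 1) * (M - M0))))⁻¹ := by positivity
  have hX3 : (0 : ℝ) < (2 + (M0 : ℝ) / N + n) ^ (2 * ((b + 1) * κ) * n) := by positivity
  have hD : (0 : ℝ) < δ ^ (6 * N) := by positivity
  have hF1 : (0 : ℝ) < ((M - 1).factorial : ℝ) ^ 2 := by positivity
  have hF2 : (0 : ℝ) < ((M0 - 1).factorial : ℝ) ^ 2 := by positivity
  have hG1 : (0 : ℝ) < (6 * (N : ℝ) ^ 2) ^ (M - 1) := by positivity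
  have hG2 : (0 : ℝ) < (6 * (N : ℝ) ^ 2) ^ (M0 - 1) := by positivity
  have hX : 0 < 4 * (N : ℝ) ^ 2 * c2 * (MM N M ^ (2 * ((b + 1) * (M - M0))))⁻¹ *
      (2 + (M0 : ℝ) / N + n) ^ (2 * ((b + 1) * κ) * n) := by positivity
  have hY0 : 0 < (δ ^ (6 * N) * (((M - 1).factorial : ℝ) ^ 2 / (6 * (N : ℝ) ^ 2) ^ (M - 1))) := by
    positivity
  have hY1 : 0 < c1 * (δ ^ (6 * N) * (((M - 1).factorial : ℝ) ^ 2 / (6 * (N : ℝ) ^ 2) ^ (M - 1))) ^ (b + 1) := by
    positivity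
  have hY2 : 0 < δ ^ (6 * N) * (((M0 - 1).factorial : ℝ) ^ 2 / (6 * (N : ℝ) ^ 2) ^ (M0 - 1)) := by
    positivity
  have hY3 : 0 < (δ ^ (6 * N) * (((M0 - 1).factorial : ℝ) ^ 2 / (6 * (N : ℝ) ^ 2) ^ (M0 - 1))) ^ (b + 1) := by
    positivity
  have h4m : 2 * ((b + 1) * κ) * n = (b + 1) * (4 * M) := by
    have : 2 * ((b + 1) * κ) * n = (b + 1) * (2 * (κ * n)) := by ring
    rw [this, ← hM]; ring
  rw [← Real.log_neg_iff (mul_pos hPWpos (mul_pos hrpos (div_pos hX (mul_pos hY1 hY3))))]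
  rw [Real.log_mul hPWpos.ne' (mul_pos hrpos (div_pos hX (mul_pos hY1 hY3))).ne',
    Real.log_mul hrpos.ne' (div_pos hX (mul_pos hY1 hY3)).ne',
    Real.log_div hX.ne' (mul_pos hY1 hY3).ne', Real.log_mul hY1.ne' hY3.ne',
    Real.log_mul (mul_pos hX1 hX2).ne' hX3.ne', Real.log_mul hX1.ne' hX2.ne',
    Real.log_mul hc1.ne' (pow_pos hY0 _).ne', Real.log_pow _ (b + 1), Real.log_pow _ (b + 1),
    Real.log_mul hD.ne' (div_pos hF1 hG1).ne', Real.log_mul hD.ne' (div_pos hF2 hG2).ne',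
    Real.log_div hF1.ne' hG1.ne', Real.log_div hF2.ne' hG2.ne', Real.log_inv,
    Real.log_pow, Real.log_pow, Real.log_pow, Real.log_pow, Real.log_pow, Real.log_pow, Real.log_pow,
    h4m]
  have hc_mr : ((2 * ((b + 1) * (M - M0)) : ℕ) : ℝ) = (b + 1) * (2 * ((M : ℝ) - M0)) := by
    push_cast [Nat.cast_sub hrm]; ring
  have hc_m1 : ((M - 1 : ℕ) : ℝ) = (M : ℝ) - 1 := by
    push_cast [Nat.cast_sub hM1]; ring
  have hc_r1 : ((M0 - 1 : ℕ) : ℝ) = (M0 : ℝ) - 1 := by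
    push_cast [Nat.cast_sub hr1]; ring
  have hc_4m : (((b + 1) * (4 * M) : ℕ) : ℝ) = (b + 1) * (4 * (M : ℝ)) := by push_cast; ring
  have hc_6N : ((6 * N : ℕ) : ℝ) = 6 * (N : ℝ) := by push_cast; ring
  have hc_b1 : ((b + 1 : ℕ) : ℝ) = (b : ℝ) + 1 := by push_cast; ring
  rw [hc_mr, hc_m1, hc_r1, hc_4m, hc_6N, hc_b1]
  have hb : (0 : ℝ) ≤ b := Nat.cast_nonneg b
  have q1 := mul_le_mul_of_nonneg_left hc (show (0 : ℝ) ≤ (b : ℝ) + 1 by positivity)
  have q2 : ((b : ℝ) + 1) * K ≤ (b + 1) * |K| := mul_le_mul_of_nonneg_left (le_abs_self K) (by positivity)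
  have q3 : (M : ℝ) ≤ (b + 1) * M := by nlinarith
  push_cast at *
  linarith [q1, q2, q3, hp, hfinal, hlogr]

end Run7.h795.UW
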