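import Pool.Agent.Run7.h795.UW.Stm2
import Pool.Agent.Run7.h795.UW.NU

/-!
# UW-N2: the numerical comparison behind the non-vanishing theorem, for `n = 4 D ν` (helper788)
-/

open Real Pool.Agent.W165.OZ

namespace Run7.h795.UW

namespace NU

/-- the main comparison, without the factors of polynomial size -/
theorem core2 (N : ℕ) (δ : ℝ) (hN : 1 ≤ N) :
    ∃ (K : ℝ), ∀ n m M' r0 : ℕ, 240 * N + 8 ≤ m → 16 * N * n ≤ m → m ≤ M' → r0 = (m + 7) / 8 →
    1 ≤ r0 ∧ r0 ≤ m ∧ 0 < MM N m ∧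
    - (2 * (2 * (M' : ℝ) - m - r0) * log (MM N m)) + 4 * M' * log (2 + (r0 : ℝ) / N + n) -
      (6 * N * log δ + (2 * log ((m - 1).factorial : ℝ) - ((m : ℝ) - 1) * log (6 * (N : ℝ) ^ 2))) -
      (6 * N * log δ + (2 * log ((r0 - 1).factorial : ℝ) - ((r0 : ℝ) - 1) * log (6 * (N : ℝ) ^ 2))) ≤
      4 * log m + K - m := by
  have hN' : (1 : ℝ) ≤ N := by exact_mod_cast hN
  have hNpos : (0 : ℝ) < N := by linarith
  refine ⟨- 12 * N * log δ + 7 / 8 * (2 + 2 * log 8 + log 6), ?_⟩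
  intro n m M' r0 hmN hmn hmM hr0
  have hm1 : 1 ≤ m := by omega
  have hr1 : 1 ≤ r0 := by omega
  have hrm : r0 ≤ m := by omega
  have hr8 : m ≤ 8 * r0 := by omega
  have hr8' : 8 * r0 ≤ m + 7 := by omega
  have hmR : (240 * N + 8 : ℝ) ≤ m := by exact_mod_cast hmN
  have hmpos : (0 : ℝ) < m := by linarith
  have hrpos : (0 : ℝ) < r0 := by exact_mod_cast hr1
  have hr8R : (m : ℝ) ≤ 8 * r0 := by exact_mod_cast hr8
  have hr8R' : (8 : ℝ) * r0 ≤ m + 7 := by exact_mod_cast hr8'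
  have hrmR : (r0 : ℝ) ≤ m := by exact_mod_cast hrm
  have hnR : 16 * (N : ℝ) * n ≤ m := by exact_mod_cast hmn
  have hmMR : (m : ℝ) ≤ M' := by exact_mod_cast hmM
  -- the maximum
  have hMM : MM N m = (m : ℝ) / N := by
    unfold MM
    apply max_eq_right
    rw [le_div_iff₀ hNpos]
    linarith
  -- the big base
  have hbase : 2 + (r0 : ℝ) / N + n ≤ (m : ℝ) / (5 * N) := by
    have e1 : (r0 : ℝ) / N ≤ (m + 7) / 8 / N := by
      apply div_le_div_of_nonneg_right _ hNpos.le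
      linarith
    have e2 : (n : ℝ) ≤ m / (16 * N) := by
      rw [le_div_iff₀ (by positivity)]; linarith
    have e3 : (m + 7 : ℝ) / 8 / N = m / (8 * N) + 7 / (8 * N) := by
      field_simp
    have e4 : (7 : ℝ) / (8 * N) ≤ 1 := by
      rw [div_le_one (by positivity)]; linarith
    have e5 : (m : ℝ) / (5 * N) = m / (8 * N) + m / (16 * N) + m / (80 * N) := by
      field_simp; ring
    have e6 : (3 : ℝ) ≤ m / (80 * N) := by
      rw [le_div_iff₀ (by positivity)]; linarith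
    linarith
  have hbpos : 0 < 2 + (r0 : ℝ) / N + n := by positivity
  have hMMpos : 0 < MM N m := by rw [hMM]; positivity
  refine ⟨hr1, hrm, hMMpos, ?_⟩
  rw [hMM]
  -- bounds
  have hlogm : 0 ≤ log (m : ℝ) := Real.log_nonneg (by linarith)
  have hlogr : log (r0 : ℝ) ≤ log m := Real.log_le_log hrpos hrmR
  have hlogr' : log (m : ℝ) ≤ log 8 + log r0 := by
    rw [← Real.log_mul (by norm_num) hrpos.ne']
    exact Real.log_le_log hmpos hr8R
  have hlogN : 0 ≤ log (N : ℝ) := Real.log_nonneg hN'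
  have hlog6N : log (6 * (N : ℝ) ^ 2) = log 6 + 2 * log N := by
    rw [Real.log_mul (by norm_num) (by positivity), Real.log_pow]; norm_num
  have hlog6 : 0 ≤ log (6 : ℝ) := Real.log_nonneg (by norm_num)
  have hlog8 : 0 ≤ log (8 : ℝ) := Real.log_nonneg (by norm_num)
  have hlog5 : 0 ≤ log (5 : ℝ) := Real.log_nonneg (by norm_num)
  have hb : log (2 + (r0 : ℝ) / N + n) ≤ log m - (log 5 + log N) := by
    have := Real.log_le_log hbpos hbase
    rwa [Real.log_div hmpos.ne' (by positivity), Real.log_mul (by norm_num) hNpos.ne'] at this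
  have hmNlog : log ((m : ℝ) / N) = log m - log N := Real.log_div hmpos.ne' hNpos.ne'
  have hfm' := Pool.Agent.W165.OZ.NU.log_fact_pred m hm1
  have hfr' := Pool.Agent.W165.OZ.NU.log_fact_pred r0 hr1
  rw [hlog6N, hmNlog]
  have hM0 : (0 : ℝ) ≤ M' := Nat.cast_nonneg _
  have p1 : 4 * (M' : ℝ) * log (2 + (r0 : ℝ) / N + n) ≤ 4 * M' * (log m - (log 5 + log N)) :=
    mul_le_mul_of_nonneg_left hb (by positivity)
  have p2 : (r0 : ℝ) * log m ≤ r0 * (log 8 + log r0) :=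
    mul_le_mul_of_nonneg_left hlogr' hrpos.le
  have p3 : (r0 : ℝ) * (2 + 2 * log 8 + log 6) ≤ (m / 8 + 7 / 8) * (2 + 2 * log 8 + log 6) :=
    mul_le_mul_of_nonneg_right (by linarith) (by positivity)
  have hl8 : log (8 : ℝ) = 3 * log 2 := by
    rw [show (8 : ℝ) = 2 ^ 3 by norm_num, Real.log_pow]; norm_num
  have hl6 : log (6 : ℝ) = log 2 + log 3 := by
    rw [show (6 : ℝ) = 2 * 3 by norm_num, Real.log_mul (by norm_num) (by norm_num)]
  have hcb := Pool.Agent.W165.OZ.NU.const_bound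
  have p4 : (m : ℝ) * (26 + 15 * log 2 + 9 * log 3) ≤ m * (32 * log 5) :=
    mul_le_mul_of_nonneg_left hcb hmpos.le
  have p5 : (m : ℝ) * log 5 ≤ M' * log 5 := mul_le_mul_of_nonneg_right hmMR hlog5
  rw [hl8, hl6] at p3
  rw [hl8] at p2
  rw [hl6] at hlog6
  rw [hl8, hl6]
  push_cast
  linarith [p1, p2, p3, p4, p5, hfm', hfr', hlogr, hlogN, hlog6]

end NU

open NU in
theorem t_n2 : S_N2 := by
  intro N δ c1 c2 hN hδ hδ1 hc1 hc2 κ b D hD1 hκ
  have hN' : (1 : ℝ) ≤ N := by exact_mod_cast hN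
  have hNpos : (0 : ℝ) < N := by linarith
  have hDpos : (0 : ℝ) < D := by exact_mod_cast hD1
  obtain ⟨K, hcore⟩ := core2 N δ hN
  obtain ⟨K1, hPW⟩ := log_PW b κ δ hδ
  obtain ⟨m0, hm0⟩ := growth (2 * b + 1 + 4 * (b + 1))
    (2 * b * log (2 * (D : ℝ)) + K1 + log (4 * (N : ℝ) ^ 2 * c2) - log c1 + (b + 1) * |K|)
  refine ⟨max m0 (240 * N + 8), ?_⟩
  intro ν hν n M M0 hn hM hM0
  have hκ1 : 1 ≤ κ := by
    have : 1 ≤ 64 * D * N := by
      have := Nat.mul_pos (Nat.mul_pos (show 0 < 64 by norm_num) hD1) hN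
      omega
    omega
  have hνM : ν ≤ M := by
    rw [hM]; exact Nat.le_mul_of_pos_left ν hκ1
  have hmN : 240 * N + 8 ≤ M := le_trans (le_trans (le_max_right _ _) hν) hνM
  have hmm : m0 ≤ M := le_trans (le_trans (le_max_left _ _) hν) hνM
  have hmn : 16 * N * n ≤ M := by
    rw [hM, hn]
    have : 64 * D * N * ν ≤ κ * ν := Nat.mul_le_mul_right ν hκ
    have e : 16 * N * (4 * D * ν) = 64 * D * N * ν := by ring
    omega
  have hκn : κ * n = 2 * (2 * D * M) := by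
    rw [hM, hn]; ring
  have hmM : M ≤ 2 * D * M := by
    have : 1 * M ≤ 2 * D * M := Nat.mul_le_mul_right M (by omega)
    omega
  obtain ⟨hr1, hrm, hMMpos, hc⟩ := hcore n M (2 * D * M) M0 hmN hmn hmM hM0
  have hfinal := hm0 M hmm
  have hM1 : 1 ≤ M := le_trans hr1 hrm
  have hMR : (1 : ℝ) ≤ M := by exact_mod_cast hM1
  have hmpos : (0 : ℝ) < M := by linarith
  have hrpos : (0 : ℝ) < M0 := by exact_mod_cast hr1
  have hrmR : (M0 : ℝ) ≤ M := by exact_mod_cast hrm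
  have hlogm : 0 ≤ log (M : ℝ) := Real.log_nonneg hMR
  have hlogr : log (M0 : ℝ) ≤ log M := Real.log_le_log hrpos hrmR
  have hp := hPW n (2 * D * M) hκn.symm (le_trans hM1 hmM)
  have hlogDM : log ((2 * D * M : ℕ) : ℝ) = log (2 * (D : ℝ)) + log M := by
    push_cast
    rw [Real.log_mul (by positivity) (by positivity)]
  rw [hlogDM] at hp
  have hbpos : 0 < 2 + (M0 : ℝ) / N + n := by positivity
  have hfm : (0 : ℝ) < ((M - 1).factorial : ℝ) := by exact_mod_cast Nat.factorial_pos _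
  have hfr : (0 : ℝ) < ((M0 - 1).factorial : ℝ) := by exact_mod_cast Nat.factorial_pos _
  have hPWpos : 0 < PW n ((b + 1) * κ) b δ := by
    unfold PW
    positivity
  have hX1 : (0 : ℝ) < 4 * (N : ℝ) ^ 2 * c2 := by positivity
  have hX2 : (0 : ℝ) < (MM N M ^ (2 * ((b + 1) * (κ * n - M - M0))))⁻¹ := by positivity
  have hX3 : (0 : ℝ) < (2 + (M0 : ℝ) / N + n) ^ (2 * ((b + 1) * κ) * n) := by positivity
  have hD : (0 : ℝ) < δ ^ (6 * N) := by positivity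
  have hF1 : (0 : ℝ) < ((M - 1).factorial : ℝ) ^ 2 := by positivity
  have hF2 : (0 : ℝ) < ((M0 - 1).factorial : ℝ) ^ 2 := by positivity
  have hG1 : (0 : ℝ) < (6 * (N : ℝ) ^ 2) ^ (M - 1) := by positivity
  have hG2 : (0 : ℝ) < (6 * (N : ℝ) ^ 2) ^ (M0 - 1) := by positivity
  have hX : 0 < 4 * (N : ℝ) ^ 2 * c2 * (MM N M ^ (2 * ((b + 1) * (κ * n - M - M0))))⁻¹ *
      (2 + (M0 : ℝ) / N + n) ^ (2 * ((b + 1) * κ) * n) := by positivity
  have hY0 : 0 < (δ ^ (6 * N) * (((M - 1).factorial : ℝ) ^ 2 / (6 * (N : ℝ) ^ 2) ^ (M - 1))) := by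
    positivity
  have hY1 : 0 < c1 * (δ ^ (6 * N) * (((M - 1).factorial : ℝ) ^ 2 / (6 * (N : ℝ) ^ 2) ^ (M - 1))) ^ (b + 1) := by
    positivity
  have hY2 : 0 < δ ^ (6 * N) * (((M0 - 1).factorial : ℝ) ^ 2 / (6 * (N : ℝ) ^ 2) ^ (M0 - 1)) := by
    positivity
  have hY3 : 0 < (δ ^ (6 * N) * (((M0 - 1).factorial : ℝ) ^ 2 / (6 * (N : ℝ) ^ 2) ^ (M0 - 1))) ^ (b + 1) := by
    positivity
  have h4m : 2 * ((b + 1) * κ) * n = (b + 1) * (4 * (2 * D * M)) := by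
    have : 2 * ((b + 1) * κ) * n = (b + 1) * (2 * (κ * n)) := by ring
    rw [this, hκn]; ring
  rw [← Real.log_neg_iff (mul_pos hPWpos (mul_pos hrpos (div_pos hX (mul_pos hY1 hY3))))]
  rw [Real.log_mul hPWpos.ne' (mul_pos hrpos (div_pos hX (mul_pos hY1 hY3))).ne',
    Real.log_mul hrpos.ne' (div_pos hX (mul_pos hY1 hY3)).ne',
    Real.log_div hX.ne' (mul_pos hY1 hY3).ne', Real.log_mul hY1.ne' hY3.ne',
    Real.log_mul (mul_pos hX1 hX2).ne' hX3.ne', Real.log_mul hX1.ne' hX2.ne',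
    Real.log_mul hc1.ne' (pow_pos hY0 _).ne', Real.log_pow _ (b + 1), Real.log_pow _ (b + 1),
    Real.log_mul hD.ne' (div_pos hF1 hG1).ne', Real.log_mul hD.ne' (div_pos hF2 hG2).ne',
    Real.log_div hF1.ne' hG1.ne', Real.log_div hF2.ne' hG2.ne', Real.log_inv,
    Real.log_pow, Real.log_pow, Real.log_pow, Real.log_pow, Real.log_pow, Real.log_pow, Real.log_pow,
    h4m]
  have hc_mr : ((2 * ((b + 1) * (κ * n - M - M0)) : ℕ) : ℝ) =
      (b + 1) * (2 * (2 * ((2 * D * M : ℕ) : ℝ) - M - M0)) := by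
    have e1 : M ≤ κ * n := by rw [hκn]; omega
    have e2 : M0 ≤ κ * n - M := by rw [hκn]; omega
    have e3 : ((κ * n : ℕ) : ℝ) = 2 * ((2 * D * M : ℕ) : ℝ) := by rw [hκn]; push_cast; ring
    rw [Nat.cast_mul, Nat.cast_mul, Nat.cast_sub e2, Nat.cast_sub e1, e3]
    push_cast
    ring
  have hc_m1 : ((M - 1 : ℕ) : ℝ) = (M : ℝ) - 1 := by
    push_cast [Nat.cast_sub hM1]; ring
  have hc_r1 : ((M0 - 1 : ℕ) : ℝ) = (M0 : ℝ) - 1 := by
    push_cast [Nat.cast_sub hr1]; ring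
  have hc_4m : (((b + 1) * (4 * (2 * D * M)) : ℕ) : ℝ) = (b + 1) * (4 * ((2 * D * M : ℕ) : ℝ)) := by push_cast; ring
  have hc_6N : ((6 * N : ℕ) : ℝ) = 6 * (N : ℝ) := by push_cast; ring
  have hc_b1 : ((b + 1 : ℕ) : ℝ) = (b : ℝ) + 1 := by push_cast; ring
  rw [hc_mr, hc_m1, hc_r1, hc_4m, hc_6N, hc_b1]
  set T : ℝ := ((2 * D * M : ℕ) : ℝ) with hT
  have hb : (0 : ℝ) ≤ b := Nat.cast_nonneg b
  have q1 := mul_le_mul_of_nonneg_left hc (show (0 : ℝ) ≤ (b : ℝ) + 1 by positivity)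
  have q2 : ((b : ℝ) + 1) * K ≤ (b + 1) * |K| := mul_le_mul_of_nonneg_left (le_abs_self K) (by positivity)
  have q3 : (M : ℝ) ≤ (b + 1) * M := by nlinarith
  linarith [q1, q2, q3, hp, hfinal, hlogr]

end Run7.h795.UW
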