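import Pool.Agent.Run7.h795.UW.CO
import Pool.Agent.W165.OZ.AR
import Pool.Agent.W165.OZ.BAS

/-!
# The archimedean bound for the Hankel determinants
-/

set_option autoImplicit false

open Polynomial Pool.Agent.H337R2 Filter Topology Pool.Agent.W165.OZ

namespace Run7.h795.UW

namespace AR

noncomputable section

variable {N : ℕ} {δ c1 c2 : ℝ} {τ ω : ℕ → ℝ}

/-- the Newton basis, every node is used `b + 1` times -/
def Qn (n b : ℕ) (τ : ℕ → ℝ) (i : ℕ) : ℝ[X] := ∏ l ∈ Finset.range i, (X - C (yv n (τ (l / (b + 1)))))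

lemma Qn_monic (n b : ℕ) (τ : ℕ → ℝ) (i : ℕ) : (Qn n b τ i).Monic :=
  monic_prod_of_monic _ _ fun _ _ => monic_X_sub_C _

lemma Qn_deg (n b : ℕ) (τ : ℕ → ℝ) (i : ℕ) : (Qn n b τ i).natDegree = i := by
  unfold Qn
  rw [natDegree_prod_of_monic _ _ fun l _ => monic_X_sub_C _]
  simp

/-- the nodes before `i / (b + 1)` are zeros of order `b + 1` -/
lemma Qn_dvd (n b : ℕ) (τ : ℕ → ℝ) {i l : ℕ} (h : l < i / (b + 1)) :
    (X - C (yv n (τ l))) ^ (b + 1) ∣ Qn n b τ i := by
  unfold Qn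
  have h1 : (Finset.Ico (l * (b + 1)) (l * (b + 1) + (b + 1))) ⊆ Finset.range i := by
    intro a ha
    rw [Finset.mem_Ico] at ha
    rw [Finset.mem_range]
    have h2 : (l + 1) * (b + 1) ≤ i := (Nat.le_div_iff_mul_le (by omega)).1 h
    have h3 : (l + 1) * (b + 1) = l * (b + 1) + (b + 1) := by ring
    omega
  rw [← Finset.prod_sdiff h1]
  have h2 : ∏ a ∈ Finset.Ico (l * (b + 1)) (l * (b + 1) + (b + 1)), (X - C (yv n (τ (a / (b + 1))))) =
      (X - C (yv n (τ l))) ^ (b + 1) := by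
    rw [Finset.prod_congr rfl (g := fun _ => (X - C (yv n (τ l)) : ℝ[X]))]
    · rw [Finset.prod_const, Nat.card_Ico]
      congr 1
      omega
    · intro a ha
      rw [Finset.mem_Ico] at ha
      have : a / (b + 1) = l := by
        rw [Nat.div_eq_iff (by omega)]
        omega
      rw [this]
  rw [h2]
  exact Dvd.intro_left _ rfl

lemma Qn_MY (hN : Nodes N δ c1 c2 τ ω) {n : ℕ} (hn : 1 ≤ n) (b : ℕ) {i l : ℕ} (h : i / (b + 1) ≤ l) :
    MY n (τ l) i (Qn n b τ i) := by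
  have t1 := Pool.Agent.W165.OZ.CO.tau_gt hN l
  unfold Qn
  have := MY.prod (n := n) (t := τ l) (K := 1) (Finset.range i) (fun a => X - C (yv n (τ (a / (b + 1))))) hn t1.le
    (fun a ha => by
      rw [Finset.mem_range] at ha
      apply MY.lin hn t1.le
      · linarith [Pool.Agent.W165.OZ.CO.y_ge hN hn (a / (b + 1))]
      · exact (Pool.Agent.W165.OZ.CO.y_mono hN hn).monotone ((Nat.div_le_div_right ha.le).trans h))
  rwa [Finset.card_range, mul_one] at this

lemma entry (h2 : Pool.Agent.W165.OZ.S_TB) (hN : Nodes N δ c1 c2 τ ω) {n h b : ℕ} (hn : 1 ≤ n) (hh : 1 ≤ h)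
    {μ : ℕ → ℝ} (hM : Mom n h b τ ω μ) (i j : ℕ) (hij : i + j + 2 ≤ h * n) :
    |Lf μ (Qn n b τ i * Qn n b τ j)| ≤
      4 * (N : ℝ) ^ 2 * c2 * (4 * h * n + b + 1) ^ b *
        (MM N (max i j / (b + 1)) ^ (2 * (h * n - 2 - (i + j))))⁻¹ := by
  set P := Qn n b τ i * Qn n b τ j with hPd
  have hdeg : P.natDegree = i + j := by
    rw [hPd, (Qn_monic n b τ i).natDegree_mul (Qn_monic n b τ j), Qn_deg, Qn_deg]
  have hs := hasSum_L hM P (by rw [hdeg]; exact hij)
  set M := max i j / (b + 1) with hMd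
  obtain ⟨t1, t2⟩ := h2 N δ c1 c2 τ ω hN n h M (i + j) hn hh hij
  obtain ⟨W2, hW2⟩ : ∃ W2 : ℝ, W2 = (4 * h * n + b + 1 : ℝ) ^ b := ⟨_, rfl⟩
  have hW20 : 0 ≤ W2 := by rw [hW2]; positivity
  have hz : ∀ l < M, ω l * Dv n h b (τ l) P = 0 := by
    intro l hl
    have : Dv n h b (τ l) P = 0 := by
      apply Dv_vanish
      rw [hPd]
      rcases le_total i j with h | h
      · rw [hMd, max_eq_right h] at hl
        exact Dvd.dvd.mul_left (Qn_dvd n b τ hl) _
      · rw [hMd, max_eq_left h] at hl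
        exact Dvd.dvd.mul_right (Qn_dvd n b τ hl) _
    rw [this, mul_zero]
  have hs2 : HasSum (fun l => ω (l + M) * Dv n h b (τ (l + M)) P) (Lf μ P) := by
    have h3 := (hasSum_nat_add_iff' M).2 hs
    rw [Finset.sum_eq_zero (fun l hl => hz l (Finset.mem_range.1 hl)), sub_zero] at h3
    exact h3
  have hb : ∀ l, ‖ω (l + M) * Dv n h b (τ (l + M)) P‖ ≤
      W2 * (|ω (l + M)| * (Rv n h (τ (l + M)) * yv n (τ (l + M)) ^ (i + j))) := by
    intro l
    have h0 := Pool.Agent.W165.OZ.CO.tau_gt hN (l + M)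
    have hi : i / (b + 1) ≤ l + M :=
      (Nat.div_le_div_right (le_max_left i j)).trans (Nat.le_add_left _ _)
    have hj : j / (b + 1) ≤ l + M :=
      (Nat.div_le_div_right (le_max_right i j)).trans (Nat.le_add_left _ _)
    have h3 := Dv_bound (h := h) (b := b) hn h0.le (by omega)
      ((Qn_MY hN hn b hi).mul hn h0.le (Qn_MY hN hn b hj))
    rw [← hPd, ← hW2] at h3
    rw [norm_mul, Real.norm_eq_abs, Real.norm_eq_abs]
    calc |ω (l + M)| * |Dv n h b (τ (l + M)) P| ≤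
        |ω (l + M)| * (W2 * (Rv n h (τ (l + M)) * yv n (τ (l + M)) ^ (i + j))) :=
          mul_le_mul_of_nonneg_left h3 (abs_nonneg _)
      _ = _ := by ring
  have h4 : ‖Lf μ P‖ ≤
      ∑' l, W2 * (|ω (l + M)| * (Rv n h (τ (l + M)) * yv n (τ (l + M)) ^ (i + j))) := by
    rw [← hs2.tsum_eq]
    exact tsum_of_norm_bounded (t1.mul_left W2).hasSum hb
  rw [Real.norm_eq_abs, tsum_mul_left] at h4
  refine h4.trans ((mul_le_mul_of_nonneg_left t2 hW20).trans (le_of_eq ?_))
  rw [hW2]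
  ring

end

end AR

open AR in
open Pool.Agent.W165.OZ.AR (MM_one MM_mono) in
theorem t_ar (h1 : S_BAS) (h2 : S_TB) : S_AR := by
  intro N δ c1 c2 τ ω hN n h b hn hh hev μ hM r hr
  have hc2 : 0 ≤ c2 := (abs_nonneg _).trans (hN.whi 0)
  obtain ⟨m, hm⟩ : ∃ m, h * n = 2 * m := by
    obtain ⟨k, hk⟩ := hev
    exact ⟨h * k, by rw [hk]; ring⟩
  have hm2 : h * n / 2 = m := by omega
  have hrm : r ≤ m := by omega
  obtain ⟨C0, hC0⟩ : ∃ C0 : ℝ, C0 = 4 * (N : ℝ) ^ 2 * c2 * (4 * h * n + b + 1) ^ b := ⟨_, rfl⟩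
  have hC0n : 0 ≤ C0 := by rw [hC0]; positivity
  let A : ℕ → ℝ := fun i => (MM N (i / (b + 1)) ^ (2 * (m - 1 - i)))⁻¹
  have hA0 : ∀ i, 0 ≤ A i := fun i => by
    have := MM_one N (i / (b + 1))
    positivity
  have hdet := h1 ℝ ℝ (Lf μ) (Qn n b τ) (Qn_monic n b τ) (Qn_deg n b τ) r
  have hDH : DH (fun k => Lf μ (X ^ k)) r = DH μ r := by
    congr 1
    funext k
    exact Lf_X_pow μ k
  rw [hDH] at hdet
  rw [← hdet]
  have hent : ∀ i j : Fin r, |Lf μ (Qn n b τ i.1 * Qn n b τ j.1)| ≤ C0 * (A i.1 * A j.1) := by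
    intro i j
    have hi := i.2
    have hj := j.2
    refine (entry h2 hN hn hh hM i.1 j.1 (by omega)).trans ?_
    rw [← hC0]
    apply mul_le_mul_of_nonneg_left _ hC0n
    have e1 : 2 * (h * n - 2 - (i.1 + j.1)) = 2 * (m - 1 - i.1) + 2 * (m - 1 - j.1) := by omega
    rw [e1, pow_add, ← mul_inv]
    have p1 := MM_one N (i.1 / (b + 1))
    have p2 := MM_one N (j.1 / (b + 1))
    have p3 := MM_one N (max i.1 j.1 / (b + 1))
    apply inv_anti₀ (by positivity)
    apply mul_le_mul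
    · exact pow_le_pow_left₀ (by linarith) (MM_mono N (Nat.div_le_div_right (le_max_left _ _))) _
    · exact pow_le_pow_left₀ (by linarith) (MM_mono N (Nat.div_le_div_right (le_max_right _ _))) _
    · positivity
    · positivity
  rw [Matrix.det_apply]
  calc |∑ σ : Equiv.Perm (Fin r), Equiv.Perm.sign σ •
        ∏ i, Matrix.of (fun i j : Fin r => Lf μ (Qn n b τ i.1 * Qn n b τ j.1)) (σ i) i|
      ≤ ∑ σ : Equiv.Perm (Fin r), |Equiv.Perm.sign σ •
        ∏ i, Matrix.of (fun i j : Fin r => Lf μ (Qn n b τ i.1 * Qn n b τ j.1)) (σ i) i| :=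
        Finset.abs_sum_le_sum_abs _ _
    _ ≤ ∑ _σ : Equiv.Perm (Fin r), C0 ^ r * (∏ i : Fin r, A i.1) ^ 2 := by
        apply Finset.sum_le_sum
        intro σ _
        have e1 : |Equiv.Perm.sign σ •
            ∏ i, Matrix.of (fun i j : Fin r => Lf μ (Qn n b τ i.1 * Qn n b τ j.1)) (σ i) i| =
            ∏ i, |Lf μ (Qn n b τ (σ i).1 * Qn n b τ i.1)| := by
          rw [Units.smul_def, zsmul_eq_mul, abs_mul, Finset.abs_prod]
          have : |(((Equiv.Perm.sign σ : ℤˣ) : ℤ) : ℝ)| = 1 := by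
            rcases Int.units_eq_one_or (Equiv.Perm.sign σ) with h | h <;> rw [h] <;> simp
          rw [this, one_mul]
          rfl
        rw [e1]
        calc ∏ i, |Lf μ (Qn n b τ (σ i).1 * Qn n b τ i.1)| ≤
              ∏ i : Fin r, (C0 * (A (σ i).1 * A i.1)) :=
              Finset.prod_le_prod (fun i _ => abs_nonneg _) (fun i _ => hent (σ i) i)
          _ = C0 ^ r * ((∏ i : Fin r, A (σ i).1) * ∏ i : Fin r, A i.1) := by
              rw [Finset.prod_mul_distrib (f := fun _ : Fin r => C0),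
                Finset.prod_mul_distrib (f := fun i : Fin r => A (σ i).1), Finset.prod_const,
                Finset.card_univ, Fintype.card_fin]
          _ = C0 ^ r * (∏ i : Fin r, A i.1) ^ 2 := by
              rw [Equiv.prod_comp σ (fun i : Fin r => A i.1), sq]
    _ = Arc N n h b (4 * (N : ℝ) ^ 2 * c2) r := by
        rw [Finset.sum_const, Finset.card_univ, Fintype.card_perm, Fintype.card_fin,
          nsmul_eq_mul]
        unfold Arc
        rw [← hC0, mul_assoc]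
        congr 2
        rw [← Finset.prod_pow, Finset.prod_range]
        apply Finset.prod_congr rfl
        intro i _
        change ((MM N (i.1 / (b + 1)) ^ (2 * (m - 1 - i.1)))⁻¹) ^ 2 = _
        rw [inv_pow, ← pow_mul, hm2]
        congr 2
        ring

end Run7.h795.UW
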