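import Pool.Agent.Run7.h795.UW.VN
import Pool.Agent.Run7.h795.UW.AR
import Pool.Agent.W165.OZ.BAS
import Pool.Agent.W165.OZ.TB

/-!
# Simultaneous approximation of odd zeta values in windows: the archimedean bound for the perturbed
# Hankel determinants
-/

open Polynomial Pool.Agent.H337R2 Pool.Agent.W165.OZ Filter Topology

namespace Run7.h795.UW

namespace VA

variable {N : ℕ} {δ c1 c2 : ℝ} {τ ω : ℕ → ℝ}

/-- products over the nodes with multiplicity -/
lemma prod_le (hN : Nodes N δ c1 c2 τ ω) {n M b : ℕ} (hn : 1 ≤ n) (hM : 240 * N + 8 ≤ M)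
    (hMn : 16 * N * n ≤ M) (i : ℕ) (hi : i ≤ (b + 1) * M) :
    ∏ l ∈ Finset.range i, ((n : ℝ) ^ 2 + yv n (τ (l / (b + 1)))) ≤ (2 * MM N M) ^ (2 * i) := by
  calc ∏ l ∈ Finset.range i, ((n : ℝ) ^ 2 + yv n (τ (l / (b + 1))))
      ≤ ∏ _l ∈ Finset.range i, (2 * MM N M) ^ 2 := by
        refine Finset.prod_le_prod (fun l _ => ?_) (fun l hl => ?_)
        · have := Pool.Agent.TH818.SA.y_nonneg hN hn (l / (b + 1)); positivity
        · refine VN.node_le hN hn hM hMn _ ?_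
          rw [Nat.div_lt_iff_lt_mul (by omega)]
          have := Finset.mem_range.1 hl
          rw [mul_comm M]
          omega
    _ = _ := by
      rw [Finset.prod_const, Finset.card_range, ← pow_mul]

end VA

open VA in
open Pool.Agent.W165.OZ.AR (MM_one MM_mono) in
/-- VA: the archimedean bound for the perturbed moments -/
theorem t_va : S_VA := by
  intro N δ c1 c2 τ ω hN κ b D hD hκ
  have hc1 : 0 < c1 := hN.hc1
  have hc2 : 0 < c2 := lt_of_lt_of_le hc1 ((hN.wlo 0).trans (hN.whi 0))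
  have hN1 : 1 ≤ N := hN.hN
  have hN0 : (0 : ℝ) < N := by exact_mod_cast hN1
  refine ⟨240 * N + 8, fun ν hν n hn μ hμ μ' E hE hμ' hEC r hr => ?_⟩
  have hκ1 : 1 ≤ κ := by
    have : 1 ≤ 64 * D * N := by
      have := Nat.mul_pos (Nat.mul_pos (by norm_num : 0 < 64) hD) hN1
      omega
    omega
  have hn1 : 1 ≤ n := by
    rw [hn]; nlinarith
  have hMn : 16 * N * n ≤ κ * ν := by
    rw [hn]
    calc 16 * N * (4 * D * ν) = 64 * D * N * ν := by ring
      _ ≤ κ * ν := Nat.mul_le_mul_right _ hκ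
  have hM2 : 240 * N + 8 ≤ κ * ν := hν.trans (Nat.le_mul_of_pos_left ν hκ1)
  obtain ⟨M, hM⟩ : ∃ M, M = κ * ν := ⟨_, rfl⟩
  rw [mul_assoc (b + 1) κ ν] at hEC hr
  rw [← hM] at hEC hr hMn hM2
  have hkn : κ * n = 2 * (2 * D * M) := by rw [hn, hM]; ring
  obtain ⟨h, hh⟩ : ∃ h, h = (b + 1) * κ := ⟨_, rfl⟩
  rw [← hh] at hμ hEC ⊢
  have hh1 : 1 ≤ h := by
    rw [hh]; exact Nat.mul_pos (by omega) (by omega)
  obtain ⟨m, hm⟩ : ∃ m, m = (b + 1) * (2 * D * M) := ⟨_, rfl⟩
  have hhn : h * n = 2 * m := by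
    rw [hh, mul_assoc, hkn, hm]; ring
  have hm2 : h * n / 2 = m := by omega
  have hmM : 2 * ((b + 1) * M) ≤ m := by
    rw [hm]
    calc 2 * ((b + 1) * M) = (b + 1) * (2 * 1 * M) := by ring
      _ ≤ (b + 1) * (2 * D * M) := by gcongr
  have hrm : 2 * r ≤ m := by omega
  obtain ⟨W, hW⟩ : ∃ W : ℝ, W = (4 * h * n + b + 1 : ℝ) ^ b := ⟨_, rfl⟩
  have hW1 : 1 ≤ W := by
    rw [hW]
    apply one_le_pow₀
    have : (0 : ℝ) ≤ 4 * h * n := by positivity
    have : (0 : ℝ) ≤ b := Nat.cast_nonneg b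
    linarith
  obtain ⟨C1, hC1⟩ : ∃ C1 : ℝ, C1 = 4 * (N : ℝ) ^ 2 * c2 := ⟨_, rfl⟩
  have hC1n : 0 ≤ C1 := by rw [hC1]; positivity
  rw [← hC1] at hEC ⊢
  obtain ⟨C0, hC0⟩ : ∃ C0 : ℝ, C0 = C1 * W := ⟨_, rfl⟩
  have hC0n : 0 ≤ C0 := by rw [hC0]; positivity
  have hC10 : C1 ≤ C0 := by
    rw [hC0]; exact le_mul_of_one_le_right hC1n hW1
  let A : ℕ → ℝ := fun i => (MM N (i / (b + 1)) ^ (2 * (m - 1 - i)))⁻¹
  have hA0 : ∀ i, 0 ≤ A i := fun i => by
    have := MM_one N (i / (b + 1))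
    positivity
  have hdet := t_bas ℝ ℝ (Lf μ') (AR.Qn n b τ) (AR.Qn_monic n b τ) (AR.Qn_deg n b τ) r
  have hDH : DH (fun k => Lf μ' (X ^ k)) r = DH μ' r := by
    congr 1
    funext k
    exact Lf_X_pow μ' k
  rw [hDH] at hdet
  rw [← hdet]
  have hx1 : 1 ≤ MM N M := MM_one N M
  have hx0 : 0 < MM N M := by linarith
  have hent : ∀ i j : Fin r,
      |(Matrix.of fun i j : Fin r => Lf μ' (AR.Qn n b τ i.1 * AR.Qn n b τ j.1)) i j|
      ≤ (2 * C0) * (A i.1 * A j.1) := by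
    intro i j
    have hi := i.2
    have hj := j.2
    have p1 := MM_one N (i.1 / (b + 1))
    have p2 := MM_one N (j.1 / (b + 1))
    have p3 := MM_one N (max i.1 j.1 / (b + 1))
    have q1 : |Lf μ (AR.Qn n b τ i.1 * AR.Qn n b τ j.1)| ≤ C0 * (A i.1 * A j.1) := by
      refine (AR.entry t_tb hN hn1 hh1 hμ i.1 j.1 (by omega)).trans ?_
      rw [← hC1, ← hW, ← hC0]
      apply mul_le_mul_of_nonneg_left _ hC0n
      have e1 : 2 * (h * n - 2 - (i.1 + j.1)) = 2 * (m - 1 - i.1) + 2 * (m - 1 - j.1) := by omega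
      rw [e1, pow_add, ← mul_inv]
      apply inv_anti₀ (by positivity)
      apply mul_le_mul
      · exact pow_le_pow_left₀ (by linarith) (MM_mono N (Nat.div_le_div_right (le_max_left _ _))) _
      · exact pow_le_pow_left₀ (by linarith) (MM_mono N (Nat.div_le_div_right (le_max_right _ _))) _
      · positivity
      · positivity
    have q2 : |Lf (fun k => μ' k - μ k) (AR.Qn n b τ i.1 * AR.Qn n b τ j.1)| ≤ C0 * (A i.1 * A j.1) := by
      have e2 : AR.Qn n b τ i.1 * AR.Qn n b τ j.1 =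
          ∏ l ∈ (Finset.range i.1).disjSum (Finset.range j.1),
            (X - C (Sum.elim (fun l => yv n (τ (l / (b + 1)))) (fun l => yv n (τ (l / (b + 1)))) l)) := by
        rw [Finset.prod_disjSum]
        rfl
      rw [e2]
      refine (Pool.Agent.TH818.SA.Lf_prod_bound ((n : ℝ) ^ 2) _ _ _ E hμ').trans ?_
      rw [Finset.prod_disjSum]
      simp only [Sum.elim_inl, Sum.elim_inr]
      have e4 : ∀ s : ℕ, ∏ l ∈ Finset.range s, ((n : ℝ) ^ 2 + |yv n (τ (l / (b + 1)))|) =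
          ∏ l ∈ Finset.range s, ((n : ℝ) ^ 2 + yv n (τ (l / (b + 1)))) := fun s =>
        Finset.prod_congr rfl fun l _ => by
          rw [abs_of_nonneg (Pool.Agent.TH818.SA.y_nonneg hN hn1 _)]
      rw [e4, e4]
      have hp : ∀ s : ℕ, 0 ≤ ∏ l ∈ Finset.range s, ((n : ℝ) ^ 2 + yv n (τ (l / (b + 1)))) := fun s =>
        Finset.prod_nonneg fun l _ => by
          have := Pool.Agent.TH818.SA.y_nonneg hN hn1 (l / (b + 1)); positivity
      have f1 := prod_le hN hn1 hM2 hMn (b := b) i.1 (by omega)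
      have f2 := prod_le hN hn1 hM2 hMn (b := b) j.1 (by omega)
      have f3 : E * ((∏ l ∈ Finset.range i.1, ((n : ℝ) ^ 2 + yv n (τ (l / (b + 1))))) *
          ∏ l ∈ Finset.range j.1, ((n : ℝ) ^ 2 + yv n (τ (l / (b + 1))))) ≤
          C1 * (MM N M ^ (2 * (m - 1 - i.1) + 2 * (m - 1 - j.1)))⁻¹ := by
        rw [← div_eq_mul_inv, le_div_iff₀ (by positivity)]
        have h4 : (4 : ℝ) ^ (i.1 + j.1) ≤ 16 ^ ((b + 1) * M) := by
          rw [show (16 : ℝ) = 4 ^ 2 by norm_num, ← pow_mul]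
          exact pow_le_pow_right₀ (by norm_num) (by omega)
        have h5 := hp i.1
        have h6 := hp j.1
        calc E * ((∏ l ∈ Finset.range i.1, ((n : ℝ) ^ 2 + yv n (τ (l / (b + 1))))) *
              ∏ l ∈ Finset.range j.1, ((n : ℝ) ^ 2 + yv n (τ (l / (b + 1))))) *
                MM N M ^ (2 * (m - 1 - i.1) + 2 * (m - 1 - j.1))
            ≤ E * ((2 * MM N M) ^ (2 * i.1) * (2 * MM N M) ^ (2 * j.1)) *
                MM N M ^ (2 * (m - 1 - i.1) + 2 * (m - 1 - j.1)) := by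
              gcongr
          _ = E * 4 ^ (i.1 + j.1) * MM N M ^ (2 * i.1 + 2 * j.1 +
                (2 * (m - 1 - i.1) + 2 * (m - 1 - j.1))) := by
              rw [mul_pow, mul_pow, pow_mul (2 : ℝ) 2, pow_mul (2 : ℝ) 2, pow_add (4 : ℝ),
                pow_add (MM N M) (2 * i.1 + 2 * j.1), pow_add (MM N M) (2 * i.1) (2 * j.1)]
              norm_num
              ring
          _ ≤ E * 16 ^ ((b + 1) * M) * MM N M ^ (2 * (h * n)) := by
              apply mul_le_mul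
              · gcongr
              · exact pow_le_pow_right₀ hx1 (by omega)
              · positivity
              · positivity
          _ ≤ C1 := hEC
      refine f3.trans ?_
      apply mul_le_mul hC10 _ (by positivity) hC0n
      rw [← mul_inv]
      apply inv_anti₀ (by positivity)
      rw [pow_add]
      have g1 : i.1 / (b + 1) ≤ M := by
        apply Nat.div_le_of_le_mul; omega
      have g2 : j.1 / (b + 1) ≤ M := by
        apply Nat.div_le_of_le_mul; omega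
      apply mul_le_mul
      · exact pow_le_pow_left₀ (by linarith) (MM_mono N g1) _
      · exact pow_le_pow_left₀ (by linarith) (MM_mono N g2) _
      · positivity
      · positivity
    rw [Pool.Agent.TH818.SA.Lf_sub_seq] at q2
    have e6 : Lf μ' (AR.Qn n b τ i.1 * AR.Qn n b τ j.1) = Lf μ (AR.Qn n b τ i.1 * AR.Qn n b τ j.1) +
      (Lf μ' (AR.Qn n b τ i.1 * AR.Qn n b τ j.1) - Lf μ (AR.Qn n b τ i.1 * AR.Qn n b τ j.1)) := by ring
    change |Lf μ' (AR.Qn n b τ i.1 * AR.Qn n b τ j.1)| ≤ _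
    rw [e6]
    refine (abs_add_le _ _).trans ?_
    linarith
  refine (Pool.Agent.TH818.SA.det_bound r _ _ A hent).trans (le_of_eq ?_)
  unfold Arc
  rw [← hW, show 2 * C1 * W = 2 * C0 by rw [hC0]; ring]
  congr 1
  apply Finset.prod_congr rfl
  intro i _
  change ((MM N (i / (b + 1)) ^ (2 * (m - 1 - i)))⁻¹) ^ 2 = _
  rw [inv_pow, ← pow_mul, hm2]
  congr 2
  ring

end Run7.h795.UW
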