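import Pool.Agent.Run7.h795.UW.Stm2
import Pool.Agent.TH818.SA.NV2

/-!
# Simultaneous approximation of odd zeta values in windows: non-vanishing for the perturbed moments
-/

open Polynomial Pool.Agent.H337R2 Pool.Agent.W165.OZ Filter Topology

namespace Run7.h795.UW

namespace VN

variable {N : ℕ} {δ c1 c2 : ℝ} {τ ω : ℕ → ℝ}

/-- the nodes and `n` are small against `MM N M` -/
lemma node_le (hN : Nodes N δ c1 c2 τ ω) {n M : ℕ} (hn : 1 ≤ n) (hM : 240 * N + 8 ≤ M)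
    (hMn : 16 * N * n ≤ M) (l : ℕ) (hl : l < M) :
    (n : ℝ) ^ 2 + yv n (τ l) ≤ (2 * MM N M) ^ 2 := by
  have hN1 := hN.hN
  have hNpos : (0 : ℝ) < N := by exact_mod_cast hN1
  have hmR : (240 * N + 8 : ℝ) ≤ M := by exact_mod_cast hM
  have hnR : 16 * (N : ℝ) * n ≤ M := by exact_mod_cast hMn
  have hx : (M : ℝ) / N ≤ MM N M := le_max_right _ _
  have h2 := CO.tau_gt hN l
  have h3 := hN.hi l
  have h4 : ((l / N : ℕ) : ℝ) ≤ (M : ℝ) / N := by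
    have h5 : ((l / N : ℕ) : ℝ) ≤ (l : ℝ) / N := Nat.cast_div_le
    have h6 : (l : ℝ) / N ≤ (M : ℝ) / N := by
      apply div_le_div_of_nonneg_right _ hNpos.le
      exact_mod_cast hl.le
    linarith
  have h5 : (n : ℝ) ≤ (M : ℝ) / N / 16 := by
    rw [div_div, le_div_iff₀ (by positivity)]
    linarith
  have h6 : (32 : ℝ) ≤ (M : ℝ) / N := by
    rw [le_div_iff₀ hNpos]
    linarith
  have h7 : (n : ℝ) + τ l ≤ 2 * MM N M := by linarith
  have h8 : (0 : ℝ) ≤ n := Nat.cast_nonneg n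
  have h9 : (1 : ℝ) ≤ n := by exact_mod_cast hn
  calc (n : ℝ) ^ 2 + yv n (τ l) ≤ ((n : ℝ) + τ l) ^ 2 := by
        unfold yv
        nlinarith
    _ ≤ (2 * MM N M) ^ 2 := pow_le_pow_left₀ (by linarith) h7 2

/-- the perturbation against the Newton products -/
lemma pert_small (hN : Nodes N δ c1 c2 τ ω) {n κ b ν D : ℕ} (hn : 1 ≤ n) (hnD : n = 4 * D * ν)
    (hD : 1 ≤ D) (hM : 240 * N + 8 ≤ κ * ν)
    (hMn : 16 * N * n ≤ κ * ν) {E C0 : ℝ} (hE : 0 ≤ E)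
    (hEC : E * 16 ^ ((b + 1) * κ * ν) * MM N (κ * ν) ^ (2 * ((b + 1) * κ * n)) ≤ C0) (i : ℕ)
    (hi : i ≤ κ * ν) :
    E * ((∏ l ∈ Finset.range i, ((n : ℝ) ^ 2 + yv n (τ l))) ^ (b + 1) *
      (∏ l ∈ Finset.range (κ * ν), ((n : ℝ) ^ 2 + yv n (τ l))) ^ (b + 1)) ≤
      C0 * (MM N (κ * ν) ^ (2 * ((b + 1) * (κ * n - κ * ν - i))))⁻¹ := by
  obtain ⟨M, hMd⟩ : ∃ M, M = κ * ν := ⟨_, rfl⟩
  rw [mul_assoc (b + 1) κ ν] at hEC
  rw [← hMd] at hM hMn hEC hi ⊢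
  have hx1 : 1 ≤ MM N M := AR.MM_one N M
  have hx0 : 0 < MM N M := by linarith
  have h1 := Pool.Agent.TH818.SA.pert_prod hN hn hM hMn i hi
  have h2 := Pool.Agent.TH818.SA.pert_prod hN hn hM hMn M le_rfl
  have hp : ∀ s : ℕ, 0 ≤ ∏ l ∈ Finset.range s, ((n : ℝ) ^ 2 + yv n (τ l)) := fun s =>
    Finset.prod_nonneg fun l _ => by
      have := Pool.Agent.TH818.SA.y_nonneg hN hn l; positivity
  have h1' := pow_le_pow_left₀ (hp i) h1 (b + 1)
  have h2' := pow_le_pow_left₀ (hp M) h2 (b + 1)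
  have hkn : κ * n = 4 * D * M := by rw [hnD, hMd]; ring
  have hkM : 4 * M ≤ κ * n := by
    rw [hkn]; nlinarith
  rw [← div_eq_mul_inv, le_div_iff₀ (by positivity)]
  have h4 : (4 : ℝ) ^ ((b + 1) * (i + M)) ≤ 16 ^ ((b + 1) * M) := by
    rw [show (16 : ℝ) = 4 ^ 2 by norm_num, ← pow_mul]
    apply pow_le_pow_right₀ (by norm_num)
    calc (b + 1) * (i + M) ≤ (b + 1) * (M + M) := Nat.mul_le_mul_left _ (by omega)
      _ = 2 * ((b + 1) * M) := by ring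
  calc E * ((∏ l ∈ Finset.range i, ((n : ℝ) ^ 2 + yv n (τ l))) ^ (b + 1) *
        (∏ l ∈ Finset.range M, ((n : ℝ) ^ 2 + yv n (τ l))) ^ (b + 1)) *
          MM N M ^ (2 * ((b + 1) * (κ * n - M - i)))
      ≤ E * (((2 * MM N M) ^ (2 * i)) ^ (b + 1) * ((2 * MM N M) ^ (2 * M)) ^ (b + 1)) *
          MM N M ^ (2 * ((b + 1) * (κ * n - M - i))) := by
        have h5 := hp i
        have h6 := hp M
        gcongr
    _ = E * 4 ^ ((b + 1) * (i + M)) * MM N M ^ (2 * ((b + 1) * κ * n)) := by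
        obtain ⟨e, he⟩ : ∃ e, e = κ * n - M - i := ⟨_, rfl⟩
        have he' : κ * n = e + M + i := by omega
        rw [← he, mul_assoc (b + 1) κ n, he']
        have e1 : ((2 * MM N M) ^ (2 * i)) ^ (b + 1) * ((2 * MM N M) ^ (2 * M)) ^ (b + 1) =
            (2 * MM N M) ^ (2 * ((b + 1) * (i + M))) := by
          rw [← pow_mul, ← pow_mul, ← pow_add]
          congr 1
          ring
        rw [e1, mul_pow, pow_mul (2 : ℝ) 2, show (2 : ℝ) ^ 2 = 4 by norm_num]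
        rw [show 2 * ((b + 1) * (e + M + i)) = 2 * ((b + 1) * (i + M)) + 2 * ((b + 1) * e) by ring, pow_add]
        ring
    _ ≤ E * 16 ^ ((b + 1) * M) * MM N M ^ (2 * ((b + 1) * κ * n)) := by gcongr
    _ ≤ C0 := hEC

end VN

/-- VN: non-vanishing for the perturbed moments -/
theorem t_vn (h1 : Pool.Agent.W165.OZ.S_HK) (h2 : S_C2) (h3 : Pool.Agent.W165.OZ.S_TB)
    (h4 : Pool.Agent.W165.OZ.S_RL) (h5 : Pool.Agent.W165.OZ.S_PI) (h6 : S_N2) : S_VN := by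
  intro N δ c1 c2 τ ω hN κ b D hD hκ
  have hc1 : 0 < c1 := hN.hc1
  have hc2 : 0 < c2 := lt_of_lt_of_le hc1 ((hN.wlo 0).trans (hN.whi 0))
  have hN1 : 1 ≤ N := hN.hN
  have hN0 : (0 : ℝ) < N := by exact_mod_cast hN1
  obtain ⟨ν0, hν0⟩ := h6 N δ c1 (2 * c2) hN1 hN.hδ hN.hδ1 hc1 (by positivity) κ b D hD hκ
  refine ⟨max ν0 (240 * N + 8), fun ν hν n hn μ hμ μ' E hE hμ' hEC => ?_⟩
  have hνν0 : ν0 ≤ ν := (le_max_left _ _).trans hν
  have hν2 : 240 * N + 8 ≤ ν := (le_max_right _ _).trans hν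
  have hκ1 : 1 ≤ κ := by
    have : 1 ≤ 64 * D * N := by
      have := Nat.mul_pos (Nat.mul_pos (by norm_num : 0 < 64) hD) hN1
      omega
    omega
  have hn1 : 1 ≤ n := by
    rw [hn]; nlinarith
  have hsm := VN.pert_small hN hn1 hn hD (hν2.trans (Nat.le_mul_of_pos_left ν hκ1))
    (by
      rw [hn]
      calc 16 * N * (4 * D * ν) = 64 * D * N * ν := by ring
        _ ≤ κ * ν := Nat.mul_le_mul_right _ hκ) hE hEC
  obtain ⟨M, hM⟩ : ∃ M, M = κ * ν := ⟨_, rfl⟩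
  rw [← hM] at hsm
  obtain ⟨M0, hM0⟩ : ∃ M0, M0 = (M + 7) / 8 := ⟨_, rfl⟩
  have hMν : ν ≤ M := by rw [hM]; exact Nat.le_mul_of_pos_left ν hκ1
  have hM1 : 1 ≤ M := by omega
  have hM01 : 1 ≤ M0 := by omega
  have hM0M : M0 ≤ M := by omega
  have hM8 : M ≤ 8 * M0 := by omega
  have hkn : κ * n = 4 * D * M := by rw [hn, hM]; ring
  have hkM : 4 * M ≤ κ * n := by
    rw [hkn]; nlinarith
  have hnum := hν0 ν hνν0 n M M0 hn hM hM0
  obtain ⟨h, hh⟩ : ∃ h, h = (b + 1) * κ := ⟨_, rfl⟩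
  rw [← hh] at hμ hnum
  rw [mul_assoc (b + 1) κ ν, ← hM]
  have hh1 : 1 ≤ h := by
    rw [hh]; exact Nat.mul_pos (by omega) (by omega)
  have hhn : h * n = (b + 1) * (κ * n) := by
    rw [hh, mul_assoc]
  have hhM : 2 * ((b + 1) * M) ≤ h * n := by
    rw [hhn]
    calc 2 * ((b + 1) * M) = (b + 1) * (2 * M) := by ring
      _ ≤ (b + 1) * (κ * n) := Nat.mul_le_mul_left _ (by omega)
  have hmm : (b + 1) * M0 ≤ (b + 1) * M := Nat.mul_le_mul_left _ hM0M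
  have hm1 : 1 ≤ (b + 1) * M0 := Nat.mul_pos (by omega) (by omega)
  have hm8 : (b + 1) * M ≤ 8 * ((b + 1) * M0) := by
    calc (b + 1) * M ≤ (b + 1) * (8 * M0) := Nat.mul_le_mul_left _ hM8
      _ = 8 * ((b + 1) * M0) := by ring
  by_contra hcon
  push Not at hcon
  have hzero : ∀ r, (b + 1) * M0 ≤ r → r ≤ (b + 1) * M → DH μ' r = 0 := fun r hr hr' =>
    hcon r (by omega) (by omega)
  obtain ⟨Q, hQ0, hQd, hQo⟩ := h1 μ' ((b + 1) * M0) ((b + 1) * M) hm1 hmm hzero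
  have hco := h2 N δ c1 c2 τ ω hN n h b (by omega) hh1 μ hμ μ' E hE hμ' M M0 hM01 hM0M (by omega) Q hQ0
    hQd hQo
  have hk : ((b + 1) * M - 1) + ((b + 1) * M0 - 1) + 2 ≤ h * n := by omega
  have htb := (h3 N δ c1 c2 τ ω hN n h M (((b + 1) * M - 1) + ((b + 1) * M0 - 1)) (by omega) hh1 hk).2
  have hexp : h * n - 2 - (((b + 1) * M - 1) + ((b + 1) * M0 - 1)) = (b + 1) * (κ * n - M - M0) := by
    rw [Nat.mul_sub, Nat.mul_sub, ← hhn]; omega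
  rw [hexp] at htb
  have hsm0 := hsm M0 hM0M
  obtain ⟨A, hA⟩ : ∃ A : ℝ, A = δ ^ (6 * N) * (((M - 1).factorial : ℝ) ^ 2 /
    (6 * (N : ℝ) ^ 2) ^ (M - 1)) := ⟨_, rfl⟩
  obtain ⟨B, hB⟩ : ∃ B : ℝ, B = δ ^ (6 * N) * (((M0 - 1).factorial : ℝ) ^ 2 /
    (6 * (N : ℝ) ^ 2) ^ (M0 - 1)) := ⟨_, rfl⟩
  have hδ := hN.hδ
  have hA0 : 0 < A := by rw [hA]; positivity
  have hB0 : 0 < B := by rw [hB]; positivity
  rw [← hA, ← hB] at hnum
  obtain ⟨X, hX⟩ : ∃ X : ℝ, X = 4 * (N : ℝ) ^ 2 * (2 * c2) *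
      (MM N M ^ (2 * ((b + 1) * (κ * n - M - M0))))⁻¹ := ⟨_, rfl⟩
  have hMM : 0 < MM N M := by
    unfold MM
    exact lt_of_lt_of_le one_pos (le_max_left _ _)
  have hX0 : 0 ≤ X := by rw [hX]; positivity
  rw [← hX] at hnum
  obtain ⟨T, hT⟩ : ∃ T : ℝ, T = (∑' i, |ω (i + M)| * (Rv n h (τ (i + M)) *
        yv n (τ (i + M)) ^ (((b + 1) * M - 1) + ((b + 1) * M0 - 1)))) +
      E * ((∏ l ∈ Finset.range M0, ((n : ℝ) ^ 2 + yv n (τ l))) ^ (b + 1) *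
        (∏ l ∈ Finset.range M, ((n : ℝ) ^ 2 + yv n (τ l))) ^ (b + 1)) := ⟨_, rfl⟩
  have hTX : T ≤ X := by
    rw [hT, hX]
    linarith
  rw [← hT] at hco
  obtain ⟨Y, hY⟩ : ∃ Y : ℝ, Y = (2 + (M0 : ℝ) / N + n) ^ (2 * h * n) := ⟨_, rfl⟩
  have hY0 : 0 < Y := by rw [hY]; positivity
  rw [← hY] at hnum
  have hPW : 0 ≤ PW n h b δ := by unfold PW; positivity
  have hterm : ∀ j ∈ Finset.range M0,
      T / (c1 * Rv n h (τ j) * (∏ l ∈ (Finset.range M).erase j, |yv n (τ j) - yv n (τ l)|) ^ (b + 1) *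
        (∏ l ∈ (Finset.range M0).erase j, |yv n (τ j) - yv n (τ l)|) ^ (b + 1)) ≤
      X * Y / (c1 * A ^ (b + 1) * B ^ (b + 1)) := by
    intro j hj
    rw [Finset.mem_range] at hj
    have e1 := h5 N δ c1 c2 τ ω hN n (by omega) M j (by omega)
    have e2 := h5 N δ c1 c2 τ ω hN n (by omega) M0 j hj
    rw [← hA] at e1
    rw [← hB] at e2
    have e1' := pow_le_pow_left₀ hA0.le e1 (b + 1)
    have e2' := pow_le_pow_left₀ hB0.le e2 (b + 1)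
    have e3 := h4 N δ c1 c2 τ ω hN n h j (by omega)
    have e4 : (2 + (j : ℝ) / N + n) ^ (2 * h * n) ≤ Y := by
      rw [hY]
      refine pow_le_pow_left₀ (by positivity) ?_ _
      have : (j : ℝ) / N ≤ (M0 : ℝ) / N := by
        refine div_le_div_of_nonneg_right ?_ hN0.le
        exact_mod_cast hj.le
      linarith
    have e5 : Y⁻¹ ≤ Rv n h (τ j) := by
      refine le_trans ?_ e3
      exact inv_anti₀ (by positivity) e4
    have hYi : 0 < Y⁻¹ := inv_pos.2 hY0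
    have hA1 : 0 < A ^ (b + 1) := pow_pos hA0 _
    have hB1 : 0 < B ^ (b + 1) := pow_pos hB0 _
    have e6 : c1 * Y⁻¹ * A ^ (b + 1) * B ^ (b + 1) ≤
        c1 * Rv n h (τ j) * (∏ l ∈ (Finset.range M).erase j, |yv n (τ j) - yv n (τ l)|) ^ (b + 1) *
        (∏ l ∈ (Finset.range M0).erase j, |yv n (τ j) - yv n (τ l)|) ^ (b + 1) := by
      have f1 : c1 * Y⁻¹ ≤ c1 * Rv n h (τ j) := mul_le_mul_of_nonneg_left e5 hc1.le
      have f0 : 0 ≤ c1 * Rv n h (τ j) := le_trans (by positivity) f1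
      have f2 : c1 * Y⁻¹ * A ^ (b + 1) ≤ c1 * Rv n h (τ j) *
          (∏ l ∈ (Finset.range M).erase j, |yv n (τ j) - yv n (τ l)|) ^ (b + 1) :=
        mul_le_mul f1 e1' hA1.le f0
      exact mul_le_mul f2 e2' hB1.le (le_trans (by positivity) f2)
    have e7 : X * Y / (c1 * A ^ (b + 1) * B ^ (b + 1)) =
        X / (c1 * Y⁻¹ * A ^ (b + 1) * B ^ (b + 1)) := by
      field_simp
    rw [e7]
    exact div_le_div₀ hX0 hTX (by positivity) e6
  have hsum := Finset.sum_le_sum hterm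
  rw [Finset.sum_const, Finset.card_range, nsmul_eq_mul] at hsum
  have := mul_le_mul_of_nonneg_left hsum hPW
  linarith

end Run7.h795.UW
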