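import Pool.Agent.Run7.h795.UW.Fin
import Pool.Agent.Run7.h795.UW.Fin2
import Pool.Agent.Run7.h795.UW.VN
import Pool.Agent.Run7.h795.UW.VA
import Pool.Agent.Run7.h795.UW.N2
import Pool.Agent.Run7.h795.UW.A2
import Pool.Agent.Run7.h795.UW.F2

/-!
# Simultaneous approximation and rational subspaces in windows: unconditional
-/

set_option autoImplicit false

open Polynomial Pool.Agent.H337R2 Filter Topology

namespace Run7.h795.UW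

theorem z_vn : S_VN := t_vn Pool.Agent.W165.OZ.t_hk t_c2 Pool.Agent.W165.OZ.t_tb Pool.Agent.W165.OZ.t_rl
  Pool.Agent.W165.OZ.t_pi t_n2

theorem z_m2 : S_M2 :=
  t_m2 Pool.Agent.W165.OZ.t_we Pool.Agent.W940.OZ.t_no t_rm t_pe t_es2 z_vn t_va t_a2 t_p2

/-- **Simultaneous approximation in windows.** -/
theorem z_sim : ∃ K0 : ℕ, ∀ K ≥ K0, ∀ s : ℕ, Odd s → ∀ D : ℕ, 1 ≤ D →
    (D : ℝ) ≤ (1 / 10000) * Real.log (Real.log K) → ∃ q0 : ℕ, ∀ q : ℕ, q0 ≤ q →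
    (1 / 10000) / D * Real.sqrt (K * Real.log (Real.log K) / Real.log K) ≤
      (Set.ncard {j : ℕ | s < j ∧ j ≤ K * s ∧ Odd j ∧ ∀ p : ℤ,
        (q : ℝ) ^ (-(1 / (D : ℝ))) ≤ |(q : ℝ) * (∑' n : ℕ, 1 / ((n : ℝ) + 1) ^ j) - p|} : ℝ) :=
  w_sim z_m2 t_f2

/-- **Rational subspaces in windows.** -/
theorem z_sub : ∃ K0 : ℕ, ∀ K ≥ K0, ∀ s : ℕ, Odd s → ∀ D : ℕ, 1 ≤ D →
    (D : ℝ) ≤ (1 / 20000) * Real.log (Real.log K) →
    ∀ V : Submodule ℚ ℝ, FiniteDimensional ℚ V → Module.finrank ℚ V ≤ D →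
    (1 / 20000) / D * Real.sqrt (K * Real.log (Real.log K) / Real.log K) ≤
      (Set.ncard {j : ℕ | s < j ∧ j ≤ K * s ∧ Odd j ∧ (∑' n : ℕ, 1 / ((n : ℝ) + 1) ^ j) ∉ V} : ℝ) :=
  w_sub z_m2 t_f2

end Run7.h795.UW
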