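import Pool.Agent.Run7.h795.UW.Maj
import Pool.Agent.W165.OZ.CO
import Pool.Agent.W165.OZ.TB

/-!
# The core of the non-vanishing argument
-/

set_option autoImplicit false

open Polynomial Pool.Agent.H337R2 Pool.Agent.W165.OZ Filter Topology

namespace Run7.h795.UW

noncomputable section

/-! ### Partial fractions with real poles -/

/-- `∏_{l ∈ s} (X - y_l)^σ` -/
def GG (y : ℕ → ℝ) (σ : ℕ) (s : Finset ℕ) : ℝ[X] := ∏ l ∈ s, (X - C (y l)) ^ σ

lemma GG_monic (y : ℕ → ℝ) (σ : ℕ) (s : Finset ℕ) : (GG y σ s).Monic :=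
  Polynomial.monic_prod_of_monic _ _ fun _ _ => (Polynomial.monic_X_sub_C _).pow _

lemma GG_natDegree (y : ℕ → ℝ) (σ : ℕ) (s : Finset ℕ) : (GG y σ s).natDegree = s.card * σ := by
  unfold GG
  rw [Polynomial.natDegree_prod_of_monic _ _ fun _ _ => (Polynomial.monic_X_sub_C _).pow _]
  rw [Finset.sum_congr rfl fun m _ => by
    rw [(Polynomial.monic_X_sub_C (y m)).natDegree_pow, Polynomial.natDegree_X_sub_C, mul_one]]
  rw [Finset.sum_const, smul_eq_mul]

lemma GG_erase (y : ℕ → ℝ) (σ : ℕ) {s : Finset ℕ} {k : ℕ} (hk : k ∈ s) :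
    GG y σ s = (X - C (y k)) ^ σ * GG y σ (s.erase k) := by
  unfold GG
  rw [← Finset.mul_prod_erase s _ hk]

theorem pf_real (y : ℕ → ℝ) (hy : Function.Injective y) (σ : ℕ) (s : Finset ℕ) (P : ℝ[X])
    (hdeg : P.degree < (GG y σ s).degree) :
    ∃ c : ℕ → ℕ → ℝ, P = ∑ k ∈ s, ∑ j ∈ Finset.range σ,
      C (c k j) * ((X - C (y k)) ^ j * GG y σ (s.erase k)) := by
  obtain ⟨q, r, hr, hf⟩ := Polynomial.eq_quo_mul_prod_pow_add_sum_rem_mul_prod_pow (s := s) P
    (g := fun m : ℕ => X - C (y m)) (fun i _ => Polynomial.monic_X_sub_C _)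
    (fun i _ j _ hij => Polynomial.isCoprime_X_sub_C_of_isUnit_sub (by
      rw [isUnit_iff_ne_zero, sub_ne_zero]
      exact fun h => hij (hy h))) (fun _ => σ)
  have hdeg1 : ∀ m : ℕ, (X - C (y m)).degree = 1 := fun m => Polynomial.degree_X_sub_C _
  have hrc : ∀ k ∈ s, ∀ j, r k j = C ((r k j).coeff 0) := by
    intro k hk j
    apply Polynomial.eq_C_of_degree_le_zero
    have := hr k hk j
    rw [hdeg1] at this
    exact Nat.WithBot.lt_one_iff_le_zero.1 this
  let A : ℕ → ℕ → ℝ := fun k j => if h : j < σ then (r k ⟨j, h⟩).coeff 0 else 0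
  have hsum : ∑ k ∈ s, ∑ j : Fin σ, r k j * (X - C (y k)) ^ j.1 *
      ∏ m ∈ s.erase k, (X - C (y m)) ^ σ
      = ∑ k ∈ s, ∑ j ∈ Finset.range σ,
      C (A k j) * ((X - C (y k)) ^ j * GG y σ (s.erase k)) := by
    apply Finset.sum_congr rfl
    intro k hk
    rw [← Fin.sum_univ_eq_sum_range (fun j => C (A k j) * ((X - C (y k)) ^ j * GG y σ (s.erase k)))]
    apply Finset.sum_congr rfl
    intro j _
    have : A k j.1 = (r k j).coeff 0 := by
      simp [A]
    rw [this, ← hrc k hk j, mul_assoc]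
    rfl
  rw [hsum] at hf
  change P = q * GG y σ s + _ at hf
  have hq : q = 0 := by
    by_contra hq0
    have h1 : (q * GG y σ s).degree < (GG y σ s).degree := by
      have : q * GG y σ s = P - ∑ k ∈ s, ∑ j ∈ Finset.range σ,
          C (A k j) * ((X - C (y k)) ^ j * GG y σ (s.erase k)) := by
        rw [hf]; ring
      rw [this]
      refine lt_of_le_of_lt (Polynomial.degree_sub_le _ _) (max_lt hdeg ?_)
      refine lt_of_le_of_lt (Polynomial.degree_sum_le _ _) ?_
      rw [Finset.sup_lt_iff (by rw [bot_lt_iff_ne_bot, Polynomial.degree_ne_bot]; exact (GG_monic _ _ s).ne_zero)]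
      intro k hk
      refine lt_of_le_of_lt (Polynomial.degree_sum_le _ _) ?_
      rw [Finset.sup_lt_iff (by rw [bot_lt_iff_ne_bot, Polynomial.degree_ne_bot]; exact (GG_monic _ _ s).ne_zero)]
      intro j hj
      rw [Finset.mem_range] at hj
      have hm : ((X - C (y k)) ^ j * GG y σ (s.erase k)).Monic :=
        ((Polynomial.monic_X_sub_C _).pow _).mul (GG_monic _ _ _)
      refine lt_of_le_of_lt ((Polynomial.degree_mul_le _ _).trans (add_le_of_nonpos_left Polynomial.degree_C_le)) ?_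
      rw [GG_erase y σ hk]
      have hm2 : ((X - C (y k)) ^ σ * GG y σ (s.erase k)).Monic :=
        ((Polynomial.monic_X_sub_C _).pow _).mul (GG_monic _ _ _)
      rw [Polynomial.degree_eq_natDegree hm.ne_zero, Polynomial.degree_eq_natDegree hm2.ne_zero,
        ((Polynomial.monic_X_sub_C _).pow _).natDegree_mul (GG_monic _ _ _),
        ((Polynomial.monic_X_sub_C _).pow _).natDegree_mul (GG_monic _ _ _),
        (Polynomial.monic_X_sub_C _).natDegree_pow, (Polynomial.monic_X_sub_C _).natDegree_pow,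
        Polynomial.natDegree_X_sub_C]
      exact_mod_cast (by omega : j * 1 + (GG y σ (s.erase k)).natDegree < σ * 1 + (GG y σ (s.erase k)).natDegree)
    rw [Polynomial.degree_mul] at h1
    have h2 : (GG y σ s).degree ≠ ⊥ := by rw [Polynomial.degree_ne_bot]; exact (GG_monic _ _ s).ne_zero
    have h3 : 0 ≤ q.degree := Polynomial.zero_le_degree_iff.2 hq0
    have h4 : (GG y σ s).degree ≤ q.degree + (GG y σ s).degree := le_add_of_nonneg_left h3
    exact absurd h1 (not_lt.2 h4)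
  rw [hq, zero_mul, zero_add] at hf
  exact ⟨A, hf⟩

/-! ### Triangular systems -/

lemma tri_inv (b : ℕ) (c h : ℕ → ℝ) (A0 W X : ℝ) (hA : 0 < A0) (hW : 1 ≤ W)
    (h0 : |h 0| = A0) (hh : ∀ a ≤ b, |h a| ≤ A0 * W ^ a)
    (hT : ∀ i ≤ b, |∑ i' ∈ Finset.range (i + 1), c i' * h (i - i')| ≤ X) :
    ∀ i ≤ b, |c i| ≤ X / A0 * (2 * W) ^ i := by
  intro i
  induction i using Nat.strong_induction_on with
  | _ i ih =>
    intro hi
    have hX : 0 ≤ X := (abs_nonneg _).trans (hT i hi)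
    have h1 := hT i hi
    rw [Finset.sum_range_succ, Nat.sub_self] at h1
    have h2 : |c i| * A0 ≤ X + ∑ i' ∈ Finset.range i, |c i'| * |h (i - i')| := by
      rw [← h0, ← abs_mul]
      have h3 : c i * h 0 = (∑ i' ∈ Finset.range i, c i' * h (i - i') + c i * h 0) -
        ∑ i' ∈ Finset.range i, c i' * h (i - i') := by ring
      rw [h3]
      refine (abs_sub _ _).trans (add_le_add h1 ?_)
      refine (Finset.abs_sum_le_sum_abs _ _).trans (Finset.sum_le_sum fun i' _ => ?_)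
      rw [abs_mul]
    have h3 : ∑ i' ∈ Finset.range i, |c i'| * |h (i - i')| ≤ X * W ^ i * (2 ^ i - 1) := by
      have h4 : ∀ i' ∈ Finset.range i, |c i'| * |h (i - i')| ≤ X * W ^ i * 2 ^ i' := by
        intro i' hi'
        rw [Finset.mem_range] at hi'
        have e1 := ih i' hi' (by omega)
        have e2 := hh (i - i') (by omega)
        have e3 : W ^ i = W ^ i' * W ^ (i - i') := by
          rw [← pow_add]; congr 1; omega
        calc |c i'| * |h (i - i')| ≤ (X / A0 * (2 * W) ^ i') * (A0 * W ^ (i - i')) :=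
              mul_le_mul e1 e2 (abs_nonneg _) (by positivity)
          _ = X * W ^ i * 2 ^ i' := by
              rw [mul_pow, e3]
              field_simp
      refine (Finset.sum_le_sum h4).trans (le_of_eq ?_)
      rw [← Finset.mul_sum]
      congr 1
      have := geom_sum_eq (show (2 : ℝ) ≠ 1 by norm_num) i
      rw [this]
      norm_num
    have hWi : 1 ≤ W ^ i := one_le_pow₀ hW
    have h4 : |c i| * A0 ≤ X * (2 * W) ^ i := by
      rw [mul_pow]
      nlinarith [mul_nonneg hX (sub_nonneg.2 hWi)]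
    rw [div_mul_eq_mul_div, le_div_iff₀ hA]
    exact h4

/-! ### The functional -/

section

variable {N : ℕ} {δ c1 c2 : ℝ} {τ ω : ℕ → ℝ} {n h b : ℕ} {μ : ℕ → ℝ}

lemma hasSum_L (hM : Mom n h b τ ω μ) (P : ℝ[X]) (hP : P.natDegree + 2 ≤ h * n) :
    HasSum (fun i => ω i * Dv n h b (τ i) P) (Lf μ P) := by
  rw [Lf_apply μ P (P.natDegree + 1) (Nat.lt_succ_self _)]
  have h1 : (fun i => ω i * Dv n h b (τ i) P) = fun i =>
      ∑ k ∈ Finset.range (P.natDegree + 1), P.coeff k * (ω i * Dv n h b (τ i) (X ^ k)) := by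
    funext i
    conv_lhs => rw [P.as_sum_range_C_mul_X_pow]
    rw [Dv_sum, Finset.mul_sum]
    refine Finset.sum_congr rfl fun k _ => ?_
    rw [Dv_C_mul]
    ring
  rw [h1]
  refine hasSum_sum fun k hk => (hM k ?_).mul_left _
  have := Finset.mem_range.1 hk
  omega

lemma constCoeff_aeval (t : ℝ) (P : ℝ[X]) :
    PowerSeries.coeff 0 (Polynomial.aeval (ys n t) P) = P.eval (yv n t) := by
  rw [PowerSeries.coeff_zero_eq_constantCoeff_apply]
  have h1 : (PowerSeries.constantCoeff (R := ℝ)) (Polynomial.aeval (ys n t) P) =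
      Polynomial.eval₂ ((PowerSeries.constantCoeff (R := ℝ)).comp (algebraMap ℝ (PowerSeries ℝ)))
        (PowerSeries.constantCoeff (ys n t)) P := by
    rw [Polynomial.aeval_def, Polynomial.hom_eval₂]
  rw [h1]
  have h2 : (PowerSeries.constantCoeff (R := ℝ)).comp (algebraMap ℝ (PowerSeries ℝ)) = RingHom.id ℝ := by
    ext x
    simp
  have h3 : PowerSeries.constantCoeff (ys n t) = yv n t := by
    unfold ys yv
    simp
  rw [h2, h3]
  rfl

lemma constCoeff_Rs (t : ℝ) : PowerSeries.coeff 0 (Rs n h t) = Rv n h t := by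
  unfold Rs Rv
  rw [PowerSeries.coeff_zero_eq_constantCoeff_apply, map_mul, map_pow, map_prod]
  have h1 : ∀ a : ℝ, PowerSeries.constantCoeff (ir a) = a⁻¹ := by
    intro a
    rw [← PowerSeries.coeff_zero_eq_constantCoeff_apply]
    simp [ir]
  simp only [h1]
  rw [Finset.prod_inv_distrib, inv_pow, div_eq_mul_inv]
  simp

/-- the functional on multiples of powers of `X - y(t)` -/
lemma Dv_pow (t : ℝ) (G : ℝ[X]) (k : ℕ) (hk : k ≤ b) :
    Dv n h b t ((X - C (yv n t)) ^ k * G) =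
      PowerSeries.coeff (b - k) (Rs n h t * ((PowerSeries.X + PowerSeries.C (t + t + ((n : ℝ) - 1))) ^ k *
        Polynomial.aeval (ys n t) G)) := by
  unfold Dv
  rw [map_mul (Polynomial.aeval (ys n t)), map_pow, map_sub, Polynomial.aeval_X, Polynomial.aeval_C]
  change PowerSeries.coeff b (Rs n h t * ((ys n t - PowerSeries.C (yv n t)) ^ k * _)) = _
  rw [ys_sub, sub_self, map_zero, add_zero, mul_pow, mul_assoc, mul_left_comm,
    PowerSeries.coeff_X_pow_mul', if_pos hk]

/-- the coefficients of the triangular system -/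
def hq (n h b : ℕ) (t : ℝ) (G : ℝ[X]) (a : ℕ) : ℝ :=
  PowerSeries.coeff a (Rs n h t * ((PowerSeries.X + PowerSeries.C (t + t + ((n : ℝ) - 1))) ^ (b - a) *
    Polynomial.aeval (ys n t) G))

lemma hq_zero (t : ℝ) (G : ℝ[X]) (hn : 1 ≤ n) (ht : 1 ≤ t) : |hq n h b t G 0| =
    Rv n h t * (t + t + ((n : ℝ) - 1)) ^ b * |G.eval (yv n t)| := by
  have hn1 : (1 : ℝ) ≤ (n : ℝ) := by exact_mod_cast hn
  have h1 : hq n h b t G 0 = Rv n h t * ((t + t + ((n : ℝ) - 1)) ^ b * G.eval (yv n t)) := by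
    unfold hq
    rw [← constCoeff_Rs, ← constCoeff_aeval (n := n)]
    simp only [PowerSeries.coeff_zero_eq_constantCoeff_apply, map_mul, map_pow, map_add,
      PowerSeries.constantCoeff_X, PowerSeries.constantCoeff_C, Nat.sub_zero, zero_add]
  rw [h1, abs_mul, abs_mul, abs_of_pos (Rv_pos' hn ht), abs_of_nonneg (pow_nonneg (by linarith) b)]
  ring

lemma hq_bound (t : ℝ) (G : ℝ[X]) (e a : ℕ) (hn : 1 ≤ n) (ht : 1 ≤ t) (hδ : 0 < δ) (hδ1 : δ ≤ 1)
    (he : e ≤ 2 * h * n) (hG : Mj (1 / δ) e |G.eval (yv n t)| (Polynomial.aeval (ys n t) G)) (ha : a ≤ b) :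
    |hq n h b t G a| ≤ (Rv n h t * (t + t + ((n : ℝ) - 1)) ^ b * |G.eval (yv n t)|) *
      ((4 * h * n + b + 1) / δ) ^ a := by
  have hn1 : (1 : ℝ) ≤ (n : ℝ) := by exact_mod_cast hn
  have hρ : 1 ≤ 1 / δ := by rw [le_div_iff₀ hδ]; linarith
  have hρ0 : 0 ≤ 1 / δ := by linarith
  have hR := (Rv_pos' (h := h) hn ht).le
  have hy1 : 1 ≤ t + t + ((n : ℝ) - 1) := by linarith
  obtain ⟨y', hy'⟩ : ∃ y' : ℝ, y' = t + t + ((n : ℝ) - 1) := ⟨_, rfl⟩
  rw [← hy'] at hy1
  have h1 : Mj (1 / δ) ((b - a) * 1) (y' ^ (b - a)) ((PowerSeries.X + PowerSeries.C y') ^ (b - a)) := by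
    have := Mj.linX (ρ := 1 / δ) (a := y') hρ0 (by rw [abs_of_pos (by linarith)]; nlinarith)
    rw [abs_of_pos (by linarith)] at this
    exact Mj.pow hρ0 (by linarith) this _
  have h2 := Mj.mul hρ0 hR (Mj_Rs n h t (1 / δ) hn ht hρ) (Mj.mul hρ0 (by positivity) h1 hG) a
  unfold hq
  rw [← hy']
  refine h2.trans ?_
  have h3 : cf (2 * h * n + 1 + ((b - a) * 1 + e)) a ≤ (4 * h * n + b + 1) ^ a := by
    refine (cf_le _ _).trans (pow_le_pow_left₀ (by positivity) ?_ a)
    have h4 : 2 * h * n + 1 + ((b - a) * 1 + e) + a ≤ 4 * h * n + b + 1 := by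
      have : 4 * h * n = 2 * h * n + 2 * h * n := by ring
      omega
    exact_mod_cast h4
  have h4 : y' ^ (b - a) ≤ y' ^ b := pow_le_pow_right₀ hy1 (Nat.sub_le _ _)
  have hc := cf_nonneg (2 * h * n + 1 + ((b - a) * 1 + e)) a
  have h5 : (1 / δ) ^ a * cf (2 * h * n + 1 + ((b - a) * 1 + e)) a ≤ ((4 * h * n + b + 1) / δ) ^ a := by
    calc (1 / δ) ^ a * cf (2 * h * n + 1 + ((b - a) * 1 + e)) a ≤
        (1 / δ) ^ a * (4 * h * n + b + 1) ^ a := mul_le_mul_of_nonneg_left h3 (by positivity)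
      _ = _ := by rw [← mul_pow]; congr 1; ring
  calc Rv n h t * (y' ^ (b - a) * |G.eval (yv n t)|) *
        ((1 / δ) ^ a * cf (2 * h * n + 1 + ((b - a) * 1 + e)) a)
      ≤ (Rv n h t * y' ^ b * |G.eval (yv n t)|) * ((4 * h * n + b + 1) / δ) ^ a := by
        apply mul_le_mul _ h5 (by positivity) (by positivity)
        rw [mul_assoc]
        exact mul_le_mul_of_nonneg_left (mul_le_mul_of_nonneg_right h4 (abs_nonneg _)) hR

lemma Dv_hq (t : ℝ) (G : ℝ[X]) (a : ℕ) (ha : a ≤ b) :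
    Dv n h b t ((X - C (yv n t)) ^ (b - a) * G) = hq n h b t G a := by
  rw [Dv_pow t G (b - a) (Nat.sub_le _ _)]
  unfold hq
  rw [Nat.sub_sub_self ha]

lemma tau_gap (hN : Nodes N δ c1 c2 τ ω) {j l : ℕ} (h : j ≠ l) : δ ≤ |τ j - τ l| := by
  have hm := (Pool.Agent.W165.OZ.CO.tau_mono hN).monotone
  rcases lt_or_gt_of_ne h with h1 | h1
  · have h2 := hN.gap j
    have h3 : τ (j + 1) ≤ τ l := hm h1
    rw [abs_sub_comm, le_abs]
    left; linarith
  · have h2 := hN.gap l
    have h3 : τ (l + 1) ≤ τ j := hm h1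
    rw [le_abs]
    left; linarith

/-- the majorant of `∏ (y - y_l)^σ` at a node -/
lemma Mj_GG (hN : Nodes N δ c1 c2 τ ω) (hn : 1 ≤ n) (σ j : ℕ) (s : Finset ℕ) (hs : j ∉ s) :
    Mj (1 / δ) (s.card * (σ * (1 + 1))) (|(GG (fun l => yv n (τ l)) σ s).eval (yv n (τ j))|)
      (Polynomial.aeval (ys n (τ j)) (GG (fun l => yv n (τ l)) σ s)) := by
  have hn1 : (1 : ℝ) ≤ (n : ℝ) := by exact_mod_cast hn
  have hδ := hN.hδ
  have hρ0 : 0 ≤ 1 / δ := by positivity
  have hρ1 : 1 ≤ 1 / δ := by rw [le_div_iff₀ hδ]; linarith [hN.hδ1]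
  unfold GG
  rw [Polynomial.eval_prod, Finset.abs_prod, map_prod]
  apply Mj.prod s _ _ hρ0 (fun i _ => abs_nonneg _)
  intro l hl
  have hjl : j ≠ l := fun h => hs (h ▸ hl)
  rw [Polynomial.eval_pow, Polynomial.eval_sub, Polynomial.eval_X, Polynomial.eval_C, abs_pow, map_pow,
    map_sub, Polynomial.aeval_X, Polynomial.aeval_C]
  apply Mj.pow hρ0 (abs_nonneg _)
  change Mj (1 / δ) (1 + 1) _ (ys n (τ j) - PowerSeries.C (yv n (τ l)))
  rw [ys_sub]
  have e : |yv n (τ j) - yv n (τ l)| = |τ j - τ l| * |τ j + τ l + ((n : ℝ) - 1)| := by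
    rw [← abs_mul]
    congr 1
    unfold yv
    ring
  rw [e]
  have t1 := Pool.Agent.W165.OZ.CO.tau_gt hN j
  have t2 := Pool.Agent.W165.OZ.CO.tau_gt hN l
  apply Mj.mul hρ0 (abs_nonneg _)
  · apply Mj.linX hρ0
    rw [mul_one_div, le_div_iff₀ hδ, one_mul]
    exact tau_gap hN hjl
  · apply Mj.linX hρ0
    rw [abs_of_pos (by linarith)]
    nlinarith

/-- the majorant of `∏ (y - y_l)^σ` at a later node -/
lemma MY_GG (hN : Nodes N δ c1 c2 τ ω) (hn : 1 ≤ n) (σ l : ℕ) (s : Finset ℕ) (hs : ∀ i ∈ s, i ≤ l) :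
    MY n (τ l) (s.card * (σ * 1)) (GG (fun l => yv n (τ l)) σ s) := by
  have t1 := Pool.Agent.W165.OZ.CO.tau_gt hN l
  unfold GG
  apply MY.prod _ _ hn t1.le
  intro i hi
  apply MY.pow hn t1.le
  apply MY.lin hn t1.le
  · linarith [Pool.Agent.W165.OZ.CO.y_ge hN hn i]
  · exact (Pool.Agent.W165.OZ.CO.y_mono hN hn).monotone (hs i hi)

end

lemma GG_eval_abs (y : ℕ → ℝ) (σ : ℕ) (s : Finset ℕ) (x : ℝ) :
    |(GG y σ s).eval x| = (∏ l ∈ s, |x - y l|) ^ σ := by
  unfold GG
  rw [Polynomial.eval_prod, Finset.abs_prod, ← Finset.prod_pow]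
  refine Finset.prod_congr rfl fun l _ => ?_
  rw [Polynomial.eval_pow, Polynomial.eval_sub, Polynomial.eval_X, Polynomial.eval_C, abs_pow]

lemma GG_dvd (y : ℕ → ℝ) (σ : ℕ) (s : Finset ℕ) {l : ℕ} (hl : l ∈ s) : (X - C (y l)) ^ σ ∣ GG y σ s := by
  rw [GG_erase y σ hl]
  exact Dvd.intro _ rfl

open Pool.Agent.W165.OZ.CO (tau_gt tau_mono y_mono y_ge L_zero) in
theorem t_co : S_CO := by
  intro N δ c1 c2 τ ω hN n h b hn hh μ hM M M0 hM0 hMM hmn Q hQ0 hQd hQ
  have hc1 := hN.hc1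
  have hδ := hN.hδ
  have hδ1 := hN.hδ1
  have ht1 : ∀ i, 1 ≤ τ i := fun i => (tau_gt hN i).le
  obtain ⟨y, hydef⟩ : ∃ y : ℕ → ℝ, y = fun i => yv n (τ i) := ⟨_, rfl⟩
  have hyi : ∀ i, yv n (τ i) = y i := fun i => by rw [hydef]
  have hmono : StrictMono y := by
    rw [hydef]; exact y_mono hN hn
  have hy1 : ∀ i, 1 ≤ y i := fun i => by
    rw [← hyi]; exact y_ge hN hn i
  have hR0 : ∀ i, 0 < Rv n h (τ i) := fun i => Rv_pos' hn (ht1 i)
  have hMY : ∀ (l : ℕ) (s : Finset ℕ), (∀ i ∈ s, i ≤ l) → MY n (τ l) (s.card * ((b + 1) * 1)) (GG y (b + 1) s) := by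
    intro l s hs
    rw [hydef]; exact MY_GG hN hn (b + 1) l s hs
  have hMj : ∀ (j : ℕ) (s : Finset ℕ), j ∉ s → Mj (1 / δ) (s.card * ((b + 1) * (1 + 1)))
      (|(GG y (b + 1) s).eval (y j)|) (Polynomial.aeval (ys n (τ j)) (GG y (b + 1) s)) := by
    intro j s hs
    rw [hydef]; exact Mj_GG hN hn (b + 1) j s hs
  have hn1 : (1 : ℝ) ≤ n := by exact_mod_cast hn
  obtain ⟨E, hE⟩ : ∃ E : ℕ, E = ((b + 1) * M - 1) + ((b + 1) * M0 - 1) := ⟨_, rfl⟩
  have hbM0 : (b + 1) * M0 ≤ (b + 1) * M := Nat.mul_le_mul_left _ hMM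
  have hbM1 : (b + 1) ≤ (b + 1) * M0 := Nat.le_mul_of_pos_right _ hM0
  have eM0 : (M0 - 1) * (b + 1) + (b + 1) = (b + 1) * M0 := by
    obtain ⟨m, rfl⟩ : ∃ m, M0 = m + 1 := ⟨M0 - 1, by omega⟩
    rw [Nat.add_sub_cancel]; ring
  have eM : (M - 1) * (b + 1) + (b + 1) = (b + 1) * M := by
    obtain ⟨m, rfl⟩ : ∃ m, M = m + 1 := ⟨M - 1, by omega⟩
    rw [Nat.add_sub_cancel]; ring
  have hE2 : E + 2 ≤ h * n := by omega
  obtain ⟨hYs, -⟩ := Pool.Agent.W165.OZ.t_tb N δ c1 c2 τ ω hN n h M E hn hh hE2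
  rw [← hE]
  simp only [hyi] at hYs ⊢
  obtain ⟨Y, hY⟩ : ∃ Y : ℝ, Y = ∑' i, |ω (i + M)| * (Rv n h (τ (i + M)) * y (i + M) ^ E) := ⟨_, rfl⟩
  rw [← hY]
  -- partial fractions
  obtain ⟨c, hc⟩ := pf_real y hmono.injective (b + 1) (Finset.range M0) Q (by
    rw [Polynomial.degree_eq_natDegree (GG_monic y (b + 1) (Finset.range M0)).ne_zero, GG_natDegree,
      Finset.card_range]
    refine lt_of_le_of_lt Polynomial.degree_le_natDegree ?_
    rw [mul_comm M0]
    exact_mod_cast hQd)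
  obtain ⟨Z, hZ⟩ : ∃ Z : ℝ, Z = ∑ j ∈ Finset.range M0, ∑ i ∈ Finset.range (b + 1), |c j i| := ⟨_, rfl⟩
  have hZ0 : 0 < Z := by
    have h0 : 0 ≤ Z := by
      rw [hZ]
      exact Finset.sum_nonneg fun _ _ => Finset.sum_nonneg fun _ _ => abs_nonneg _
    refine lt_of_le_of_ne h0 fun h1 => hQ0 ?_
    rw [hc]
    refine Finset.sum_eq_zero fun j hj => Finset.sum_eq_zero fun i hi => ?_
    rw [← h1] at hZ
    have h2 := (Finset.sum_eq_zero_iff_of_nonneg (fun j _ => Finset.sum_nonneg fun i _ => abs_nonneg (c j i))).1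
      hZ.symm j hj
    have h3 := (Finset.sum_eq_zero_iff_of_nonneg (fun i _ => abs_nonneg (c j i))).1 h2 i hi
    rw [abs_eq_zero.1 h3, map_zero, zero_mul]
  obtain ⟨W2, hW2⟩ : ∃ W2 : ℝ, W2 = (4 * h * n + b + 1 : ℝ) ^ b := ⟨_, rfl⟩
  have hW20 : 0 < W2 := by rw [hW2]; positivity
  obtain ⟨W, hW⟩ : ∃ W : ℝ, W = (4 * h * n + b + 1 : ℝ) / δ := ⟨_, rfl⟩
  have hW1 : 1 ≤ W := by
    rw [hW, le_div_iff₀ hδ]
    have : (0 : ℝ) ≤ 4 * h * n + b := by positivity
    linarith
  have hPW : PW n h b δ = ((b : ℝ) + 1) * (2 * W) ^ b * W2 := by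
    unfold PW
    rw [hW, hW2]
  rw [hPW]
  -- the test polynomials
  have hexp : ∀ P : ℝ[X], Q * P = ∑ k ∈ Finset.range M0, ∑ i' ∈ Finset.range (b + 1),
      C (c k i') * (((X - C (y k)) ^ i' * GG y (b + 1) ((Finset.range M0).erase k)) * P) := by
    intro P
    conv_lhs => rw [hc]
    rw [Finset.sum_mul]
    refine Finset.sum_congr rfl fun k _ => ?_
    rw [Finset.sum_mul]
    refine Finset.sum_congr rfl fun i' _ => ?_
    ring
  have htail : ∀ j < M0, ∀ i ≤ b, ∀ l, |Dv n h b (τ (l + M)) (Q * ((X - C (y j)) ^ (b - i) *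
      GG y (b + 1) ((Finset.range M).erase j)))| ≤ Z * W2 * (Rv n h (τ (l + M)) * y (l + M) ^ E) := by
    intro j hj i hi l
    rw [hexp, Dv_sum]
    refine (Finset.abs_sum_le_sum_abs _ _).trans ?_
    rw [hZ, Finset.sum_mul, Finset.sum_mul]
    refine Finset.sum_le_sum fun k hk => ?_
    rw [Dv_sum, Finset.sum_mul, Finset.sum_mul]
    refine (Finset.abs_sum_le_sum_abs _ _).trans (Finset.sum_le_sum fun i' hi' => ?_)
    rw [Finset.mem_range] at hk hi'
    rw [Dv_C_mul, abs_mul, mul_assoc |c k i'| W2]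
    apply mul_le_mul_of_nonneg_left _ (abs_nonneg _)
    have hlin : ∀ a, a < M → MY n (τ (l + M)) 1 (X - C (y a)) := by
      intro a ha
      apply MY.lin hn (ht1 _)
      · linarith [hy1 a]
      · rw [hyi]; exact hmono.monotone (by omega)
    have m1 := ((hlin k (by omega)).pow hn (ht1 _) i').mul hn (ht1 _)
      (hMY (l + M) ((Finset.range M0).erase k) (fun a ha => by
        have := Finset.mem_range.1 (Finset.mem_of_mem_erase ha); omega))
    have m2 := ((hlin j (by omega)).pow hn (ht1 _) (b - i)).mul hn (ht1 _)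
      (hMY (l + M) ((Finset.range M).erase j) (fun a ha => by
        have := Finset.mem_range.1 (Finset.mem_of_mem_erase ha); omega))
    have m3 := m1.mul hn (ht1 _) m2
    rw [Finset.card_erase_of_mem (Finset.mem_range.2 hk), Finset.card_range,
      Finset.card_erase_of_mem (Finset.mem_range.2 (by omega : j < M)), Finset.card_range] at m3
    have hK : (i' * 1 + (M0 - 1) * ((b + 1) * 1)) + ((b - i) * 1 + (M - 1) * ((b + 1) * 1)) ≤ E := by
      rw [mul_one, mul_one, mul_one]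
      omega
    have h5 := Dv_bound (h := h) (b := b) hn (ht1 _) (by omega) m3
    refine h5.trans ?_
    rw [← hW2]
    apply mul_le_mul_of_nonneg_left _ hW20.le
    apply mul_le_mul_of_nonneg_left _ (hR0 _).le
    rw [hyi]
    exact pow_le_pow_right₀ (hy1 _) hK
  have hkey : ∀ j < M0, ∀ i ≤ b, |Dv n h b (τ j) (Q * ((X - C (y j)) ^ (b - i) *
      GG y (b + 1) ((Finset.range M).erase j)))| ≤ Z * W2 * Y / c1 := by
    intro j hj i hi
    have hjM : j < M := by omega
    obtain ⟨P, hP⟩ : ∃ P : ℝ[X], P = (X - C (y j)) ^ (b - i) * GG y (b + 1) ((Finset.range M).erase j) := ⟨_, rfl⟩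
    have ht := htail j hj i hi
    rw [← hP] at ht ⊢
    have hPd : P.natDegree < (b + 1) * M := by
      rw [hP, ((Polynomial.monic_X_sub_C _).pow _).natDegree_mul (GG_monic _ _ _),
        (Polynomial.monic_X_sub_C _).natDegree_pow, Polynomial.natDegree_X_sub_C, GG_natDegree,
        Finset.card_erase_of_mem (Finset.mem_range.2 hjM), Finset.card_range, mul_one]
      omega
    have hL : Lf μ (Q * P) = 0 := L_zero Q hQ P hPd
    have hdeg : (Q * P).natDegree + 2 ≤ h * n := by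
      have := natDegree_mul_le (p := Q) (q := P)
      omega
    have h1 := hasSum_L hM (Q * P) hdeg
    rw [hL] at h1
    have h2 := (hasSum_nat_add_iff' M).2 h1
    have h3 : ∑ l ∈ Finset.range M, ω l * Dv n h b (τ l) (Q * P) = ω j * Dv n h b (τ j) (Q * P) := by
      refine Finset.sum_eq_single_of_mem j (Finset.mem_range.2 hjM) fun l hl hlj => ?_
      have h4 : Dv n h b (τ l) (Q * P) = 0 := by
        apply Dv_vanish
        rw [hyi, hP]
        exact Dvd.dvd.mul_left (Dvd.dvd.mul_left (GG_dvd y (b + 1) _ (Finset.mem_erase.2 ⟨hlj, hl⟩)) _) _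
      rw [h4, mul_zero]
    rw [h3, zero_sub] at h2
    have h4 : ‖∑' l, ω (l + M) * Dv n h b (τ (l + M)) (Q * P)‖ ≤
        ∑' l, Z * W2 * (|ω (l + M)| * (Rv n h (τ (l + M)) * y (l + M) ^ E)) := by
      refine tsum_of_norm_bounded (hYs.mul_left _).hasSum fun l => ?_
      rw [norm_mul, Real.norm_eq_abs, Real.norm_eq_abs]
      calc |ω (l + M)| * |Dv n h b (τ (l + M)) (Q * P)| ≤
          |ω (l + M)| * (Z * W2 * (Rv n h (τ (l + M)) * y (l + M) ^ E)) :=
            mul_le_mul_of_nonneg_left (ht l) (abs_nonneg _)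
        _ = _ := by ring
    rw [tsum_mul_left, ← hY, h2.tsum_eq, norm_neg, norm_mul, Real.norm_eq_abs, Real.norm_eq_abs] at h4
    rw [le_div_iff₀ hc1, mul_comm]
    exact (mul_le_mul_of_nonneg_right (hN.wlo j) (abs_nonneg _)).trans h4
  -- the triangular systems
  have hA : ∀ j < M0, 0 < c1 * Rv n h (τ j) * (∏ l ∈ (Finset.range M).erase j, |y j - y l|) ^ (b + 1) *
        (∏ l ∈ (Finset.range M0).erase j, |y j - y l|) ^ (b + 1) := by
    intro j _
    have hPi : ∀ (M : ℕ), 0 < ∏ l ∈ (Finset.range M).erase j, |y j - y l| := fun M =>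
      Finset.prod_pos fun l hl => abs_pos.2 (sub_ne_zero.2 fun h =>
        (Finset.ne_of_mem_erase hl) (hmono.injective h).symm)
    have := hPi M
    have := hPi M0
    have := hR0 j
    positivity
  have hY0 : 0 ≤ Y := by
    rw [hY]
    refine tsum_nonneg fun i => ?_
    have := hR0 (i + M)
    have := hy1 (i + M)
    positivity
  have hcb : ∀ j < M0, ∀ i ≤ b, |c j i| ≤ Z * W2 * Y / (c1 * Rv n h (τ j) *
      (∏ l ∈ (Finset.range M).erase j, |y j - y l|) ^ (b + 1) *
        (∏ l ∈ (Finset.range M0).erase j, |y j - y l|) ^ (b + 1)) * (2 * W) ^ b := by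
    intro j hj i hi
    have hjM : j < M := by omega
    obtain ⟨G, hG⟩ : ∃ G : ℝ[X], G = GG y (b + 1) ((Finset.range M0).erase j) *
      GG y (b + 1) ((Finset.range M).erase j) := ⟨_, rfl⟩
    have hGe : |G.eval (y j)| = (∏ l ∈ (Finset.range M0).erase j, |y j - y l|) ^ (b + 1) *
        (∏ l ∈ (Finset.range M).erase j, |y j - y l|) ^ (b + 1) := by
      rw [hG, Polynomial.eval_mul, abs_mul, GG_eval_abs, GG_eval_abs]
    have hGM : Mj (1 / δ) ((M0 - 1) * ((b + 1) * (1 + 1)) + (M - 1) * ((b + 1) * (1 + 1)))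
        |G.eval (yv n (τ j))| (Polynomial.aeval (ys n (τ j)) G) := by
      rw [hyi, hG, Polynomial.eval_mul, abs_mul, map_mul]
      have g1 := hMj j ((Finset.range M0).erase j) (Finset.notMem_erase _ _)
      have g2 := hMj j ((Finset.range M).erase j) (Finset.notMem_erase _ _)
      rw [Finset.card_erase_of_mem (Finset.mem_range.2 hj), Finset.card_range] at g1
      rw [Finset.card_erase_of_mem (Finset.mem_range.2 hjM), Finset.card_range] at g2
      exact Mj.mul (by positivity) (abs_nonneg _) g1 g2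
    have hte : (M0 - 1) * ((b + 1) * (1 + 1)) + (M - 1) * ((b + 1) * (1 + 1)) ≤ 2 * h * n := by
      have e1 : (M0 - 1) * ((b + 1) * (1 + 1)) = 2 * ((M0 - 1) * (b + 1)) := by ring
      have e2 : (M - 1) * ((b + 1) * (1 + 1)) = 2 * ((M - 1) * (b + 1)) := by ring
      have e3 : 2 * h * n = 2 * (h * n) := by ring
      omega
    obtain ⟨y', hy'⟩ : ∃ y' : ℝ, y' = τ j + τ j + ((n : ℝ) - 1) := ⟨_, rfl⟩
    have hy'1 : 1 ≤ y' := by rw [hy']; linarith [ht1 j]
    have hGpos : 0 < |G.eval (y j)| := by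
      rw [hGe]
      have h6 := hA j hj
      have h7 := hR0 j
      by_contra hcon
      rw [not_lt] at hcon
      have h8 : c1 * Rv n h (τ j) * (∏ l ∈ (Finset.range M).erase j, |y j - y l|) ^ (b + 1) *
          (∏ l ∈ (Finset.range M0).erase j, |y j - y l|) ^ (b + 1) ≤ 0 := by
        calc _ = c1 * Rv n h (τ j) * ((∏ l ∈ (Finset.range M0).erase j, |y j - y l|) ^ (b + 1) *
        (∏ l ∈ (Finset.range M).erase j, |y j - y l|) ^ (b + 1)) := by ring
          _ ≤ 0 := mul_nonpos_of_nonneg_of_nonpos (by positivity) hcon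
      linarith
    have hRj := hR0 j
    have hA0 : 0 < Rv n h (τ j) * y' ^ b * |G.eval (y j)| := by positivity
    have htri := tri_inv b (c j) (hq n h b (τ j) G) (Rv n h (τ j) * y' ^ b * |G.eval (y j)|) W
      (Z * W2 * Y / c1) hA0 hW1
      (by rw [hq_zero (τ j) G hn (ht1 j), hyi, hy'])
      (fun a ha => by
        have := hq_bound (h := h) (τ j) G _ a hn (ht1 j) hδ hδ1 hte hGM ha
        rw [hyi, ← hW, ← hy'] at this
        exact this)
      (fun i hi => by
        have h6 := hkey j hj i hi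
        rw [hexp, Dv_sum, Finset.sum_eq_single_of_mem j (Finset.mem_range.2 hj)] at h6
        · rw [Dv_sum] at h6
          have h7 : ∑ i' ∈ Finset.range (i + 1), c j i' * hq n h b (τ j) G (i - i') =
              ∑ i' ∈ Finset.range (b + 1), Dv n h b (τ j) (C (c j i') *
                (((X - C (y j)) ^ i' * GG y (b + 1) ((Finset.range M0).erase j)) *
                ((X - C (y j)) ^ (b - i) * GG y (b + 1) ((Finset.range M).erase j)))) := by
            have h8 : ∀ i' ∈ Finset.range (b + 1), i' ∉ Finset.range (i + 1) → Dv n h b (τ j) (C (c j i') *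
                (((X - C (y j)) ^ i' * GG y (b + 1) ((Finset.range M0).erase j)) *
                ((X - C (y j)) ^ (b - i) * GG y (b + 1) ((Finset.range M).erase j)))) = 0 := by
              intro i' h9 h10
              rw [Finset.mem_range] at h9 h10
              apply Dv_vanish
              rw [hyi]
              have e : C (c j i') * (((X - C (y j)) ^ i' * GG y (b + 1) ((Finset.range M0).erase j)) *
                ((X - C (y j)) ^ (b - i) * GG y (b + 1) ((Finset.range M).erase j))) =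
                (X - C (y j)) ^ (i' + (b - i)) * (C (c j i') * (GG y (b + 1) ((Finset.range M0).erase j) *
                  GG y (b + 1) ((Finset.range M).erase j))) := by
                rw [pow_add]; ring
              rw [e]
              exact Dvd.dvd.mul_right (pow_dvd_pow _ (by omega)) _
            rw [← Finset.sum_subset (Finset.range_subset_range.2 (by omega : i + 1 ≤ b + 1)) h8]
            refine Finset.sum_congr rfl fun i' hi' => ?_
            rw [Finset.mem_range] at hi'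
            rw [Dv_C_mul, ← Dv_hq (τ j) G (i - i') (by omega), hyi, hG]
            congr 2
            have e : b - (i - i') = i' + (b - i) := by omega
            rw [e, pow_add]
            ring
          rw [h7]
          exact h6
        · intro k hk hkj
          rw [Dv_sum]
          refine Finset.sum_eq_zero fun i' _ => ?_
          apply Dv_vanish
          rw [hyi]
          have h8 := GG_dvd y (b + 1) ((Finset.range M0).erase k)
            (Finset.mem_erase.2 ⟨Ne.symm hkj, Finset.mem_range.2 hj⟩)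
          exact Dvd.dvd.mul_left (Dvd.dvd.mul_right (Dvd.dvd.mul_left h8 _) _) _) i hi
    refine htri.trans ?_
    have h9 : (2 * W) ^ i ≤ (2 * W) ^ b := pow_le_pow_right₀ (by linarith) hi
    apply mul_le_mul _ h9 (by positivity) (div_nonneg (by positivity) (hA j hj).le)
    rw [div_div]
    apply div_le_div_of_nonneg_left (by positivity) (hA j hj)
    have h10 : 1 ≤ y' ^ b := one_le_pow₀ hy'1
    rw [hGe]
    have h11 : 0 < (∏ l ∈ (Finset.range M0).erase j, |y j - y l|) ^ (b + 1) *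
        (∏ l ∈ (Finset.range M).erase j, |y j - y l|) ^ (b + 1) := by rw [← hGe]; exact hGpos
    calc c1 * Rv n h (τ j) * (∏ l ∈ (Finset.range M).erase j, |y j - y l|) ^ (b + 1) *
          (∏ l ∈ (Finset.range M0).erase j, |y j - y l|) ^ (b + 1) =
          c1 * (Rv n h (τ j) * 1 * ((∏ l ∈ (Finset.range M0).erase j, |y j - y l|) ^ (b + 1) *
        (∏ l ∈ (Finset.range M).erase j, |y j - y l|) ^ (b + 1))) := by ring
      _ ≤ _ := by gcongr
  -- conclusion
  have hfin : Z ≤ Z * (((b : ℝ) + 1) * (2 * W) ^ b * W2 * ∑ j ∈ Finset.range M0, Y / (c1 * Rv n h (τ j) *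
      (∏ l ∈ (Finset.range M).erase j, |y j - y l|) ^ (b + 1) *
        (∏ l ∈ (Finset.range M0).erase j, |y j - y l|) ^ (b + 1))) := by
    conv_lhs => rw [hZ]
    rw [Finset.mul_sum, Finset.mul_sum]
    refine Finset.sum_le_sum fun j hj => ?_
    rw [Finset.mem_range] at hj
    refine (Finset.sum_le_sum fun i hi => hcb j hj i (by
      have := Finset.mem_range.1 hi; omega)).trans (le_of_eq ?_)
    rw [Finset.sum_const, Finset.card_range, nsmul_eq_mul]
    push_cast
    ring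
  exact le_of_mul_le_mul_left (by rw [mul_one]; exact hfin) hZ0

end

end Run7.h795.UW
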