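import Pool.Agent.Run7.h795.UW.Stm
import Pool.Agent.W165.OZ.EV
import Pool.Agent.W165.OZ.RM

/-!
# UW-RM: the real moments
-/

open Polynomial Pool.Agent.H337R2 Pool.Agent.W165.OZ Filter Topology

namespace Run7.h795.UW

noncomputable section

namespace RM

lemma map_iv (a : ℚ) : PowerSeries.map (Rat.castHom ℝ) (iv a) = ir (a : ℝ) := by
  ext j
  rw [PowerSeries.coeff_map]
  simp [iv, ir, PowerSeries.coeff_mk]

lemma map_VV (n h : ℕ) (t : ℚ) : PowerSeries.map (Rat.castHom ℝ) (VV (sP n) (mP h) t) =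
    (∏ k ∈ Finset.range n, ir ((t : ℝ) + (k : ℝ))) ^ (2 * h) := by
  unfold VV
  rw [map_prod, ← Finset.prod_pow]
  refine Finset.prod_congr rfl fun k _ => ?_
  rw [map_pow, map_iv]
  push_cast
  rfl

lemma map_TS (n k : ℕ) (t : ℚ) : PowerSeries.map (Rat.castHom ℝ) (TS t (num n (X ^ k))) =
    (PowerSeries.C 2 * PowerSeries.X + PowerSeries.C (2 * (t : ℝ) + ((n : ℝ) - 1))) *
      (ys n (t : ℝ)) ^ k := by
  have h1 : TS t (num n (X ^ k)) = (PowerSeries.C 2 * (PowerSeries.X + PowerSeries.C t) +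
      PowerSeries.C ((n : ℚ) - 1)) * ((PowerSeries.X + PowerSeries.C t) *
      (PowerSeries.X + PowerSeries.C (t + ((n : ℚ) - 1)))) ^ k := by
    unfold num yp
    rw [Polynomial.X_pow_comp]
    simp only [map_mul, map_pow, TS_lin]
    rw [map_add, map_mul, TS_C, TS_C, TS_X]
  rw [h1]
  unfold ys
  simp only [map_mul, map_add, map_pow, PowerSeries.map_C, PowerSeries.map_X, map_sub, map_one,
    map_natCast, map_ofNat, eq_ratCast]
  ring

/-- the value at a rational node -/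
lemma Dv_rat (n h b k : ℕ) (t : ℚ) : Dv n h b (t : ℝ) (X ^ k) =
    ((PowerSeries.coeff b (RS (sP n) (mP h) (num n (X ^ k)) t) : ℚ) : ℝ) := by
  have h1 : PowerSeries.map (Rat.castHom ℝ) (RS (sP n) (mP h) (num n (X ^ k)) t) =
      Rs n h (t : ℝ) * Polynomial.aeval (ys n (t : ℝ)) (X ^ k : ℝ[X]) := by
    unfold RS
    rw [map_mul, map_TS, map_VV, Polynomial.aeval_X_pow]
    unfold Rs
    ring
  unfold Dv
  rw [← h1, PowerSeries.coeff_map]
  rfl

/-- the sum over the nodes with denominator `d` -/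
theorem hasSum_d (n h d b : ℕ) (P : ℚ[X]) (hh : 1 ≤ h) (hd : 1 ≤ d) (hb : Even b)
    (hb2 : 2 ≤ b) (hP : P.natDegree < 2 * h * n) :
    HasSum (fun u : ℕ => ((PowerSeries.coeff b (RS (sP n) (mP h) P (((u : ℚ) + d + 1) / d)) : ℚ) : ℝ))
      (∑ i ∈ Finset.Icc 1 (2 * h), (bc b i : ℝ) * ((((rhoP n h P i * (d : ℚ) ^ (i + b) : ℚ) : ℝ)) * zr (i + b) -
        (((d : ℚ) ^ (i + b) * ∑ k ∈ sP n, pa (sP n) (mP h) P k i * hs (i + b) (d * (k + 1)) : ℚ) : ℝ))) := by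
  have hd0 : (0 : ℝ) < d := by exact_mod_cast hd
  have hdq : (0 : ℚ) < d := by exact_mod_cast hd
  have hdeg : P.degree < (QQ (sP n) (mP h)).degree := by
    rw [Polynomial.degree_eq_natDegree (QQ_monic _ _).ne_zero]
    refine lt_of_le_of_lt Polynomial.degree_le_natDegree ?_
    rw [QQ_natDegree]
    simp only [mP, Finset.sum_const, Finset.card_range, smul_eq_mul]
    have : P.natDegree < n * (2 * h) := by
      rw [mul_comm n]; exact hP
    exact_mod_cast this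
  have hterm : ∀ u : ℕ, ((PowerSeries.coeff b (RS (sP n) (mP h) P (((u : ℚ) + d + 1) / d)) : ℚ) : ℝ) =
      ∑ k ∈ sP n, ∑ i ∈ Finset.Icc 1 (2 * h), (((pa (sP n) (mP h) P k i : ℚ) : ℝ) * (bc b i : ℝ) * (d : ℝ) ^ (i + b)) *
        (1 / ((u : ℝ) + (((d * (k + 1) : ℕ) : ℝ) + 1)) ^ (i + b)) := by
    intro u
    have hne : ∀ m ∈ sP n, (((u : ℚ) + d + 1) / d) + (m : ℚ) ≠ 0 := by
      intro m _; positivity
    rw [coeff_RS (sP n) (mP h) P hdeg _ hne b]
    push_cast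
    refine Finset.sum_congr rfl fun k hk => ?_
    have h1 := sum_pfc_eq (sP n) (mP h) P (2 * h) k le_rfl
      (fun a i => (a : ℝ) * ((-1) ^ b * (Nat.choose (i - 1 + b) (i - 1) : ℝ) /
        (((u : ℝ) + d + 1) / d + k) ^ (i + b))) (by intro i; simp)
    refine h1.trans ?_
    refine Finset.sum_congr rfl fun i _ => ?_
    have e : ((u : ℝ) + d + 1) / d + k = ((u : ℝ) + ((d : ℝ) * (k + 1) + 1)) / d := by
      field_simp
      ring
    have h2 : (0 : ℝ) < (u : ℝ) + ((d : ℝ) * (k + 1) + 1) := by positivity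
    rw [e, div_pow, hb.neg_one_pow, one_mul]
    unfold bc
    field_simp
  simp only [hterm]
  have hS : ∀ k ∈ sP n, HasSum (fun u : ℕ => ∑ i ∈ Finset.Icc 1 (2 * h),
      (((pa (sP n) (mP h) P k i : ℚ) : ℝ) * (bc b i : ℝ) * (d : ℝ) ^ (i + b)) *
        (1 / ((u : ℝ) + (((d * (k + 1) : ℕ) : ℝ) + 1)) ^ (i + b)))
      (∑ i ∈ Finset.Icc 1 (2 * h), (((pa (sP n) (mP h) P k i : ℚ) : ℝ) * (bc b i : ℝ) * (d : ℝ) ^ (i + b)) *
        (zr (i + b) - ((hs (i + b) (d * (k + 1)) : ℚ) : ℝ))) := by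
    intro k _
    exact hasSum_sum fun i _ => (hasSum_tail (by omega) (d * (k + 1))).mul_left _
  have hT := hasSum_sum hS
  have hE : ∑ i ∈ Finset.Icc 1 (2 * h), (bc b i : ℝ) * ((((rhoP n h P i * (d : ℚ) ^ (i + b) : ℚ) : ℝ)) * zr (i + b) -
        (((d : ℚ) ^ (i + b) * ∑ k ∈ sP n, pa (sP n) (mP h) P k i * hs (i + b) (d * (k + 1)) : ℚ) : ℝ)) =
      ∑ k ∈ sP n, ∑ i ∈ Finset.Icc 1 (2 * h), (((pa (sP n) (mP h) P k i : ℚ) : ℝ) * (bc b i : ℝ) * (d : ℝ) ^ (i + b)) *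
        (zr (i + b) - ((hs (i + b) (d * (k + 1)) : ℚ) : ℝ)) := by
    rw [Finset.sum_comm]
    refine Finset.sum_congr rfl fun i _ => ?_
    unfold rhoP
    push_cast
    rw [Finset.sum_mul, Finset.sum_mul, Finset.mul_sum, ← Finset.sum_sub_distrib, Finset.mul_sum]
    refine Finset.sum_congr rfl fun k _ => ?_
    ring
  rw [hE]
  exact hT

end RM

open RM in
theorem t_rm : S_RM := by
  intro n h B b w hn _ hh hb hb2 k hk
  have hdeg : (num n (X ^ k)).natDegree < 2 * h * n := by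
    have := rm_natDegree n k
    have h3 : 2 * h * n = 2 * (h * n) := by ring
    omega
  set P := num n (X ^ k) with hP
  have hS : ∀ d ∈ Finset.Icc 1 B, HasSum (fun u : ℕ => Dv n h b (((u : ℝ) + d + 1) / d) (X ^ k))
      (∑ i ∈ Finset.Icc 1 (2 * h), (bc b i : ℝ) * ((((rhoP n h P i * (d : ℚ) ^ (i + b) : ℚ) : ℝ)) * zr (i + b) -
        (((d : ℚ) ^ (i + b) * ∑ k ∈ sP n, pa (sP n) (mP h) P k i * hs (i + b) (d * (k + 1)) : ℚ) : ℝ))) := by
    intro d hd
    have h3 := hasSum_d n h d b P hh (Finset.mem_Icc.1 hd).1 hb hb2 hdeg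
    refine h3.congr_fun ?_ |> fun h => h
    intro u
    rw [hP, ← Dv_rat]
    push_cast
    rfl
  refine ⟨fun d hd => (hS d hd).summable, ?_⟩
  rw [Finset.sum_congr rfl fun d hd => by rw [(hS d hd).tsum_eq]]
  unfold mo La
  rw [← hP]
  rw [Finset.sum_congr (s₁ := Finset.Icc 1 B) rfl fun d _ => Finset.mul_sum _ _ _]
  rw [Finset.sum_comm]
  apply Finset.sum_congr rfl
  intro i hi
  obtain ⟨hi1, hi2⟩ := Finset.mem_Icc.1 hi
  have h5 : ((rhoP n h P i : ℚ) : ℝ) * zz (i + b) = ((rhoP n h P i : ℚ) : ℝ) * zr (i + b) := by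
    rcases Nat.even_or_odd i with he | ho
    · rw [hP, t_ev n h (X ^ k) i (by omega) he hi1]
      simp
    · unfold zz
      rw [if_pos ⟨ho.add_even hb, by omega⟩]
  simp only [eq_ratCast]
  have h6 : ((rhoP n h P i * (WW B w (i + b) : ℚ) : ℚ) : ℝ) * zz (i + b) =
      ∑ d ∈ Finset.Icc 1 B, (w d : ℝ) * (((rhoP n h P i * (d : ℚ) ^ (i + b) : ℚ) : ℝ) * zr (i + b)) := by
    unfold WW
    push_cast
    rw [mul_assoc, mul_comm (∑ d ∈ Finset.Icc 1 B, (w d : ℝ) * (d : ℝ) ^ (i + b)) (zz (i + b)), ← mul_assoc, h5,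
      Finset.mul_sum]
    apply Finset.sum_congr rfl
    intro d _
    ring
  have h7 : ((bet n h B b w P i : ℚ) : ℝ) = ∑ d ∈ Finset.Icc 1 B, (w d : ℝ) *
      (((d : ℚ) ^ (i + b) * ∑ k ∈ sP n, pa (sP n) (mP h) P k i * hs (i + b) (d * (k + 1)) : ℚ) : ℝ) := by
    unfold bet
    push_cast
    apply Finset.sum_congr rfl
    intro d _
    ring
  rw [h6, h7, ← Finset.sum_sub_distrib, Finset.mul_sum]
  apply Finset.sum_congr rfl
  intro d _
  push_cast
  ring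

end

end Run7.h795.UW
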