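import Pool.Agent.Run7.h795.UW.Stm
import Pool.Agent.W165.OZ.SF
import Pool.Agent.W165.OZ.PO
import Pool.Agent.W165.OZ.PJ
import Pool.Agent.W165.OZ.HJ
import Pool.Agent.W165.OZ.LA

/-!
# Irrational odd zeta values in windows: integrality at the primes `p > n`
-/

open Polynomial Pool.Agent.H337R2 Pool.Agent.W165.OZ Filter Topology

namespace Run7.h795.UW

noncomputable section

theorem t_la : S_LA := by
  intro A _ S c r ι _ _ G V L hc hG hL hV
  have h1 : (Matrix.fromBlocks G V (c • (-L)) (c • (1 : Matrix ι ι A))) =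
      Matrix.fromBlocks (1 : Matrix (Fin r) (Fin r) A) 0 0 (c • (1 : Matrix ι ι A)) *
        Matrix.fromBlocks G V (-L) 1 := by
    rw [Matrix.fromBlocks_multiply]
    simp
  have h2 : (Matrix.fromBlocks G V (c • (-L)) (c • (1 : Matrix ι ι A))).det =
      c ^ Fintype.card ι * Matrix.det (G + V * L) := by
    rw [h1, Matrix.det_mul, Matrix.det_fromBlocks_zero₂₁, Matrix.det_one, one_mul,
      Matrix.det_smul, Matrix.det_one, mul_one, Matrix.det_fromBlocks_one₂₂]
    congr 2
    rw [Matrix.mul_neg, sub_neg_eq_add]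
  rw [← h2]
  apply det_mem_subring
  rintro (i | s) (j | t)
  · rw [Matrix.fromBlocks_apply₁₁]; exact hG i j
  · rw [Matrix.fromBlocks_apply₁₂]; exact hV i t
  · rw [Matrix.fromBlocks_apply₂₁, Matrix.smul_apply, Matrix.neg_apply,
      smul_eq_mul, mul_neg]
    exact S.neg_mem (hL s j)
  · rw [Matrix.fromBlocks_apply₂₂, Matrix.smul_apply, smul_eq_mul]
    by_cases hst : s = t
    · subst hst
      rw [Matrix.one_apply_eq, mul_one]; exact hc
    · rw [Matrix.one_apply_ne hst, mul_zero]; exact S.zero_mem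

/-! ### The polar part -/

theorem pfc_reindex (s : Finset ℕ) (μ : ℕ → ℕ) (P : ℚ[X]) (k : ℕ) (F : ℚ → ℕ → ℚ) :
    ∑ j ∈ Finset.range (μ k), F (pfc s μ P k j) (μ k - j) =
      ∑ i ∈ Finset.Icc 1 (μ k), F (pa s μ P k i) i := by
  have h2 : Finset.Icc 1 (μ k) = Finset.Ico 1 (μ k + 1) := by
    ext
    simp
  rw [h2, Finset.sum_Ico_eq_sum_range, ← Finset.sum_range_reflect]
  apply Finset.sum_congr (by simp)
  intro j hj
  rw [Finset.mem_range] at hj
  have h3 : 1 + j ≤ μ k := by omega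
  simp only [pa, h3, if_true]
  congr 2 <;> omega

/-- the coefficient of the rational function, indexed by the order of the pole -/
lemma coeff_RS' (n h b : ℕ) (hb : Even b) (P : ℚ[X]) (hdeg : P.natDegree < 2 * h * n) (c : ℚ)
    (hc : ∀ m < n, c + (m : ℚ) ≠ 0) :
    PowerSeries.coeff b (RS (sP n) (mP h) P c) = ∑ k ∈ sP n, ∑ i ∈ Finset.Icc 1 (2 * h),
      pa (sP n) (mP h) P k i * ((bc b i : ℚ) / (c + k) ^ (i + b)) := by
  have hne : ∀ k ∈ sP n, c + (k : ℚ) ≠ 0 := fun k hk => hc k (Finset.mem_range.1 hk)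
  have hQdeg : (QQ (sP n) (mP h)).natDegree = 2 * h * n := by
    rw [QQ_natDegree, Finset.sum_const, Finset.card_range, smul_eq_mul]
    ring
  have hdeg' : P.degree < (QQ (sP n) (mP h)).degree := by
    rw [Polynomial.degree_eq_natDegree (QQ_monic _ _).ne_zero, hQdeg]
    exact lt_of_le_of_lt Polynomial.degree_le_natDegree (by exact_mod_cast hdeg)
  rw [coeff_RS (sP n) (mP h) P hdeg' c hne b]
  refine Finset.sum_congr rfl fun k _ => ?_
  have := pfc_reindex (sP n) (mP h) P k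
    (fun x i => x * ((bc b i : ℚ) / (c + k) ^ (i + b)))
  rw [← this]
  refine Finset.sum_congr rfl fun j _ => ?_
  rw [hb.neg_one_pow, one_mul]
  rfl

theorem t_po : S_PO := by
  intro p hp n h B b hnp hBn hb P hP hdeg d k v hd hdB hk hv hpv
  have hp1 : 1 < p := hp.out.one_lt
  have hp0 : (0 : ℚ) < p := by exact_mod_cast hp.out.pos
  have hvp : v < p := by
    have h3 : p * v ≤ n * n := hpv.trans (Nat.mul_le_mul (hdB.trans hBn) hk)
    by_contra hcon
    push Not at hcon
    have h4 : p * p ≤ p * v := Nat.mul_le_mul_left p hcon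
    have h5 : n * n < p * p := Nat.mul_lt_mul'' hnp hnp
    omega
  have hvn : padicNorm p (v : ℚ) = 1 := po_nat_unit p v hv hvp
  have hdn : padicNorm p (d : ℚ) = 1 := po_nat_unit p d hd (by omega)
  have hd0 : (d : ℚ) ≠ 0 := by
    have : (0 : ℚ) < d := by exact_mod_cast hd
    exact this.ne'
  have hv0 : (v : ℚ) ≠ 0 := by
    have : (0 : ℚ) < v := by exact_mod_cast hv
    exact this.ne'
  have hain : (d : ℚ) / ((p * v : ℕ) : ℚ) = (((p * v : ℕ) : ℚ) / d)⁻¹ := by rw [inv_div]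
  rw [hain]
  set a : ℚ := ((p * v : ℕ) : ℚ) / d with ha
  have han : padicNorm p a = (p : ℚ)⁻¹ := by
    rw [ha, padicNorm.div, Nat.cast_mul, padicNorm.mul, hvn, hdn, padicNorm.padicNorm_p_of_prime]
    simp
  have ha1 : padicNorm p a < 1 := by
    rw [han]
    exact inv_lt_one_of_one_lt₀ (by exact_mod_cast hp1)
  have ha0 : a ≠ 0 := by
    rw [ha, Nat.cast_mul]
    exact div_ne_zero (mul_ne_zero hp0.ne' hv0) hd0
  -- the norms of `t + k'`
  have hother : ∀ k' < n, k' ≠ k → padicNorm p (a - k + (k' : ℚ)) = 1 := by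
    intro k' hk' hne
    have h3 := po_int_unit p n k k' hnp hk hk' hne
    have h4 : a - (k : ℚ) + (k' : ℚ) = a + ((k' : ℚ) - (k : ℚ)) := by ring
    rw [h4, padicNorm.add_eq_max_of_ne (by rw [h3]; exact ha1.ne), h3]
    exact max_eq_right ha1.le
  have hnz : ∀ k' < n, a - k + (k' : ℚ) ≠ 0 := by
    intro k' hk'
    by_cases hkk : k' = k
    · subst hkk
      simpa using ha0
    · intro h0
      have := hother k' hk' hkk
      rw [h0, padicNorm.zero] at this
      exact zero_ne_one this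
  have ht1 : padicNorm p (a - k) ≤ 1 := po_sub_le p ha1.le (padicNorm.of_nat k)
  have hkmem : k ∈ sP n := Finset.mem_range.mpr hk
  refine ⟨?_, ?_, ht1⟩
  · rw [coeff_RS' n h b hb P hdeg (a - k) hnz, ← Finset.add_sum_erase _ _ hkmem]
    have h3 : ∑ i ∈ Finset.Icc 1 (2 * h), pa (sP n) (mP h) P k i *
          ((bc b i : ℚ) / (a - (k : ℚ) + (k : ℚ)) ^ (i + b))
        = ∑ i ∈ Finset.Icc 1 (2 * h), (bc b i : ℚ) * (pa (sP n) (mP h) P k i * a⁻¹ ^ (i + b)) := by
      apply Finset.sum_congr rfl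
      intro i _
      rw [sub_add_cancel, div_eq_mul_inv, inv_pow]
      ring
    rw [h3, sub_add_cancel_left, padicNorm.neg]
    apply padicNorm.sum_le' _ zero_le_one
    intro k' hk'
    apply padicNorm.sum_le' _ zero_le_one
    intro i _
    rw [Finset.mem_erase, Finset.mem_range] at hk'
    refine po_mul_le p (t_pj p n h hnp.le P hP k' i hk'.2) ?_
    rw [padicNorm.div, po_pow, hother k' hk'.2 hk'.1, one_pow, div_one]
    exact padicNorm.of_nat _
  · have hPB : PB p (p : ℚ) (∏ m ∈ sP n, (if m = k then (p : ℚ) else 1) ^ (2 * h))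
        (VV (sP n) (mP h) (a - k)) := by
      unfold VV
      refine PB.prod _ _ _ hp0.le (fun m _ => by split_ifs <;> positivity) ?_
      intro m hm
      have hmn := Finset.mem_range.1 hm
      refine PB.pow hp0.le (by split_ifs <;> positivity) ?_ _
      by_cases hmk : m = k
      · rw [if_pos hmk, hmk]
        have h5 : padicNorm p (a - (k : ℚ) + (k : ℚ)) = (p : ℚ)⁻¹ := by rw [sub_add_cancel, han]
        refine PB.iv (hnz k hk) ?_ ?_ <;> rw [h5, inv_inv]
      · rw [if_neg hmk]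
        have h5 := hother m hmn hmk
        refine PB.iv (hnz m hmn) ?_ ?_
        · rw [h5, inv_one]
        · rw [h5, inv_one]; exact_mod_cast hp1.le
    have hprod : ∏ m ∈ sP n, (if m = k then (p : ℚ) else 1) ^ (2 * h) = (p : ℚ) ^ (2 * h) := by
      rw [Finset.prod_eq_single k]
      · rw [if_pos rfl]
      · intro m _ hm
        rw [if_neg hm, one_pow]
      · intro hk'
        exact absurd hkmem hk'
    rw [hprod] at hPB
    intro j
    rw [pow_add]
    exact hPB j

/-! ### The primes `p > n` -/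

/-- the rational part is `p`-integral up to the singular part -/
lemma sf_key (p : ℕ) [Fact p.Prime] (n h B b : ℕ) (w : ℕ → ℤ) (hb : Even b)
    (hn : n < p) (hB : B ≤ n) (P : ℚ[X]) (hP : ∀ j, padicNorm p (P.coeff j) ≤ 1)
    (hdeg : P.natDegree < 2 * h * n) :
    (∑ i ∈ Finset.Icc 1 (2 * h), (bc b i : ℚ) * bet n h B b w P i)
      - ∑ s ∈ SFaux.TT n B p, (w s.1 : ℚ) *
        PowerSeries.coeff b (RS (sP n) (mP h) P (SFaux.tt p s)) ∈ SFaux.Rp p := by
  have hp0 : 0 < p := lt_of_le_of_lt (Nat.zero_le _) hn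
  have e1 : (∑ i ∈ Finset.Icc 1 (2 * h), (bc b i : ℚ) * bet n h B b w P i)
      = ∑ d ∈ Finset.Icc 1 B, ∑ k ∈ Finset.range n, (w d : ℚ) *
        ∑ i ∈ Finset.Icc 1 (2 * h), (bc b i : ℚ) * (d : ℚ) ^ (i + b) * pa (sP n) (mP h) P k i *
          hs (i + b) (d * (k + 1)) := by
    unfold bet
    simp only [Finset.mul_sum]
    rw [Finset.sum_comm]
    apply Finset.sum_congr rfl
    intro d _
    rw [Finset.sum_comm]
    apply Finset.sum_congr rfl
    intro k _
    apply Finset.sum_congr rfl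
    intro i _
    ring
  have e2 : ∑ s ∈ SFaux.TT n B p, (w s.1 : ℚ) *
        PowerSeries.coeff b (RS (sP n) (mP h) P (SFaux.tt p s))
      = ∑ d ∈ Finset.Icc 1 B, ∑ k ∈ Finset.range n, ∑ v ∈ Finset.Icc 1 (d * (k + 1) / p),
        (w d : ℚ) * PowerSeries.coeff b (RS (sP n) (mP h) P (((p * v : ℕ) : ℚ) / d - k)) := by
    unfold SFaux.TT
    rw [Finset.sum_sigma]
    apply Finset.sum_congr rfl
    intro d _
    rw [Finset.sum_sigma]
    rfl
  rw [e1, e2, ← Finset.sum_sub_distrib]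
  apply Subring.sum_mem
  intro d hd
  rw [Finset.mem_Icc] at hd
  rw [← Finset.sum_sub_distrib]
  apply Subring.sum_mem
  intro k hk
  rw [Finset.mem_range] at hk
  have e3 : (w d : ℚ) *
        ∑ i ∈ Finset.Icc 1 (2 * h), (bc b i : ℚ) * (d : ℚ) ^ (i + b) * pa (sP n) (mP h) P k i *
          hs (i + b) (d * (k + 1))
      - ∑ v ∈ Finset.Icc 1 (d * (k + 1) / p),
        (w d : ℚ) * PowerSeries.coeff b (RS (sP n) (mP h) P (((p * v : ℕ) : ℚ) / d - k))
      = (w d : ℚ) * ((∑ i ∈ Finset.Icc 1 (2 * h), (bc b i : ℚ) * (d : ℚ) ^ (i + b) *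
          pa (sP n) (mP h) P k i *
          (hs (i + b) (d * (k + 1)) -
            ∑ v ∈ Finset.Icc 1 (d * (k + 1) / p), 1 / ((p * v : ℕ) : ℚ) ^ (i + b)))
        + ∑ v ∈ Finset.Icc 1 (d * (k + 1) / p),
          ((∑ i ∈ Finset.Icc 1 (2 * h), (bc b i : ℚ) *
            (pa (sP n) (mP h) P k i * ((d : ℚ) / ((p * v : ℕ) : ℚ)) ^ (i + b))) -
            PowerSeries.coeff b (RS (sP n) (mP h) P (((p * v : ℕ) : ℚ) / d - k)))) := by
    rw [Finset.sum_sub_distrib, ← Finset.mul_sum]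
    have e4 : ∑ v ∈ Finset.Icc 1 (d * (k + 1) / p),
        ∑ i ∈ Finset.Icc 1 (2 * h), (bc b i : ℚ) *
          (pa (sP n) (mP h) P k i * ((d : ℚ) / ((p * v : ℕ) : ℚ)) ^ (i + b))
        = ∑ i ∈ Finset.Icc 1 (2 * h), (bc b i : ℚ) * (d : ℚ) ^ (i + b) * pa (sP n) (mP h) P k i *
          ∑ v ∈ Finset.Icc 1 (d * (k + 1) / p), 1 / ((p * v : ℕ) : ℚ) ^ (i + b) := by
      rw [Finset.sum_comm]
      apply Finset.sum_congr rfl
      intro i _
      rw [Finset.mul_sum]
      apply Finset.sum_congr rfl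
      intro v _
      rw [div_pow]
      ring
    rw [e4]
    simp only [mul_sub, Finset.sum_sub_distrib]
    ring
  rw [e3]
  apply Subring.mul_mem _ (SFaux.int_mem _)
  apply Subring.add_mem
  · apply Subring.sum_mem
    intro i _
    apply Subring.mul_mem
    · apply Subring.mul_mem
      · exact Subring.mul_mem _ (SFaux.nat_mem _) (Subring.pow_mem _ (SFaux.nat_mem d) _)
      · exact t_pj p n h hn.le P hP k i hk
    · exact t_hj p n B d k (i + b) hn hB hd.1 hd.2 hk
  · apply Subring.sum_mem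
    intro v hv
    rw [Finset.mem_Icc] at hv
    exact (t_po p n h B b hn hB hb P hP hdeg d k v hd.1 hd.2 hk hv.1
      (by rw [mul_comm]; exact (Nat.le_div_iff_mul_le hp0).mp hv.2)).1

/-- Taylor series of the numerator at a `p`-integral point -/
lemma sf_Y (p : ℕ) [hp : Fact p.Prime] (n : ℕ) (c : ℚ) (hc : padicNorm p c ≤ 1) (ρ : ℚ) (hρ : 1 ≤ ρ) (i : ℕ) :
    PB p ρ 1 (TS c (yp n) ^ i) := by
  have hρ0 : 0 ≤ ρ := zero_le_one.trans hρ
  have h1 : padicNorm p (c + ((n : ℚ) - 1)) ≤ 1 :=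
    po_add_le p hc (po_sub_le p (padicNorm.of_nat n) padicNorm.one.le)
  have h2 : TS c (yp n) = (PowerSeries.X + PowerSeries.C c) *
      (PowerSeries.X + PowerSeries.C (c + ((n : ℚ) - 1))) := by
    unfold yp
    rw [map_mul, TS_X, TS_lin]
  have h3 : PB p ρ (1 * 1) (TS c (yp n)) := by
    rw [h2]
    exact PB.mul hρ0 zero_le_one zero_le_one (PB.linX hρ0 zero_le_one hc (by rwa [one_mul]))
      (PB.linX hρ0 zero_le_one h1 (by rwa [one_mul]))
  have h4 := PB.pow hρ0 (by norm_num) h3 i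
  simpa using h4

lemma sf_lin (p : ℕ) [hp : Fact p.Prime] (n : ℕ) (c : ℚ) (hc : padicNorm p c ≤ 1) (ρ : ℚ) (hρ : 1 ≤ ρ) :
    PB p ρ 1 (TS c (C 2 * X + C ((n : ℚ) - 1))) := by
  have hρ0 : 0 ≤ ρ := zero_le_one.trans hρ
  have h2' : padicNorm p (2 : ℚ) ≤ 1 := by exact_mod_cast padicNorm.of_nat (p := p) 2
  have h1 : TS c (C 2 * X + C ((n : ℚ) - 1)) =
      PowerSeries.C 2 * PowerSeries.X + PowerSeries.C (2 * c + ((n : ℚ) - 1)) := by
    rw [map_add, map_mul, TS_X, TS_C, TS_C, map_add, map_mul]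
    ring
  rw [h1]
  refine PB.lin hρ0 zero_le_one ?_ ?_
  · exact po_add_le p (po_mul_le p h2' hc) (po_sub_le p (padicNorm.of_nat n) padicNorm.one.le)
  · rw [one_mul]
    exact h2'.trans hρ

open SFaux in
theorem t_sf : S_SF := by
  intro A _ _ p hpr S hS n h B b w z q hz hb hn hh hB hBn hnp r hr
  have hp0 : 0 < p := lt_of_le_of_lt (Nat.zero_le _) hnp
  have hpQ : (0 : ℚ) < p := by exact_mod_cast hp0
  have hp1 : (1 : ℚ) ≤ p := by exact_mod_cast hpr.out.one_lt.le
  have hSR : ∀ x ∈ Rp p, algebraMap ℚ A x ∈ S := fun x hx => hS x hx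
  -- the facts on the nodes
  have hnode : ∀ s ∈ TT n B p, (∀ j, padicNorm p (PowerSeries.coeff j (VV (sP n) (mP h) (tt p s))) ≤
      (p : ℚ) ^ (2 * h + j)) ∧ padicNorm p (tt p s) ≤ 1 := by
    intro s hs
    obtain ⟨a1, a2, a3, a4, a5⟩ := mem_TT hs
    have := t_po p n h B b hnp hBn hb 0 (by simp) (by
      rw [Polynomial.natDegree_zero]; positivity) s.1 s.2.1 s.2.2 a1 a2 a3 a4
      (by rw [mul_comm]; exact (Nat.le_div_iff_mul_le hp0).mp a5)
    exact ⟨this.2.1, this.2.2⟩
  -- the series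
  let LV : ℚ → PowerSeries ℚ := fun t => TS t (C 2 * X + C ((n : ℚ) - 1)) * VV (sP n) (mP h) t
  have hRS : ∀ (t : ℚ) (i j : ℕ), PowerSeries.coeff b (RS (sP n) (mP h) (num n (X ^ (i + j))) t) =
      ∑ a : Fin (b + 1), PowerSeries.coeff a.1 (TS t (yp n) ^ i) *
        PowerSeries.coeff (b - a.1) (LV t * TS t (yp n) ^ j) := by
    intro t i j
    have e1 : RS (sP n) (mP h) (num n (X ^ (i + j))) t =
        (TS t (yp n) ^ i) * (LV t * TS t (yp n) ^ j) := by
      unfold RS num
      simp only [LV]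
      rw [Polynomial.X_pow_comp, map_mul, map_pow, pow_add]
      ring
    rw [e1, PowerSeries.coeff_mul, Finset.Nat.sum_antidiagonal_eq_sum_range_succ_mk, ← Fin.sum_univ_eq_sum_range
      (fun a => PowerSeries.coeff a (TS t (yp n) ^ i) *
        PowerSeries.coeff (b - a) (LV t * TS t (yp n) ^ j))]
  have hLV : ∀ s ∈ TT n B p, ∀ (j a : ℕ), a ≤ b →
      (p : ℚ) ^ (2 * h + b) * PowerSeries.coeff (b - a) (LV (tt p s) * TS (tt p s) (yp n) ^ j) ∈ Rp p := by
    intro s hs j a _
    obtain ⟨h1, h2⟩ := hnode s hs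
    have h3 : PB p (p : ℚ) ((p : ℚ) ^ (2 * h)) (VV (sP n) (mP h) (tt p s)) := by
      intro j
      rw [← pow_add]
      exact h1 j
    have h4 := PB.mul hpQ.le (by positivity) zero_le_one (PB.mul hpQ.le zero_le_one (by positivity)
      (sf_lin p n (tt p s) h2 p hp1) h3) (sf_Y p n (tt p s) h2 p hp1 j)
    have h5 := h4 (b - a)
    rw [one_mul, mul_one, ← pow_add] at h5
    rw [mem_Rp, padicNorm.mul, po_pow, padicNorm.padicNorm_p_of_prime]
    calc ((p : ℚ)⁻¹) ^ (2 * h + b) *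
          padicNorm p (PowerSeries.coeff (b - a) (LV (tt p s) * TS (tt p s) (yp n) ^ j))
        ≤ ((p : ℚ)⁻¹) ^ (2 * h + b) * (p : ℚ) ^ (2 * h + (b - a)) := by
          gcongr
      _ ≤ ((p : ℚ)⁻¹) ^ (2 * h + b) * (p : ℚ) ^ (2 * h + b) := by
          gcongr
          exact Nat.sub_le _ _
      _ = 1 := by
          rw [← mul_pow, inv_mul_cancel₀ hpQ.ne', one_pow]
  let V : Matrix (Fin r) (TT n B p × Fin (b + 1)) A := Matrix.of fun i s =>
    algebraMap ℚ A (PowerSeries.coeff s.2.1 (TS (tt p s.1.1) (yp n) ^ i.1))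
  let L : Matrix (TT n B p × Fin (b + 1)) (Fin r) A := Matrix.of fun s j =>
    algebraMap ℚ A (-((q : ℚ) * (w s.1.1.1) *
      PowerSeries.coeff (b - s.2.1) (LV (tt p s.1.1) * TS (tt p s.1.1) (yp n) ^ j.1)))
  let G : Matrix (Fin r) (Fin r) A := Matrix.of fun i j =>
    (q : A) * mo n h B b w z (i.1 + j.1) - (V * L) i j
  have hLA := t_la A S (algebraMap ℚ A ((p : ℚ) ^ (2 * h + b))) r (TT n B p × Fin (b + 1)) G V L
    (hSR _ (Subring.pow_mem _ (nat_mem p) _)) ?_ ?_ ?_
  · have e1 : G + V * L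
        = (q : A) • Matrix.of (fun i j : Fin r => mo n h B b w z (i.1 + j.1)) := by
      ext i j
      simp [G]
    rw [e1, Matrix.det_smul, Fintype.card_fin, Fintype.card_prod, Fintype.card_coe, TT_card,
      Fintype.card_fin] at hLA
    have e3 : 2 * Run7.h795.UW.hb h b * Sp n B p = (2 * h + b) * (Sp n B p * (b + 1)) := by
      unfold Run7.h795.UW.hb
      obtain ⟨c, hc⟩ := hb
      have h7 : b / 2 = c := by omega
      rw [h7, hc]
      ring
    have e2 : algebraMap ℚ A ((q : ℚ) ^ r * (p : ℚ) ^ (2 * Run7.h795.UW.hb h b * Sp n B p)) * DH (mo n h B b w z) r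
        = algebraMap ℚ A ((p : ℚ) ^ (2 * h + b)) ^ (Sp n B p * (b + 1)) * ((q : A) ^ r *
          Matrix.det (Matrix.of fun i j : Fin r => mo n h B b w z (i.1 + j.1))) := by
      unfold DH
      rw [e3, map_mul, map_pow, map_natCast, pow_mul, map_pow]
      ring
    rw [e2]
    exact hLA
  · intro i j
    set k := i.1 + j.1 with hk
    have hdeg : (num n (X ^ k)).natDegree < 2 * h * n := by
      have := num_natDegree n k
      have := i.2
      have := j.2
      nlinarith
    have hP : ∀ j, padicNorm p ((num n (X ^ k)).coeff j) ≤ 1 := fun j => num_coeff n k j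
    have hkey := sf_key p n h B b w hb hnp hBn (num n (X ^ k)) hP hdeg
    have e1 : G i j = (∑ ι ∈ Finset.Icc 1 (2 * h),
        algebraMap ℚ A ((bc b ι : ℚ) * (rhoP n h (num n (X ^ k)) ι * WW B w (ι + b))) * ((q : A) * z (ι + b)))
        - algebraMap ℚ A ((q : ℚ) * ((∑ ι ∈ Finset.Icc 1 (2 * h), (bc b ι : ℚ) * bet n h B b w (num n (X ^ k)) ι)
          - ∑ s ∈ TT n B p, (w s.1 : ℚ) *
            PowerSeries.coeff b (RS (sP n) (mP h) (num n (X ^ k)) (tt p s)))) := by
      have e2 : (V * L) i j = - algebraMap ℚ A ((q : ℚ) *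
          ∑ s ∈ TT n B p, (w s.1 : ℚ) *
            PowerSeries.coeff b (RS (sP n) (mP h) (num n (X ^ k)) (tt p s))) := by
        rw [Matrix.mul_apply, Fintype.sum_prod_type, Finset.mul_sum, map_sum, ← Finset.sum_neg_distrib]
        refine Eq.trans ?_ (Finset.sum_coe_sort (TT n B p) (fun x => -(algebraMap ℚ A)
          ((q : ℚ) * ((w x.1 : ℚ) *
            PowerSeries.coeff b (RS (sP n) (mP h) (num n (X ^ k)) (tt p x))))))
        apply Finset.sum_congr rfl
        intro s _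
        rw [hk, hRS, Finset.mul_sum, Finset.mul_sum, map_sum, ← Finset.sum_neg_distrib]
        apply Finset.sum_congr rfl
        intro a _
        simp only [V, L, Matrix.of_apply]
        rw [← map_mul, ← map_neg]
        congr 1
        ring
      have e3 : (q : A) * mo n h B b w z k = (∑ ι ∈ Finset.Icc 1 (2 * h),
          algebraMap ℚ A ((bc b ι : ℚ) * (rhoP n h (num n (X ^ k)) ι * WW B w (ι + b))) * ((q : A) * z (ι + b)))
          - algebraMap ℚ A ((q : ℚ) * ∑ ι ∈ Finset.Icc 1 (2 * h),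
            (bc b ι : ℚ) * bet n h B b w (num n (X ^ k)) ι) := by
        unfold mo La
        rw [map_mul (algebraMap ℚ A) (q : ℚ), map_sum, map_natCast, Finset.mul_sum, Finset.mul_sum,
          ← Finset.sum_sub_distrib]
        apply Finset.sum_congr rfl
        intro ι _
        rw [map_mul (algebraMap ℚ A) (bc b ι : ℚ), map_mul (algebraMap ℚ A) (bc b ι : ℚ)]
        ring
      simp only [G, Matrix.of_apply]
      rw [e2, e3, mul_sub, map_sub]
      ring
    rw [e1]
    apply Subring.sub_mem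
    · apply Subring.sum_mem
      intro ι _
      apply Subring.mul_mem _ _ (hz (ι + b))
      apply hSR
      apply Subring.mul_mem _ (nat_mem _)
      apply Subring.mul_mem
      · unfold rhoP
        apply Subring.sum_mem
        intro k' hk'
        exact t_pj p n h hnp.le _ hP k' ι (Finset.mem_range.mp hk')
      · exact int_mem _
    · apply hSR
      exact Subring.mul_mem _ (nat_mem q) hkey
  · intro s j
    simp only [L, Matrix.of_apply]
    rw [← map_mul]
    apply hSR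
    have e : (p : ℚ) ^ (2 * h + b) * -((q : ℚ) * (w s.1.1.1) *
        PowerSeries.coeff (b - s.2.1) (LV (tt p s.1.1) * TS (tt p s.1.1) (yp n) ^ j.1))
        = -((q : ℚ) * (w s.1.1.1) * ((p : ℚ) ^ (2 * h + b) *
          PowerSeries.coeff (b - s.2.1) (LV (tt p s.1.1) * TS (tt p s.1.1) (yp n) ^ j.1))) := by ring
    rw [e]
    exact Subring.neg_mem _ (Subring.mul_mem _ (Subring.mul_mem _ (nat_mem q)
      (int_mem _)) (hLV s.1.1 s.1.2 j.1 s.2.1 (Nat.lt_succ_iff.1 s.2.2)))
  · intro i s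
    obtain ⟨a1, a2⟩ := hnode s.1.1 s.1.2
    simp only [V, Matrix.of_apply]
    apply hSR
    have := sf_Y p n (tt p s.1.1) a2 1 le_rfl i.1 s.2.1
    rw [one_pow, mul_one] at this
    exact this

end

end Run7.h795.UW
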