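import Pool.Agent.Run7.h795.UW.Stm2

/-!
# The perturbed core of the non-vanishing argument
-/

set_option autoImplicit false

open Polynomial Pool.Agent.H337R2 Pool.Agent.W165.OZ Filter Topology

namespace Run7.h795.UW

noncomputable section

/-- `|L(P)| ≤ E A` whenever the moments satisfy `|ε k| ≤ E β ^ k` -/
def LB (β : ℝ) (P : ℝ[X]) (A : ℝ) : Prop :=
  ∀ (ε : ℕ → ℝ) (E : ℝ), (∀ k, |ε k| ≤ E * β ^ k) → |Lf ε P| ≤ E * A

namespace LB

variable {β : ℝ}

lemma one : LB β 1 1 := by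
  intro ε E hε
  have h1 := hε 0
  have e : Lf ε 1 = ε 0 := by
    have := Lf_X_pow ε 0
    rwa [pow_zero] at this
  rw [e]
  simpa using h1

lemma lin {P : ℝ[X]} {A : ℝ} (h : LB β P A) (y : ℝ) : LB β ((X - C y) * P) ((β + |y|) * A) := by
  intro ε E hε
  rw [Pool.Agent.TH818.SA.Lf_mul_lin]
  refine (h _ (E * (β + |y|)) fun k => ?_).trans (le_of_eq (by ring))
  have e1 := hε (k + 1)
  have e2 := hε k
  calc |ε (k + 1) - y * ε k| ≤ |ε (k + 1)| + |y * ε k| := abs_sub _ _
    _ ≤ E * β ^ (k + 1) + |y| * (E * β ^ k) := by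
      rw [abs_mul]
      exact add_le_add e1 (mul_le_mul_of_nonneg_left e2 (abs_nonneg _))
    _ = E * (β + |y|) * β ^ k := by ring

lemma pow {P : ℝ[X]} {A : ℝ} (h : LB β P A) (y : ℝ) (e : ℕ) :
    LB β ((X - C y) ^ e * P) ((β + |y|) ^ e * A) := by
  induction e with
  | zero => simpa using h
  | succ e ih =>
    rw [pow_succ', pow_succ', mul_assoc, mul_assoc]
    exact ih.lin y

lemma gg {P : ℝ[X]} {A : ℝ} (h : LB β P A) (y : ℕ → ℝ) (σ : ℕ) (s : Finset ℕ) :
    LB β (GG y σ s * P) ((∏ l ∈ s, (β + |y l|)) ^ σ * A) := by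
  classical
  induction s using Finset.induction_on with
  | empty => simpa [GG] using h
  | insert a s ha ih =>
    have e : GG y σ (insert a s) = (X - C (y a)) ^ σ * GG y σ s := by
      unfold GG
      rw [Finset.prod_insert ha]
    rw [e, Finset.prod_insert ha, mul_pow, mul_assoc, mul_assoc]
    exact ih.pow (y a) σ

/-- the products that occur in the core argument -/
lemma two {b : ℕ} {y : ℕ → ℝ} (hβ : 0 ≤ β) (hy : ∀ i, 1 ≤ y i) {ε : ℕ → ℝ} {E : ℝ} (hE : 0 ≤ E)
    (hε : ∀ k, |ε k| ≤ E * β ^ k) {M M0 k j : ℕ} (hk : k ∈ Finset.range M0) (hj : j ∈ Finset.range M)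
    {e1 e2 : ℕ} (h1 : e1 ≤ b + 1) (h2 : e2 ≤ b + 1) {G : ℝ}
    (hG : G = (∏ l ∈ Finset.range M0, (β + y l)) ^ (b + 1) * (∏ l ∈ Finset.range M, (β + y l)) ^ (b + 1)) :
    |Lf ε (((X - C (y k)) ^ e1 * GG y (b + 1) ((Finset.range M0).erase k)) *
      ((X - C (y j)) ^ e2 * GG y (b + 1) ((Finset.range M).erase j)))| ≤ E * G := by
  have g1 : ∀ l, 1 ≤ β + |y l| := fun l => by
    have := hy l
    rw [abs_of_nonneg (by linarith)]
    linarith
  have g2 : ∀ (s : Finset ℕ), ∏ l ∈ s, (β + y l) = ∏ l ∈ s, (β + |y l|) := fun s =>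
    Finset.prod_congr rfl fun l _ => by
      have := hy l
      rw [abs_of_nonneg (by linarith)]
  have g3 := ((((LB.one (β := β)).gg y (b + 1) ((Finset.range M).erase j)).pow (y j) e2).gg y (b + 1)
    ((Finset.range M0).erase k)).pow (y k) e1
  have g4 := g3 ε E hε
  rw [mul_one, mul_one] at g4
  rw [mul_assoc]
  refine g4.trans (mul_le_mul_of_nonneg_left ?_ hE)
  have g5 : ∀ (s : Finset ℕ) (a e : ℕ), a ∈ s → e ≤ b + 1 →
      (β + |y a|) ^ e * (∏ l ∈ s.erase a, (β + |y l|)) ^ (b + 1) ≤ (∏ l ∈ s, (β + y l)) ^ (b + 1) := by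
    intro s a e ha he
    rw [g2, ← Finset.mul_prod_erase s _ ha, mul_pow]
    apply mul_le_mul_of_nonneg_right (pow_le_pow_right₀ (g1 a) he)
    exact pow_nonneg (Finset.prod_nonneg fun l _ => le_trans zero_le_one (g1 l)) _
  have g6 : ∀ s : Finset ℕ, 0 ≤ ∏ l ∈ s, (β + |y l|) := fun s =>
    Finset.prod_nonneg fun l _ => le_trans zero_le_one (g1 l)
  rw [hG]
  calc (β + |y k|) ^ e1 * ((∏ l ∈ (Finset.range M0).erase k, (β + |y l|)) ^ (b + 1) *
        ((β + |y j|) ^ e2 * (∏ l ∈ (Finset.range M).erase j, (β + |y l|)) ^ (b + 1))) =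
      ((β + |y k|) ^ e1 * (∏ l ∈ (Finset.range M0).erase k, (β + |y l|)) ^ (b + 1)) *
        ((β + |y j|) ^ e2 * (∏ l ∈ (Finset.range M).erase j, (β + |y l|)) ^ (b + 1)) := by ring
    _ ≤ _ := by
      apply mul_le_mul (g5 _ _ _ hk h1) (g5 _ _ _ hj h2)
      · have := g6 ((Finset.range M).erase j)
        have := g1 j
        positivity
      · rw [g2]
        exact pow_nonneg (g6 _) _

end LB

open Pool.Agent.W165.OZ.CO (tau_gt tau_mono y_mono y_ge L_zero) in
theorem t_c2 : S_C2 := by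
  intro N δ c1 c2 τ ω hN n h b hn hh μ hM μ' E hE hμ M M0 hM0 hMM hmn Q hQ0 hQd hQ
  have hc1 := hN.hc1
  have hδ := hN.hδ
  have hδ1 := hN.hδ1
  have ht1 : ∀ i, 1 ≤ τ i := fun i => (tau_gt hN i).le
  obtain ⟨y, hydef⟩ : ∃ y : ℕ → ℝ, y = fun i => yv n (τ i) := ⟨_, rfl⟩
  have hyi : ∀ i, yv n (τ i) = y i := fun i => by rw [hydef]
  have hmono : StrictMono y := by
    rw [hydef]; exact y_mono hN hn
  have hy1 : ∀ i, 1 ≤ y i := fun i => by
    rw [← hyi]; exact y_ge hN hn i
  have hR0 : ∀ i, 0 < Rv n h (τ i) := fun i => Rv_pos' hn (ht1 i)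
  have hMY : ∀ (l : ℕ) (s : Finset ℕ), (∀ i ∈ s, i ≤ l) → MY n (τ l) (s.card * ((b + 1) * 1)) (GG y (b + 1) s) := by
    intro l s hs
    rw [hydef]; exact MY_GG hN hn (b + 1) l s hs
  have hMj : ∀ (j : ℕ) (s : Finset ℕ), j ∉ s → Mj (1 / δ) (s.card * ((b + 1) * (1 + 1)))
      (|(GG y (b + 1) s).eval (y j)|) (Polynomial.aeval (ys n (τ j)) (GG y (b + 1) s)) := by
    intro j s hs
    rw [hydef]; exact Mj_GG hN hn (b + 1) j s hs
  have hn1 : (1 : ℝ) ≤ n := by exact_mod_cast hn
  obtain ⟨ee, hee⟩ : ∃ ee : ℕ, ee = ((b + 1) * M - 1) + ((b + 1) * M0 - 1) := ⟨_, rfl⟩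
  have hbM0 : (b + 1) * M0 ≤ (b + 1) * M := Nat.mul_le_mul_left _ hMM
  have hbM1 : (b + 1) ≤ (b + 1) * M0 := Nat.le_mul_of_pos_right _ hM0
  have eM0 : (M0 - 1) * (b + 1) + (b + 1) = (b + 1) * M0 := by
    obtain ⟨m, rfl⟩ : ∃ m, M0 = m + 1 := ⟨M0 - 1, by omega⟩
    rw [Nat.add_sub_cancel]; ring
  have eM : (M - 1) * (b + 1) + (b + 1) = (b + 1) * M := by
    obtain ⟨m, rfl⟩ : ∃ m, M = m + 1 := ⟨M - 1, by omega⟩
    rw [Nat.add_sub_cancel]; ring
  have hee2 : ee + 2 ≤ h * n := by omega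
  obtain ⟨hYs, -⟩ := Pool.Agent.W165.OZ.t_tb N δ c1 c2 τ ω hN n h M ee hn hh hee2
  rw [← hee]
  simp only [hyi] at hYs ⊢
  obtain ⟨Y0, hY0d⟩ : ∃ Y : ℝ, Y = ∑' i, |ω (i + M)| * (Rv n h (τ (i + M)) * y (i + M) ^ ee) := ⟨_, rfl⟩
  rw [← hY0d]
  obtain ⟨β, hβ⟩ : ∃ β : ℝ, β = (n : ℝ) ^ 2 := ⟨_, rfl⟩
  have hβ0 : 0 ≤ β := by rw [hβ]; positivity
  rw [← hβ] at hμ ⊢
  have hβy : ∀ l, 1 ≤ β + y l := fun l => by have := hy1 l; linarith
  obtain ⟨G0, hG0⟩ : ∃ G : ℝ, G = (∏ l ∈ Finset.range M0, (β + y l)) ^ (b + 1) *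
    (∏ l ∈ Finset.range M, (β + y l)) ^ (b + 1) := ⟨_, rfl⟩
  rw [← hG0]
  have hG00 : 0 ≤ G0 := by
    rw [hG0]
    have : ∀ s : Finset ℕ, 0 ≤ ∏ l ∈ s, (β + y l) := fun s =>
      Finset.prod_nonneg fun l _ => le_trans zero_le_one (hβy l)
    have h1 := this (Finset.range M0)
    have h2 := this (Finset.range M)
    positivity
  obtain ⟨Y, hY⟩ : ∃ Y : ℝ, Y = Y0 + E * G0 := ⟨_, rfl⟩
  rw [← hY]
  -- partial fractions
  obtain ⟨c, hc⟩ := pf_real y hmono.injective (b + 1) (Finset.range M0) Q (by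
    rw [Polynomial.degree_eq_natDegree (GG_monic y (b + 1) (Finset.range M0)).ne_zero, GG_natDegree,
      Finset.card_range]
    refine lt_of_le_of_lt Polynomial.degree_le_natDegree ?_
    rw [mul_comm M0]
    exact_mod_cast hQd)
  obtain ⟨Z, hZ⟩ : ∃ Z : ℝ, Z = ∑ j ∈ Finset.range M0, ∑ i ∈ Finset.range (b + 1), |c j i| := ⟨_, rfl⟩
  have hZ0 : 0 < Z := by
    have h0 : 0 ≤ Z := by
      rw [hZ]
      exact Finset.sum_nonneg fun _ _ => Finset.sum_nonneg fun _ _ => abs_nonneg _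
    refine lt_of_le_of_ne h0 fun h1 => hQ0 ?_
    rw [hc]
    refine Finset.sum_eq_zero fun j hj => Finset.sum_eq_zero fun i hi => ?_
    rw [← h1] at hZ
    have h2 := (Finset.sum_eq_zero_iff_of_nonneg (fun j _ => Finset.sum_nonneg fun i _ => abs_nonneg (c j i))).1
      hZ.symm j hj
    have h3 := (Finset.sum_eq_zero_iff_of_nonneg (fun i _ => abs_nonneg (c j i))).1 h2 i hi
    rw [abs_eq_zero.1 h3, map_zero, zero_mul]
  obtain ⟨W2, hW2⟩ : ∃ W2 : ℝ, W2 = (4 * h * n + b + 1 : ℝ) ^ b := ⟨_, rfl⟩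
  have hW20 : 0 < W2 := by rw [hW2]; positivity
  have hW21 : 1 ≤ W2 := by
    rw [hW2]
    apply one_le_pow₀
    have : (0 : ℝ) ≤ 4 * h * n + b := by positivity
    linarith
  obtain ⟨W, hW⟩ : ∃ W : ℝ, W = (4 * h * n + b + 1 : ℝ) / δ := ⟨_, rfl⟩
  have hW1 : 1 ≤ W := by
    rw [hW, le_div_iff₀ hδ]
    have : (0 : ℝ) ≤ 4 * h * n + b := by positivity
    linarith
  have hPW : PW n h b δ = ((b : ℝ) + 1) * (2 * W) ^ b * W2 := by
    unfold PW
    rw [hW, hW2]
  rw [hPW]
  -- the test polynomials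
  have hexp : ∀ P : ℝ[X], Q * P = ∑ k ∈ Finset.range M0, ∑ i' ∈ Finset.range (b + 1),
      C (c k i') * (((X - C (y k)) ^ i' * GG y (b + 1) ((Finset.range M0).erase k)) * P) := by
    intro P
    conv_lhs => rw [hc]
    rw [Finset.sum_mul]
    refine Finset.sum_congr rfl fun k _ => ?_
    rw [Finset.sum_mul]
    refine Finset.sum_congr rfl fun i' _ => ?_
    ring
  have htail : ∀ j < M0, ∀ i ≤ b, ∀ l, |Dv n h b (τ (l + M)) (Q * ((X - C (y j)) ^ (b - i) *
      GG y (b + 1) ((Finset.range M).erase j)))| ≤ Z * W2 * (Rv n h (τ (l + M)) * y (l + M) ^ ee) := by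
    intro j hj i hi l
    rw [hexp, Dv_sum]
    refine (Finset.abs_sum_le_sum_abs _ _).trans ?_
    rw [hZ, Finset.sum_mul, Finset.sum_mul]
    refine Finset.sum_le_sum fun k hk => ?_
    rw [Dv_sum, Finset.sum_mul, Finset.sum_mul]
    refine (Finset.abs_sum_le_sum_abs _ _).trans (Finset.sum_le_sum fun i' hi' => ?_)
    rw [Finset.mem_range] at hk hi'
    rw [Dv_C_mul, abs_mul, mul_assoc |c k i'| W2]
    apply mul_le_mul_of_nonneg_left _ (abs_nonneg _)
    have hlin : ∀ a, a < M → MY n (τ (l + M)) 1 (X - C (y a)) := by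
      intro a ha
      apply MY.lin hn (ht1 _)
      · linarith [hy1 a]
      · rw [hyi]; exact hmono.monotone (by omega)
    have m1 := ((hlin k (by omega)).pow hn (ht1 _) i').mul hn (ht1 _)
      (hMY (l + M) ((Finset.range M0).erase k) (fun a ha => by
        have := Finset.mem_range.1 (Finset.mem_of_mem_erase ha); omega))
    have m2 := ((hlin j (by omega)).pow hn (ht1 _) (b - i)).mul hn (ht1 _)
      (hMY (l + M) ((Finset.range M).erase j) (fun a ha => by
        have := Finset.mem_range.1 (Finset.mem_of_mem_erase ha); omega))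
    have m3 := m1.mul hn (ht1 _) m2
    rw [Finset.card_erase_of_mem (Finset.mem_range.2 hk), Finset.card_range,
      Finset.card_erase_of_mem (Finset.mem_range.2 (by omega : j < M)), Finset.card_range] at m3
    have hK : (i' * 1 + (M0 - 1) * ((b + 1) * 1)) + ((b - i) * 1 + (M - 1) * ((b + 1) * 1)) ≤ ee := by
      rw [mul_one, mul_one, mul_one]
      omega
    have h5 := Dv_bound (h := h) (b := b) hn (ht1 _) (by omega) m3
    refine h5.trans ?_
    rw [← hW2]
    apply mul_le_mul_of_nonneg_left _ hW20.le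
    apply mul_le_mul_of_nonneg_left _ (hR0 _).le
    rw [hyi]
    exact pow_le_pow_right₀ (hy1 _) hK
  have hkey : ∀ j < M0, ∀ i ≤ b, |Dv n h b (τ j) (Q * ((X - C (y j)) ^ (b - i) *
      GG y (b + 1) ((Finset.range M).erase j)))| ≤ Z * W2 * Y / c1 := by
    intro j hj i hi
    have hjM : j < M := by omega
    obtain ⟨P, hP⟩ : ∃ P : ℝ[X], P = (X - C (y j)) ^ (b - i) * GG y (b + 1) ((Finset.range M).erase j) := ⟨_, rfl⟩
    have ht := htail j hj i hi
    rw [← hP] at ht ⊢
    have hPd : P.natDegree < (b + 1) * M := by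
      rw [hP, ((Polynomial.monic_X_sub_C _).pow _).natDegree_mul (GG_monic _ _ _),
        (Polynomial.monic_X_sub_C _).natDegree_pow, Polynomial.natDegree_X_sub_C, GG_natDegree,
        Finset.card_erase_of_mem (Finset.mem_range.2 hjM), Finset.card_range, mul_one]
      omega
    have hL : Lf μ' (Q * P) = 0 := L_zero Q hQ P hPd
    have hpert : |Lf μ (Q * P)| ≤ Z * (E * G0) := by
      have e0 : |Lf μ (Q * P)| = |Lf (fun k => μ' k - μ k) (Q * P)| := by
        rw [Pool.Agent.TH818.SA.Lf_sub_seq, hL, zero_sub, abs_neg]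
      rw [e0, hexp P, map_sum, hZ, Finset.sum_mul]
      refine (Finset.abs_sum_le_sum_abs _ _).trans (Finset.sum_le_sum fun k hk => ?_)
      rw [map_sum, Finset.sum_mul]
      refine (Finset.abs_sum_le_sum_abs _ _).trans (Finset.sum_le_sum fun i' hi' => ?_)
      rw [Finset.mem_range] at hi'
      rw [← smul_eq_C_mul, map_smul, smul_eq_mul, abs_mul]
      refine mul_le_mul_of_nonneg_left ?_ (abs_nonneg _)
      rw [hP]
      exact LB.two hβ0 hy1 (hE) hμ hk (Finset.mem_range.2 hjM) (by omega) (by omega) hG0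
    have hdeg : (Q * P).natDegree + 2 ≤ h * n := by
      have := natDegree_mul_le (p := Q) (q := P)
      omega
    have h1 := hasSum_L hM (Q * P) hdeg
    have h2 := (hasSum_nat_add_iff' M).2 h1
    have h3 : ∑ l ∈ Finset.range M, ω l * Dv n h b (τ l) (Q * P) = ω j * Dv n h b (τ j) (Q * P) := by
      refine Finset.sum_eq_single_of_mem j (Finset.mem_range.2 hjM) fun l hl hlj => ?_
      have h4 : Dv n h b (τ l) (Q * P) = 0 := by
        apply Dv_vanish
        rw [hyi, hP]
        exact Dvd.dvd.mul_left (Dvd.dvd.mul_left (GG_dvd y (b + 1) _ (Finset.mem_erase.2 ⟨hlj, hl⟩)) _) _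
      rw [h4, mul_zero]
    rw [h3] at h2
    have h4 : ‖∑' l, ω (l + M) * Dv n h b (τ (l + M)) (Q * P)‖ ≤
        ∑' l, Z * W2 * (|ω (l + M)| * (Rv n h (τ (l + M)) * y (l + M) ^ ee)) := by
      refine tsum_of_norm_bounded (hYs.mul_left _).hasSum fun l => ?_
      rw [norm_mul, Real.norm_eq_abs, Real.norm_eq_abs]
      calc |ω (l + M)| * |Dv n h b (τ (l + M)) (Q * P)| ≤
          |ω (l + M)| * (Z * W2 * (Rv n h (τ (l + M)) * y (l + M) ^ ee)) :=
            mul_le_mul_of_nonneg_left (ht l) (abs_nonneg _)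
        _ = _ := by ring
    rw [tsum_mul_left, ← hY0d, h2.tsum_eq, Real.norm_eq_abs] at h4
    have h5 : |ω j * Dv n h b (τ j) (Q * P)| ≤ Z * W2 * Y := by
      have e1 : ω j * Dv n h b (τ j) (Q * P) =
          Lf μ (Q * P) - (Lf μ (Q * P) - ω j * Dv n h b (τ j) (Q * P)) := by ring
      rw [e1]
      refine (abs_sub _ _).trans ?_
      have e2 : Z * (E * G0) ≤ Z * W2 * (E * G0) := by
        have : 0 ≤ Z * (E * G0) := mul_nonneg hZ0.le (mul_nonneg hE hG00)
        nlinarith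
      rw [hY]
      have e3 : Z * W2 * (Y0 + E * G0) = Z * W2 * Y0 + Z * W2 * (E * G0) := by ring
      rw [e3]
      linarith
    rw [abs_mul] at h5
    rw [le_div_iff₀ hc1, mul_comm]
    exact (mul_le_mul_of_nonneg_right (hN.wlo j) (abs_nonneg _)).trans h5
  -- the triangular systems
  have hA : ∀ j < M0, 0 < c1 * Rv n h (τ j) * (∏ l ∈ (Finset.range M).erase j, |y j - y l|) ^ (b + 1) *
        (∏ l ∈ (Finset.range M0).erase j, |y j - y l|) ^ (b + 1) := by
    intro j _
    have hPi : ∀ (M : ℕ), 0 < ∏ l ∈ (Finset.range M).erase j, |y j - y l| := fun M =>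
      Finset.prod_pos fun l hl => abs_pos.2 (sub_ne_zero.2 fun h =>
        (Finset.ne_of_mem_erase hl) (hmono.injective h).symm)
    have := hPi M
    have := hPi M0
    have := hR0 j
    positivity
  have hY0 : 0 ≤ Y := by
    have h1 : 0 ≤ Y0 := by
      rw [hY0d]
      refine tsum_nonneg fun i => ?_
      have := hR0 (i + M)
      have := hy1 (i + M)
      positivity
    rw [hY]
    have := mul_nonneg hE hG00
    linarith
  have hcb : ∀ j < M0, ∀ i ≤ b, |c j i| ≤ Z * W2 * Y / (c1 * Rv n h (τ j) *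
      (∏ l ∈ (Finset.range M).erase j, |y j - y l|) ^ (b + 1) *
        (∏ l ∈ (Finset.range M0).erase j, |y j - y l|) ^ (b + 1)) * (2 * W) ^ b := by
    intro j hj i hi
    have hjM : j < M := by omega
    obtain ⟨G, hG⟩ : ∃ G : ℝ[X], G = GG y (b + 1) ((Finset.range M0).erase j) *
      GG y (b + 1) ((Finset.range M).erase j) := ⟨_, rfl⟩
    have hGe : |G.eval (y j)| = (∏ l ∈ (Finset.range M0).erase j, |y j - y l|) ^ (b + 1) *
        (∏ l ∈ (Finset.range M).erase j, |y j - y l|) ^ (b + 1) := by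
      rw [hG, Polynomial.eval_mul, abs_mul, GG_eval_abs, GG_eval_abs]
    have hGM : Mj (1 / δ) ((M0 - 1) * ((b + 1) * (1 + 1)) + (M - 1) * ((b + 1) * (1 + 1)))
        |G.eval (yv n (τ j))| (Polynomial.aeval (ys n (τ j)) G) := by
      rw [hyi, hG, Polynomial.eval_mul, abs_mul, map_mul]
      have g1 := hMj j ((Finset.range M0).erase j) (Finset.notMem_erase _ _)
      have g2 := hMj j ((Finset.range M).erase j) (Finset.notMem_erase _ _)
      rw [Finset.card_erase_of_mem (Finset.mem_range.2 hj), Finset.card_range] at g1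
      rw [Finset.card_erase_of_mem (Finset.mem_range.2 hjM), Finset.card_range] at g2
      exact Mj.mul (by positivity) (abs_nonneg _) g1 g2
    have hte : (M0 - 1) * ((b + 1) * (1 + 1)) + (M - 1) * ((b + 1) * (1 + 1)) ≤ 2 * h * n := by
      have e1 : (M0 - 1) * ((b + 1) * (1 + 1)) = 2 * ((M0 - 1) * (b + 1)) := by ring
      have e2 : (M - 1) * ((b + 1) * (1 + 1)) = 2 * ((M - 1) * (b + 1)) := by ring
      have e3 : 2 * h * n = 2 * (h * n) := by ring
      omega
    obtain ⟨y', hy'⟩ : ∃ y' : ℝ, y' = τ j + τ j + ((n : ℝ) - 1) := ⟨_, rfl⟩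
    have hy'1 : 1 ≤ y' := by rw [hy']; linarith [ht1 j]
    have hGpos : 0 < |G.eval (y j)| := by
      rw [hGe]
      have h6 := hA j hj
      have h7 := hR0 j
      by_contra hcon
      rw [not_lt] at hcon
      have h8 : c1 * Rv n h (τ j) * (∏ l ∈ (Finset.range M).erase j, |y j - y l|) ^ (b + 1) *
          (∏ l ∈ (Finset.range M0).erase j, |y j - y l|) ^ (b + 1) ≤ 0 := by
        calc _ = c1 * Rv n h (τ j) * ((∏ l ∈ (Finset.range M0).erase j, |y j - y l|) ^ (b + 1) *
        (∏ l ∈ (Finset.range M).erase j, |y j - y l|) ^ (b + 1)) := by ring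
          _ ≤ 0 := mul_nonpos_of_nonneg_of_nonpos (by positivity) hcon
      linarith
    have hRj := hR0 j
    have hA0 : 0 < Rv n h (τ j) * y' ^ b * |G.eval (y j)| := by positivity
    have htri := tri_inv b (c j) (hq n h b (τ j) G) (Rv n h (τ j) * y' ^ b * |G.eval (y j)|) W
      (Z * W2 * Y / c1) hA0 hW1
      (by rw [hq_zero (τ j) G hn (ht1 j), hyi, hy'])
      (fun a ha => by
        have := hq_bound (h := h) (τ j) G _ a hn (ht1 j) hδ hδ1 hte hGM ha
        rw [hyi, ← hW, ← hy'] at this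
        exact this)
      (fun i hi => by
        have h6 := hkey j hj i hi
        rw [hexp, Dv_sum, Finset.sum_eq_single_of_mem j (Finset.mem_range.2 hj)] at h6
        · rw [Dv_sum] at h6
          have h7 : ∑ i' ∈ Finset.range (i + 1), c j i' * hq n h b (τ j) G (i - i') =
              ∑ i' ∈ Finset.range (b + 1), Dv n h b (τ j) (C (c j i') *
                (((X - C (y j)) ^ i' * GG y (b + 1) ((Finset.range M0).erase j)) *
                ((X - C (y j)) ^ (b - i) * GG y (b + 1) ((Finset.range M).erase j)))) := by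
            have h8 : ∀ i' ∈ Finset.range (b + 1), i' ∉ Finset.range (i + 1) → Dv n h b (τ j) (C (c j i') *
                (((X - C (y j)) ^ i' * GG y (b + 1) ((Finset.range M0).erase j)) *
                ((X - C (y j)) ^ (b - i) * GG y (b + 1) ((Finset.range M).erase j)))) = 0 := by
              intro i' h9 h10
              rw [Finset.mem_range] at h9 h10
              apply Dv_vanish
              rw [hyi]
              have e : C (c j i') * (((X - C (y j)) ^ i' * GG y (b + 1) ((Finset.range M0).erase j)) *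
                ((X - C (y j)) ^ (b - i) * GG y (b + 1) ((Finset.range M).erase j))) =
                (X - C (y j)) ^ (i' + (b - i)) * (C (c j i') * (GG y (b + 1) ((Finset.range M0).erase j) *
                  GG y (b + 1) ((Finset.range M).erase j))) := by
                rw [pow_add]; ring
              rw [e]
              exact Dvd.dvd.mul_right (pow_dvd_pow _ (by omega)) _
            rw [← Finset.sum_subset (Finset.range_subset_range.2 (by omega : i + 1 ≤ b + 1)) h8]
            refine Finset.sum_congr rfl fun i' hi' => ?_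
            rw [Finset.mem_range] at hi'
            rw [Dv_C_mul, ← Dv_hq (τ j) G (i - i') (by omega), hyi, hG]
            congr 2
            have e : b - (i - i') = i' + (b - i) := by omega
            rw [e, pow_add]
            ring
          rw [h7]
          exact h6
        · intro k hk hkj
          rw [Dv_sum]
          refine Finset.sum_eq_zero fun i' _ => ?_
          apply Dv_vanish
          rw [hyi]
          have h8 := GG_dvd y (b + 1) ((Finset.range M0).erase k)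
            (Finset.mem_erase.2 ⟨Ne.symm hkj, Finset.mem_range.2 hj⟩)
          exact Dvd.dvd.mul_left (Dvd.dvd.mul_right (Dvd.dvd.mul_left h8 _) _) _) i hi
    refine htri.trans ?_
    have h9 : (2 * W) ^ i ≤ (2 * W) ^ b := pow_le_pow_right₀ (by linarith) hi
    apply mul_le_mul _ h9 (by positivity) (div_nonneg (by positivity) (hA j hj).le)
    rw [div_div]
    apply div_le_div_of_nonneg_left (by positivity) (hA j hj)
    have h10 : 1 ≤ y' ^ b := one_le_pow₀ hy'1
    rw [hGe]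
    have h11 : 0 < (∏ l ∈ (Finset.range M0).erase j, |y j - y l|) ^ (b + 1) *
        (∏ l ∈ (Finset.range M).erase j, |y j - y l|) ^ (b + 1) := by rw [← hGe]; exact hGpos
    calc c1 * Rv n h (τ j) * (∏ l ∈ (Finset.range M).erase j, |y j - y l|) ^ (b + 1) *
          (∏ l ∈ (Finset.range M0).erase j, |y j - y l|) ^ (b + 1) =
          c1 * (Rv n h (τ j) * 1 * ((∏ l ∈ (Finset.range M0).erase j, |y j - y l|) ^ (b + 1) *
        (∏ l ∈ (Finset.range M).erase j, |y j - y l|) ^ (b + 1))) := by ring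
      _ ≤ _ := by gcongr
  -- conclusion
  have hfin : Z ≤ Z * (((b : ℝ) + 1) * (2 * W) ^ b * W2 * ∑ j ∈ Finset.range M0, Y / (c1 * Rv n h (τ j) *
      (∏ l ∈ (Finset.range M).erase j, |y j - y l|) ^ (b + 1) *
        (∏ l ∈ (Finset.range M0).erase j, |y j - y l|) ^ (b + 1))) := by
    conv_lhs => rw [hZ]
    rw [Finset.mul_sum, Finset.mul_sum]
    refine Finset.sum_le_sum fun j hj => ?_
    rw [Finset.mem_range] at hj
    refine (Finset.sum_le_sum fun i hi => hcb j hj i (by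
      have := Finset.mem_range.1 hi; omega)).trans (le_of_eq ?_)
    rw [Finset.sum_const, Finset.card_range, nsmul_eq_mul]
    push_cast
    ring
  exact le_of_mul_le_mul_left (by rw [mul_one]; exact hfin) hZ0

end

end Run7.h795.UW
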