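import Pool.Agent.Run7.h795.UW.Lin
import Pool.Agent.W165.OZ.CD
import Pool.Agent.W165.OZ.BAS

/-!
# The conjugates of the determinant (helper366)
-/

open Polynomial Pool.Agent.H337R2 Pool.Agent.W165.OZ Filter Topology

namespace Run7.h795.UW

noncomputable section

namespace CDaux

open Pool.Agent.W165.OZ.CDaux

lemma pow_d' {B d i e : ℕ} (hB : 1 ≤ B) (hd : d ∈ Finset.Icc 1 B) (hi : i ≤ e) :
    (d : ℝ) ^ i ≤ (B : ℝ) ^ e := by
  rw [Finset.mem_Icc] at hd
  have h1 : (d : ℝ) ≤ B := by exact_mod_cast hd.2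
  have h2 : (1 : ℝ) ≤ B := by exact_mod_cast hB
  exact (pow_le_pow_left₀ (Nat.cast_nonneg d) h1 i).trans (pow_le_pow_right₀ h2 hi)

lemma WW_le' {B i e : ℕ} (w : ℕ → ℤ) (hB : 1 ≤ B) (hi : i ≤ e) :
    |(WW B w i : ℝ)| ≤ Wn B w * (B : ℝ) ^ e := by
  unfold WW Wn
  push_cast
  rw [Finset.sum_mul]
  refine (Finset.abs_sum_le_sum_abs _ _).trans (Finset.sum_le_sum fun d hd => ?_)
  rw [abs_mul, abs_of_nonneg (by positivity : (0 : ℝ) ≤ (d : ℝ) ^ i)]
  exact mul_le_mul_of_nonneg_left (pow_d' hB hd hi) (abs_nonneg _)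

lemma bc_le {b i e : ℕ} (hi : i + b ≤ e) : (bc b i : ℝ) ≤ 2 ^ e := by
  have h1 : bc b i ≤ 2 ^ (i - 1 + b) := Nat.choose_le_two_pow _ _
  have h2 : (2 : ℕ) ^ (i - 1 + b) ≤ 2 ^ e := Nat.pow_le_pow_right (by norm_num) (by omega)
  exact_mod_cast h1.trans h2

/-- the entry -/
lemma entry {n h B b : ℕ} (w : ℕ → ℤ) (hB : 1 ≤ B) (s : ℚ) (P : ℚ[X]) (E : ℝ) (hE : 0 ≤ E)
    (hpa : ∀ k i : ℕ, k < n → 1 ≤ i → i ≤ 2 * h →
      |((s * pa (sP n) (mP h) P k i : ℚ) : ℝ)| ≤ E)
    (z : ℕ → ℂ) (Z : ℝ) (hZ : 0 ≤ Z) (hz : ∀ i, ‖z i‖ ≤ Z) (hn : 1 ≤ n) :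
    ‖algebraMap ℚ ℂ s * La n h B b w z P‖ ≤
      (2 * h * (2 ^ (2 * h + b) * (Wn B w * (B : ℝ) ^ (2 * h + b)) * (Z + B))) * (n : ℝ) ^ 2 * E := by
  have hWn := Wn_nonneg B w
  have hBp : (0 : ℝ) ≤ (B : ℝ) ^ (2 * h + b) := by positivity
  have hn1 : (1 : ℝ) ≤ n := by exact_mod_cast hn
  have hrho : ∀ i, 1 ≤ i → i ≤ 2 * h → |((s * rhoP n h P i : ℚ) : ℝ)| ≤ n * E := by
    intro i hi1 hi2
    unfold rhoP
    rw [Finset.mul_sum]
    push_cast
    refine (Finset.abs_sum_le_sum_abs _ _).trans ?_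
    calc _ ≤ ∑ k ∈ sP n, E := Finset.sum_le_sum fun k hk => by
          have := hpa k i (Finset.mem_range.1 hk) hi1 hi2
          push_cast at this
          exact this
      _ = n * E := by simp
  have hbet : ∀ i, 1 ≤ i → i ≤ 2 * h → |((s * bet n h B b w P i : ℚ) : ℝ)| ≤
      (Wn B w * (B : ℝ) ^ (2 * h + b)) * (B * (n : ℝ) ^ 2 * E) := by
    intro i hi1 hi2
    have e : s * bet n h B b w P i = ∑ d ∈ Finset.Icc 1 B, (w d : ℚ) * (d : ℚ) ^ (i + b) *
        ∑ k ∈ sP n, (s * pa (sP n) (mP h) P k i) * hs (i + b) (d * (k + 1)) := by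
      unfold bet
      rw [Finset.mul_sum]
      refine Finset.sum_congr rfl fun d _ => ?_
      rw [mul_left_comm, Finset.mul_sum]
      congr 1
      exact Finset.sum_congr rfl fun k _ => by ring
    rw [e]
    unfold Wn
    rw [Rat.cast_sum, Finset.sum_mul, Finset.sum_mul]
    refine (Finset.abs_sum_le_sum_abs _ _).trans (Finset.sum_le_sum fun d hd => ?_)
    rw [Rat.cast_mul, Rat.cast_mul, Rat.cast_pow, Rat.cast_intCast, Rat.cast_natCast, abs_mul,
      abs_mul, abs_of_nonneg (by positivity : (0 : ℝ) ≤ (d : ℝ) ^ (i + b))]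
    have hd1 := pow_d' (e := 2 * h + b) hB hd (show i + b ≤ 2 * h + b by omega)
    have hdB : (d : ℝ) ≤ B := by
      rw [Finset.mem_Icc] at hd
      exact_mod_cast hd.2
    refine mul_le_mul (mul_le_mul_of_nonneg_left hd1 (abs_nonneg _)) ?_ (abs_nonneg _)
      (by positivity)
    rw [Rat.cast_sum]
    refine (Finset.abs_sum_le_sum_abs _ _).trans ?_
    calc _ ≤ ∑ k ∈ sP n, E * (B * n) := Finset.sum_le_sum fun k hk => by
          rw [Rat.cast_mul, abs_mul]
          have hkn := Finset.mem_range.1 hk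
          refine mul_le_mul (hpa k i hkn hi1 hi2) ?_ (abs_nonneg _) hE
          have h1 : (0 : ℝ) ≤ (hs (i + b) (d * (k + 1)) : ℝ) := by exact_mod_cast hs_nonneg _ _
          have h2 : (hs (i + b) (d * (k + 1)) : ℝ) ≤ ((d * (k + 1) : ℕ) : ℝ) := by
            exact_mod_cast hs_le (i + b) (d * (k + 1))
          rw [abs_of_nonneg h1]
          refine h2.trans ?_
          push_cast
          have h3 : (k : ℝ) + 1 ≤ n := by exact_mod_cast hkn
          exact mul_le_mul hdB h3 (by positivity) (by positivity)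
      _ = B * (n : ℝ) ^ 2 * E := by
          simp
          ring
  unfold La
  rw [Finset.mul_sum]
  refine (norm_sum_le _ _).trans ?_
  calc _ ≤ ∑ i ∈ Finset.Icc 1 (2 * h), (2 ^ (2 * h + b) * (Wn B w * (B : ℝ) ^ (2 * h + b)) *
        (Z + B)) * (n : ℝ) ^ 2 * E := Finset.sum_le_sum fun i hi => by
        rw [Finset.mem_Icc] at hi
        have e : algebraMap ℚ ℂ s * (algebraMap ℚ ℂ (bc b i : ℚ) *
            (algebraMap ℚ ℂ (rhoP n h P i * WW B w (i + b)) * z (i + b) -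
            algebraMap ℚ ℂ (bet n h B b w P i))) =
            algebraMap ℚ ℂ (bc b i : ℚ) *
            (algebraMap ℚ ℂ (s * rhoP n h P i) * algebraMap ℚ ℂ (WW B w (i + b) : ℚ) * z (i + b) -
            algebraMap ℚ ℂ (s * bet n h B b w P i)) := by
          rw [map_mul, map_mul, map_mul]
          ring
        rw [e, norm_mul, norm_alg, Rat.cast_natCast, abs_of_nonneg (Nat.cast_nonneg (bc b i)),
          mul_assoc (2 ^ (2 * h + b)), mul_assoc (2 ^ (2 * h + b)), mul_assoc (2 ^ (2 * h + b))]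
        refine mul_le_mul (bc_le (by omega)) ?_ (norm_nonneg _) (by positivity)
        refine (norm_sub_le _ _).trans ?_
        rw [norm_mul, norm_mul, norm_alg, norm_alg, norm_alg]
        have a1 := hrho i hi.1 hi.2
        have a2 := hbet i hi.1 hi.2
        have a3 : |(((WW B w (i + b) : ℤ) : ℚ) : ℝ)| ≤ Wn B w * (B : ℝ) ^ (2 * h + b) := by
          rw [Rat.cast_intCast]
          exact WW_le' w hB (by omega)
        have a4 : |((s * rhoP n h P i : ℚ) : ℝ)| * |(((WW B w (i + b) : ℤ) : ℚ) : ℝ)| * ‖z (i + b)‖ ≤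
            (n * E) * (Wn B w * (B : ℝ) ^ (2 * h + b)) * Z := by
          refine mul_le_mul (mul_le_mul a1 a3 (abs_nonneg _) (by positivity)) (hz (i + b))
            (norm_nonneg _) (by positivity)
        have a5 : (n * E) * (Wn B w * (B : ℝ) ^ (2 * h + b)) * Z ≤
            ((n : ℝ) ^ 2 * E) * (Wn B w * (B : ℝ) ^ (2 * h + b)) * Z := by
          gcongr
          nlinarith
        calc _ ≤ ((n : ℝ) ^ 2 * E) * (Wn B w * (B : ℝ) ^ (2 * h + b)) * Z +
              (Wn B w * (B : ℝ) ^ (2 * h + b)) * (B * (n : ℝ) ^ 2 * E) :=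
              add_le_add (a4.trans a5) a2
          _ = _ := by ring
    _ = _ := by
        rw [Finset.sum_const, Nat.card_Icc, nsmul_eq_mul]
        push_cast
        ring

/-- the determinant in the adapted basis -/
lemma det_eq (n h B b : ℕ) (hn : 2 ≤ n) (w : ℕ → ℤ) (z : ℕ → ℂ) (r : ℕ) :
    algebraMap ℚ ℂ (∏ i ∈ Finset.range r, sc n h B i ^ 2) * DH (mo n h B b w z) r =
      Matrix.det (Matrix.of fun i j : Fin r =>
        algebraMap ℚ ℂ (sc n h B i.1 * sc n h B j.1) *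
          La n h B b w z (num n (Qb n i.1 * Qb n j.1))) := by
  have e1 : DH (mo n h B b w z) r = Matrix.det (Matrix.of fun i j : Fin r =>
      LbL n h B b w z (Qb n i.1 * Qb n j.1)) :=
    (t_bas ℚ ℂ (LbL n h B b w z) (Qb n) (Qb_monic n) (fun i => Qb_natDegree n i hn) r).symm
  set v : Fin r → ℂ := fun i => algebraMap ℚ ℂ (sc n h B i.1) with hv
  have e2 : (Matrix.of fun i j : Fin r =>
        algebraMap ℚ ℂ (sc n h B i.1 * sc n h B j.1) *
          La n h B b w z (num n (Qb n i.1 * Qb n j.1))) =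
      Matrix.of fun i j : Fin r => v i * (Matrix.of fun i j : Fin r => v j *
        (Matrix.of fun i j : Fin r => LbL n h B b w z (Qb n i.1 * Qb n j.1)) i j) i j := by
    ext i j
    simp only [Matrix.of_apply, hv, map_mul]
    rw [mul_assoc]
    rfl
  rw [e2, Matrix.det_mul_column, Matrix.det_mul_row, ← e1, ← mul_assoc]
  congr 1
  rw [map_prod, Finset.prod_range]
  simp only [map_pow]
  rw [← Finset.prod_mul_distrib]
  exact Finset.prod_congr rfl fun i _ => by rw [hv]; ring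

end CDaux

open CDaux Pool.Agent.W165.OZ.CDaux in
theorem t_cd (h2 : Pool.Agent.W165.OZ.S_CB) : S_CD := by
  obtain ⟨C, hC, hcb⟩ := h2
  refine ⟨C + 2, by linarith, fun h B b w Z hh hB => ?_⟩
  set Z' : ℝ := max Z 0 with hZ'
  set K0 : ℝ := 2 * h * (2 ^ (2 * h + b) * (Wn B w * (B : ℝ) ^ (2 * h + b)) * (Z' + B)) + 1 with hK0
  have hWn := Wn_nonneg B w
  have hZ0 : 0 ≤ Z' := le_max_right _ _
  have hK1 : 1 ≤ K0 := by
    rw [hK0]
    have : 0 ≤ 2 * (h : ℝ) * (2 ^ (2 * h + b) * (Wn B w * (B : ℝ) ^ (2 * h + b)) * (Z' + B)) := by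
      positivity
    linarith
  obtain ⟨m0, hm0⟩ := exists_nat_ge (Real.log K0)
  refine ⟨max (max 2 m0) ((4 * B) ^ 4), fun n hn hev z hz r hr => ?_⟩
  have hn2 : 2 ≤ n := ((le_max_left _ _).trans (le_max_left _ _)).trans hn
  have hnm : m0 ≤ n := ((le_max_right _ _).trans (le_max_left _ _)).trans hn
  have hnB : (4 * B) ^ 4 ≤ n := (le_max_right _ _).trans hn
  have hn1 : (1 : ℝ) ≤ n := by exact_mod_cast (by omega : 1 ≤ n)
  have hh1 : (1 : ℝ) ≤ h := by exact_mod_cast hh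
  set E : ℝ := Real.exp (C * h * (n + Real.sqrt ((B : ℝ) * n) * Real.log ((B : ℝ) * n))) with hE
  have hE0 : 0 < E := Real.exp_pos _
  rw [Run7.h795.UW.CDaux.det_eq n h B b hn2 w z r]
  -- the entries
  have hent : ∀ i j : Fin r, ‖(Matrix.of fun i j : Fin r =>
      algebraMap ℚ ℂ (sc n h B i.1 * sc n h B j.1) *
        La n h B b w z (num n (Qb n i.1 * Qb n j.1))) i j‖ ≤ K0 * (n : ℝ) ^ 2 * E := by
    intro i j
    rw [Matrix.of_apply]
    refine (Run7.h795.UW.CDaux.entry w hB (sc n h B i.1 * sc n h B j.1) (num n (Qb n i.1 * Qb n j.1)) E hE0.le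
      (fun k ι hk hι1 hι2 => ?_) z Z' hZ0 (fun i => (hz i).trans (le_max_left _ _))
      (by omega)).trans ?_
    · exact hcb n h B i.1 j.1 k ι hn2 hev hh hB (by have := i.2; omega) (by have := j.2; omega)
        hk hι1 hι2
    · refine mul_le_mul_of_nonneg_right (mul_le_mul_of_nonneg_right ?_ (by positivity)) hE0.le
      rw [hK0]
      linarith
  have hdet := Matrix.det_le (abv := NormedField.toAbsoluteValue ℂ) (fun i j => hent i j)
  rw [Fintype.card_fin, nsmul_eq_mul] at hdet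
  refine hdet.trans ?_
  -- the size
  have hrR : (r : ℝ) ≤ (h : ℝ) * n / 2 := by
    have : (2 : ℝ) * r ≤ h * n := by exact_mod_cast hr
    linarith
  have hr0 : (0 : ℝ) ≤ r := Nat.cast_nonneg r
  have hhn : (n : ℝ) ≤ h * n := by nlinarith
  have b1 : ((r.factorial : ℕ) : ℝ) ≤ Real.exp (r * (h * n)) := by
    calc ((r.factorial : ℕ) : ℝ) ≤ ((r ^ r : ℕ) : ℝ) := by exact_mod_cast Nat.factorial_le_pow r
      _ = (r : ℝ) ^ r := by push_cast; rfl
      _ ≤ (Real.exp (h * n)) ^ r := by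
          refine pow_le_pow_left₀ hr0 ?_ r
          have := Real.add_one_le_exp ((h : ℝ) * n)
          linarith
      _ = Real.exp (r * (h * n)) := by rw [← Real.exp_nat_mul]
  have b2 : K0 ≤ Real.exp n := by
    have h3 : Real.log K0 ≤ n := hm0.trans (by exact_mod_cast hnm)
    calc K0 = Real.exp (Real.log K0) := (Real.exp_log (by linarith)).symm
      _ ≤ _ := Real.exp_le_exp.2 h3
  have b3 : (n : ℝ) ^ 2 ≤ Real.exp (2 * n) := by
    have h3 : (n : ℝ) ≤ Real.exp n := by linarith [Real.add_one_le_exp (n : ℝ)]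
    calc (n : ℝ) ^ 2 ≤ (Real.exp n) ^ 2 := pow_le_pow_left₀ (by linarith) h3 2
      _ = Real.exp (2 * n) := by rw [← Real.exp_nat_mul]; push_cast; rfl
  have b4 : E ≤ Real.exp (C * h * (2 * n)) := by
    rw [hE]
    refine Real.exp_le_exp.2 (mul_le_mul_of_nonneg_left ?_ (by positivity))
    have := sqrt_log hB hnB
    linarith
  have b5 : K0 * (n : ℝ) ^ 2 * E ≤ Real.exp (n + 2 * n + C * h * (2 * n)) := by
    rw [Real.exp_add, Real.exp_add]
    exact mul_le_mul (mul_le_mul b2 b3 (by positivity) (Real.exp_pos _).le) b4 hE0.le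
      (by positivity)
  calc ((r.factorial : ℕ) : ℝ) * (K0 * (n : ℝ) ^ 2 * E) ^ r
      ≤ Real.exp (r * (h * n)) * (Real.exp (n + 2 * n + C * h * (2 * n))) ^ r :=
        mul_le_mul b1 (pow_le_pow_left₀ (by positivity) b5 r) (by positivity) (Real.exp_pos _).le
    _ = Real.exp (r * (h * n) + r * (n + 2 * n + C * h * (2 * n))) := by
        rw [← Real.exp_nat_mul, ← Real.exp_add]
    _ ≤ Real.exp ((C + 2) * ((h : ℝ) * n) ^ 2) := by
        refine Real.exp_le_exp.2 ?_
        have c1 : (r : ℝ) * (h * n) ≤ (h * n / 2) * (h * n) :=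
          mul_le_mul_of_nonneg_right hrR (by positivity)
        have c2 : (r : ℝ) * (n + 2 * n + C * h * (2 * n)) ≤
            (h * n / 2) * (3 * (h * n) + C * (2 * (h * n))) := by
          refine mul_le_mul hrR ?_ (by positivity) (by positivity)
          have e : C * h * (2 * n) = C * (2 * (h * n)) := by ring
          rw [e]
          linarith
        nlinarith [sq_nonneg ((h : ℝ) * n)]

end

end Run7.h795.UW
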