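import Pool.Agent.W165.OZ.Stm2

/-!
# Irrational odd zeta values in windows: definitions

As in `Pool.Agent.W165.OZ.Defs`, `R(t) = (2t+n-1) / (t(t+1)...(t+n-1))^(2h)` and `y(t) = t(t+n-1)`; here the
functional is `Q ↦ ∑_{d ≤ B} w_d ∑_{u > d} [s^b] (R(u/d + s) Q(y(u/d + s)))`, with `b` even. Its values are
linear forms in `1` and `ζ(i + b)`, `i` odd, `3 ≤ i ≤ 2h - 1`.
-/

open Polynomial Pool.Agent.H337R2 Pool.Agent.W165.OZ Filter Topology

namespace Run7.h795.UW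

noncomputable section

/-! ### The linear forms -/

/-- the binomial factor belonging to the poles of order `i` -/
def bc (b i : ℕ) : ℕ := Nat.choose (i - 1 + b) (i - 1)

/-- the rational part belonging to the poles of order `i` -/
def bet (n h B b : ℕ) (w : ℕ → ℤ) (P : ℚ[X]) (i : ℕ) : ℚ :=
  ∑ d ∈ Finset.Icc 1 B, (w d : ℚ) * (d : ℚ) ^ (i + b) *
    ∑ k ∈ sP n, pa (sP n) (mP h) P k i * hs (i + b) (d * (k + 1))

/-- the linear form, with `z j` in the place of `ζ(j)` -/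
def La {A : Type*} [CommRing A] [Algebra ℚ A] (n h B b : ℕ) (w : ℕ → ℤ) (z : ℕ → A) (P : ℚ[X]) : A :=
  ∑ i ∈ Finset.Icc 1 (2 * h), algebraMap ℚ A (bc b i : ℚ) *
    (algebraMap ℚ A (rhoP n h P i * WW B w (i + b)) * z (i + b) - algebraMap ℚ A (bet n h B b w P i))

/-- the moments -/
def mo {A : Type*} [CommRing A] [Algebra ℚ A] (n h B b : ℕ) (w : ℕ → ℤ) (z : ℕ → A) (k : ℕ) : A :=
  La n h B b w z (num n (X ^ k))

/-! ### The real side -/

/-- `(X + a)^(-1)` -/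
def ir (a : ℝ) : PowerSeries ℝ := PowerSeries.mk fun j => (-1) ^ j / a ^ (j + 1)

/-- Taylor series of `R` at `t` -/
def Rs (n h : ℕ) (t : ℝ) : PowerSeries ℝ :=
  (PowerSeries.C 2 * PowerSeries.X + PowerSeries.C (2 * t + ((n : ℝ) - 1))) *
    (∏ k ∈ Finset.range n, ir (t + (k : ℝ))) ^ (2 * h)

/-- Taylor series of `y` at `t` -/
def ys (n : ℕ) (t : ℝ) : PowerSeries ℝ :=
  (PowerSeries.X + PowerSeries.C t) * (PowerSeries.X + PowerSeries.C (t + ((n : ℝ) - 1)))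

/-- the functional at one node: `[s^b] (R(t+s) Q(y(t+s)))` -/
def Dv (n h b : ℕ) (t : ℝ) (Q : ℝ[X]) : ℝ :=
  PowerSeries.coeff b (Rs n h t * Polynomial.aeval (ys n t) Q)

/-- `μ k = ∑_i ω_i D_i(X^k)` for all `k ≤ h n - 2` -/
def Mom (n h b : ℕ) (τ ω : ℕ → ℝ) (μ : ℕ → ℝ) : Prop :=
  ∀ k, k + 2 ≤ h * n → HasSum (fun i => ω i * Dv n h b (τ i) (X ^ k)) (μ k)

/-- coefficients of `(1 - X)^(-e)` -/
def cf (e j : ℕ) : ℝ := PowerSeries.coeff j ((PowerSeries.mk 1 : PowerSeries ℝ) ^ e)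

/-- majorants: `|f_j| ≤ A ρ^j [X^j] (1 - X)^(-e)` -/
def Mj (ρ : ℝ) (e : ℕ) (A : ℝ) (f : PowerSeries ℝ) : Prop :=
  ∀ j, |PowerSeries.coeff j f| ≤ A * (ρ ^ j * cf e j)

/-! ### Normalising constants -/

/-- the loss in the non-vanishing argument, of polynomial size in `n` -/
def PW (n h b : ℕ) (δ : ℝ) : ℝ :=
  ((b : ℝ) + 1) * (2 * ((4 * h * n + b + 1) / δ)) ^ b * (4 * h * n + b + 1) ^ b

/-- the archimedean bound -/
def Arc (N n h b : ℕ) (C : ℝ) (r : ℕ) : ℝ :=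
  (r.factorial : ℝ) * (C * (4 * h * n + b + 1) ^ b) ^ r *
    ∏ i ∈ Finset.range r, (MM N (i / (b + 1)) ^ (4 * (h * n / 2 - 1 - i)))⁻¹

/-- the exponent of the primes `> n` -/
def hb (h b : ℕ) : ℕ := (b + 1) * (h + b / 2)

end

end Run7.h795.UW
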