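import Pool.Agent.Run7.h795.UW.Stm
import Pool.Agent.W165.OZ.PK

/-!
# Part PK: the norm of the determinant over a number field (helper366)
-/

open Polynomial Pool.Agent.H337R2 Pool.Agent.W165.OZ Filter Topology

namespace Run7.h795.UW

open Pool.Agent.W165.OZ.PRaux

theorem t_pk (h1 : S_SE) (h2 : S_SF) : S_PK := by
  intro K _ _ _ n h B b w z q hq hz hb2 hn hev hh hB hBn r hr hne
  have hx : ∀ p : ℕ, [Fact p.Prime] → IsIntegral (Sring p)
      (algebraMap ℚ K (((q : ℚ) * (Dl n B : ℚ) ^ b) ^ r * (∏ i ∈ Finset.range r, sc n h B i ^ 2) *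
        (PPn n (hb h b) B : ℚ)) * DH (mo n h B b w z) r) := by
    intro p hp
    let S : Subring K := (integralClosure (Sring p) K).toSubring
    have hmem : ∀ x : K, x ∈ S ↔ IsIntegral (Sring p) x := fun x => Iff.rfl
    have hS : ∀ x : ℚ, padicNorm p x ≤ 1 → algebraMap ℚ K x ∈ S := fun x hx => by
      rw [hmem]
      exact isIntegral_algebraMap (x := (⟨x, hx⟩ : Sring p))
    have hqz : ∀ i, (q : K) * z i ∈ S := by
      intro i
      rw [hmem]
      exact (hz i).tower_top
    rw [← hmem]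
    by_cases hpn : p ≤ n
    · have h3 := h1 K p S hS n h B b w z q hqz hn hev hh hB hpn r hr
      have h4 : algebraMap ℚ K ((PPn n (hb h b) B : ℕ) : ℚ) ∈ S := hS _ (padicNorm.of_nat _)
      have h5 := S.mul_mem h3 h4
      have h6 : algebraMap ℚ K (((q : ℚ) * (Dl n B : ℚ) ^ b) ^ r *
          ∏ i ∈ Finset.range r, sc n h B i ^ 2) *
          DH (mo n h B b w z) r * algebraMap ℚ K ((PPn n (hb h b) B : ℕ) : ℚ) =
          algebraMap ℚ K (((q : ℚ) * (Dl n B : ℚ) ^ b) ^ r * (∏ i ∈ Finset.range r, sc n h B i ^ 2) *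
            (PPn n (hb h b) B : ℚ)) * DH (mo n h B b w z) r := by
        rw [map_mul (algebraMap ℚ K) ((((q : ℚ) * (Dl n B : ℚ) ^ b) ^ r *
          ∏ i ∈ Finset.range r, sc n h B i ^ 2)) _]
        ring
      rwa [h6] at h5
    · have hpn' : n < p := by omega
      have h3 := h2 K p S hS n h B b w z q hqz hb2 hn hh hB hBn hpn' r hr
      obtain ⟨m, hm⟩ := dvd_PPn p n (hb h b) B hpn'
      have h4 : algebraMap ℚ K (m : ℚ) ∈ S := hS _ (padicNorm.of_nat _)
      have h4' : algebraMap ℚ K (((Dl n B) ^ (b * r) : ℕ) : ℚ) ∈ S := hS _ (padicNorm.of_nat _)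
      have h5 : algebraMap ℚ K (∏ i ∈ Finset.range r, sc n h B i ^ 2) ∈ S := by
        apply hS
        have h5' : (∏ i ∈ Finset.range r, sc n h B i ^ 2) ∈ Sring p := by
          refine Subring.prod_mem _ fun i _ => Subring.pow_mem _ ?_ _
          rw [mem_Sring]
          exact padicNorm_sc p n h B i hn hpn'
        exact h5'
      have h6 := S.mul_mem (S.mul_mem (S.mul_mem h3 h5) h4) h4'
      have h7 : algebraMap ℚ K ((q : ℚ) ^ r * (p : ℚ) ^ (2 * hb h b * Sp n B p)) *
          DH (mo n h B b w z) r * algebraMap ℚ K (∏ i ∈ Finset.range r, sc n h B i ^ 2) *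
          algebraMap ℚ K (m : ℚ) * algebraMap ℚ K (((Dl n B) ^ (b * r) : ℕ) : ℚ) =
          algebraMap ℚ K (((q : ℚ) * (Dl n B : ℚ) ^ b) ^ r * (∏ i ∈ Finset.range r, sc n h B i ^ 2) *
            (PPn n (hb h b) B : ℚ)) * DH (mo n h B b w z) r := by
        have h8 : ((PPn n (hb h b) B : ℕ) : ℚ) = (p : ℚ) ^ (2 * hb h b * Sp n B p) * (m : ℚ) := by
          rw [hm]; push_cast; ring
        rw [h8, Nat.cast_pow, mul_pow, ← pow_mul]
        simp only [map_mul]
        ring
      rwa [h7] at h6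
  have hq0 : 0 < (q : ℚ) := by exact_mod_cast hq
  have hD0 : 0 < (Dl n B : ℚ) := by
    have : 0 < Dl n B := Finset.prod_pos fun p hp => by
      rw [Finset.mem_filter] at hp
      exact pow_pos hp.2.pos _
    exact_mod_cast this
  have hpos : 0 < ((q : ℚ) * (Dl n B : ℚ) ^ b) ^ r * (∏ i ∈ Finset.range r, sc n h B i ^ 2) *
      (PPn n (hb h b) B : ℚ) := by
    have a2 : (0 : ℚ) < ∏ i ∈ Finset.range r, sc n h B i ^ 2 :=
      Finset.prod_pos fun i _ => pow_pos (sc_pos n h B i) 2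
    have a3 : (0 : ℚ) < (PPn n (hb h b) B : ℚ) := by exact_mod_cast PPn_pos n (hb h b) B
    positivity
  apply one_le_abs
  · intro p hp
    exact pk_integral p _ (Algebra.isIntegral_norm ℚ (hx p))
  · rw [Algebra.norm_ne_zero_iff]
    apply mul_ne_zero _ hne
    rw [_root_.map_ne_zero]
    exact hpos.ne'

end Run7.h795.UW
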