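import Pool.Agent.W165.OZ.Fin2
import Pool.Agent.Run7.h795.UW.AS
import Pool.Agent.Run7.h795.UW.CD
import Pool.Agent.Run7.h795.UW.NU
import Pool.Agent.Run7.h795.UW.NV
import Pool.Agent.Run7.h795.UW.PK
import Pool.Agent.Run7.h795.UW.RM
import Pool.Agent.Run7.h795.UW.SE
import Pool.Agent.Run7.h795.UW.SF
import Pool.Agent.Run7.h795.UW.MB

/-!
# Irrational odd zeta values in windows: assembly
-/

set_option autoImplicit false

open Polynomial Pool.Agent.H337R2 Filter Topology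

namespace Run7.h795.UW

theorem z_nv : S_NV := t_nv Pool.Agent.W165.OZ.t_hk t_co Pool.Agent.W165.OZ.t_tb Pool.Agent.W165.OZ.t_rl
  Pool.Agent.W165.OZ.t_pi t_nu
theorem z_ar : S_AR := t_ar Pool.Agent.W165.OZ.t_bas Pool.Agent.W165.OZ.t_tb
theorem z_as : S_AS := t_as Pool.Agent.W165.OZ.z_as Pool.Agent.W165.OZ.t_pp Pool.Agent.W165.OZ.t_dl
theorem z_mb : S_MB := t_mb Pool.Agent.W165.OZ.t_we Pool.Agent.W940.OZ.t_no t_rm z_nv z_ar (t_pk t_se t_sf) z_as
  (t_cd (Pool.Agent.W165.OZ.t_cb Pool.Agent.W165.OZ.t_dl)) Pool.Agent.W165.OZ.t_pp Pool.Agent.W165.OZ.t_dl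

/-- comparison of the bounds at `K - 1` and at `K` -/
theorem shift_bound : ∃ K1 : ℕ, ∀ K ≥ K1, 2 ≤ K ∧ 0 < Real.log (Real.log ((K - 1 : ℕ) : ℝ)) ∧
    Real.log (Real.log (K : ℝ)) ≤ 2 * Real.log (Real.log ((K - 1 : ℕ) : ℝ)) ∧
    (K : ℝ) * Real.log (Real.log K) / Real.log K ≤
      4 * (((K - 1 : ℕ) : ℝ) * Real.log (Real.log ((K - 1 : ℕ) : ℝ)) / Real.log ((K - 1 : ℕ) : ℝ)) := by
  have t1 : Tendsto (fun s : ℕ => Real.log (s : ℝ)) atTop atTop :=
    Real.tendsto_log_atTop.comp tendsto_natCast_atTop_atTop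
  have t2 : Tendsto (fun s : ℕ => Real.log (Real.log (s : ℝ))) atTop atTop :=
    Real.tendsto_log_atTop.comp t1
  obtain ⟨K1, hK1⟩ := eventually_atTop.1 ((t1.eventually_ge_atTop 2).and (t2.eventually_ge_atTop 2))
  refine ⟨max K1 4, fun K hK => ?_⟩
  have hK4 : 4 ≤ K := (le_max_right _ _).trans hK
  obtain ⟨a1, a2⟩ := hK1 K ((le_max_left _ _).trans hK)
  have hK4R : (4 : ℝ) ≤ K := by exact_mod_cast hK4
  have e1 : ((K - 1 : ℕ) : ℝ) = (K : ℝ) - 1 := by
    rw [Nat.cast_sub (by omega)]; simp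
  rw [e1]
  have b1 : (K : ℝ) ≤ ((K : ℝ) - 1) ^ 2 := by nlinarith
  have b2 : Real.log K ≤ 2 * Real.log ((K : ℝ) - 1) := by
    have := Real.log_le_log (by linarith) b1
    rw [Real.log_pow] at this
    exact_mod_cast this
  have b3 : 0 < Real.log ((K : ℝ) - 1) := by linarith
  have b4 : Real.log (Real.log K) ≤ Real.log 2 + Real.log (Real.log ((K : ℝ) - 1)) := by
    rw [← Real.log_mul (by norm_num) b3.ne']
    exact Real.log_le_log (by linarith) b2
  have b5 : Real.log 2 ≤ 1 := by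
    have := Real.log_two_lt_d9
    linarith
  have b6 : Real.log (Real.log K) ≤ 2 * Real.log (Real.log ((K : ℝ) - 1)) := by linarith
  have b7 : 0 < Real.log (Real.log ((K : ℝ) - 1)) := by linarith
  refine ⟨by omega, b7, b6, ?_⟩
  have b8 : Real.log ((K : ℝ) - 1) ≤ Real.log K := Real.log_le_log (by linarith) (by linarith)
  have b9 : (K : ℝ) ≤ 2 * ((K : ℝ) - 1) := by linarith
  calc (K : ℝ) * Real.log (Real.log K) / Real.log K
      ≤ (2 * ((K : ℝ) - 1)) * (2 * Real.log (Real.log ((K : ℝ) - 1))) / Real.log ((K : ℝ) - 1) := by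
        apply div_le_div₀ (mul_nonneg (by linarith) (by linarith)) _ b3 b8
        exact mul_le_mul b9 b6 (by linarith) (by linarith)
    _ = _ := by ring

/-- **Uniform windows.** For every large `K`, every odd `s` and every number field `F ⊆ ℝ` of degree
`D ≤ c log log K`, at least `c √(K log log K / (D log K))` of the odd `j`, `s < j ≤ K s`, have `ζ(j) ∉ F`. -/
theorem z_fields : ∃ c : ℝ, 0 < c ∧ ∃ K0 : ℕ, ∀ K ≥ K0, ∀ s : ℕ, Odd s →
    ∀ F : IntermediateField ℚ ℝ, FiniteDimensional ℚ F →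
    (Module.finrank ℚ F : ℝ) ≤ c * Real.log (Real.log K) →
    c * Real.sqrt (K * Real.log (Real.log K) / (Module.finrank ℚ F * Real.log K)) ≤
      (Set.ncard {j : ℕ | s < j ∧ j ≤ K * s ∧ Odd j ∧ (∑' n : ℕ, 1 / ((n : ℝ) + 1) ^ j) ∉ F} : ℝ) := by
  obtain ⟨c0, hc0, s0, h0⟩ := Pool.Agent.W165.OZ.z_final2
  obtain ⟨C1, hC1, hM⟩ := z_mb
  obtain ⟨c, hc, s1, hs⟩ := Pool.Agent.W165.OZ.t_fj C1 hC1
  obtain ⟨K1, hK1⟩ := shift_bound
  refine ⟨min c0 (c / 2), by positivity, max s0 (max (s1 + 1) K1), fun K hK s hs1 F hF hD => ?_⟩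
  have hKs0 : s0 ≤ K := (le_max_left _ _).trans hK
  have hKs1 : s1 + 1 ≤ K := ((le_max_left _ _).trans (le_max_right _ _)).trans hK
  have hKK1 : K1 ≤ K := ((le_max_right _ _).trans (le_max_right _ _)).trans hK
  obtain ⟨k1, k2, k3, k4⟩ := hK1 K hKK1
  have hD1 : 1 ≤ Module.finrank ℚ F := Module.finrank_pos
  have hDR : (1 : ℝ) ≤ (Module.finrank ℚ F : ℝ) := by exact_mod_cast hD1
  have hll0 : 0 < Real.log (Real.log (K : ℝ)) := by
    by_contra hcon
    rw [not_lt] at hcon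
    have : min c0 (c / 2) * Real.log (Real.log K) ≤ 0 :=
      mul_nonpos_of_nonneg_of_nonpos (by positivity) hcon
    linarith
  have hfin : {j : ℕ | s < j ∧ j ≤ K * s ∧ Odd j ∧ (∑' n : ℕ, 1 / ((n : ℝ) + 1) ^ j) ∉ F}.Finite :=
    (Set.finite_Iic (K * s)).subset fun i hi => hi.2.1
  rcases Nat.lt_or_ge s 3 with h3 | h3
  · -- `s = 1`
    have hs1' : s = 1 := by
      obtain ⟨t, ht⟩ := hs1
      omega
    subst hs1'
    have h4 := h0 K hKs0 F hF (hD.trans (mul_le_mul_of_nonneg_right (min_le_left _ _) hll0.le))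
    refine (mul_le_mul_of_nonneg_right (min_le_left c0 (c / 2)) (Real.sqrt_nonneg _)).trans (h4.trans ?_)
    have h5 : {i : ℕ | 3 ≤ i ∧ i ≤ K ∧ Odd i ∧ (∑' n : ℕ, 1 / ((n : ℝ) + 1) ^ i) ∉ F} ⊆
        {j : ℕ | 1 < j ∧ j ≤ K * 1 ∧ Odd j ∧ (∑' n : ℕ, 1 / ((n : ℝ) + 1) ^ j) ∉ F} := by
      rintro i ⟨g1, g2, g3, g4⟩
      exact ⟨by omega, by omega, g3, g4⟩
    exact_mod_cast Set.ncard_le_ncard h5 hfin
  · obtain ⟨b, hb⟩ : ∃ b, s = b + 1 := ⟨s - 1, by omega⟩
    have hbe : Even b := by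
      obtain ⟨t, ht⟩ := hs1
      exact ⟨t, by omega⟩
    have hD' : (Module.finrank ℚ F : ℝ) ≤ c * Real.log (Real.log ((K - 1 : ℕ) : ℝ)) := by
      refine hD.trans ?_
      calc min c0 (c / 2) * Real.log (Real.log K) ≤ (c / 2) * (2 * Real.log (Real.log ((K - 1 : ℕ) : ℝ))) :=
            mul_le_mul (min_le_right _ _) k3 hll0.le (by positivity)
        _ = _ := by ring
    obtain ⟨κ, B, h1, h2, h3', h4, h5⟩ := hs (K - 1) (by omega) (Module.finrank ℚ F) hD1 hD'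
    obtain ⟨I, hI, hI2⟩ := hM (Module.finrank ℚ F) κ B b hD1 h2 hbe (by omega) h3' h5 F hF le_rfl
    have h6 : min c0 (c / 2) * Real.sqrt (K * Real.log (Real.log K) / (Module.finrank ℚ F * Real.log K)) ≤
        c * Real.sqrt (((K - 1 : ℕ) : ℝ) * Real.log (Real.log ((K - 1 : ℕ) : ℝ)) /
          (Module.finrank ℚ F * Real.log ((K - 1 : ℕ) : ℝ))) := by
      have e1 : (K : ℝ) * Real.log (Real.log K) / (Module.finrank ℚ F * Real.log K) ≤
          2 ^ 2 * (((K - 1 : ℕ) : ℝ) * Real.log (Real.log ((K - 1 : ℕ) : ℝ)) /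
            (Module.finrank ℚ F * Real.log ((K - 1 : ℕ) : ℝ))) := by
        have e2 : ∀ x y z : ℝ, x / (y * z) = (x / z) / y := fun x y z => by
          rw [div_div, mul_comm z y]
        rw [e2, e2, ← mul_div_assoc]
        apply div_le_div_of_nonneg_right _ (by linarith)
        linarith
      calc min c0 (c / 2) * Real.sqrt (K * Real.log (Real.log K) / (Module.finrank ℚ F * Real.log K))
          ≤ (c / 2) * (2 * Real.sqrt (((K - 1 : ℕ) : ℝ) * Real.log (Real.log ((K - 1 : ℕ) : ℝ)) /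
          (Module.finrank ℚ F * Real.log ((K - 1 : ℕ) : ℝ)))) := by
            apply mul_le_mul (min_le_right _ _) _ (Real.sqrt_nonneg _) (by positivity)
            refine (Real.sqrt_le_sqrt e1).trans (le_of_eq ?_)
            rw [Real.sqrt_mul (by norm_num), Real.sqrt_sq (by norm_num)]
        _ = _ := by ring
    refine h6.trans (h4.trans ?_)
    have hsub : ((I.image (· + b) : Finset ℕ) : Set ℕ) ⊆
        {j : ℕ | s < j ∧ j ≤ K * s ∧ Odd j ∧ (∑' n : ℕ, 1 / ((n : ℝ) + 1) ^ j) ∉ F} := by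
      intro j hj
      rw [Finset.mem_coe, Finset.mem_image] at hj
      obtain ⟨i, hi, rfl⟩ := hj
      obtain ⟨a1, a2, a3, a4⟩ := hI2 i hi
      refine ⟨by omega, ?_, a3.add_even hbe, a4⟩
      have e1 : 2 * ((b + 1) * κ) ≤ (b + 1) * (K - 1) := by
        calc 2 * ((b + 1) * κ) = (b + 1) * (2 * κ) := by ring
          _ ≤ (b + 1) * (K - 1) := Nat.mul_le_mul_left _ h1
      have e2 : K * s = (b + 1) * (K - 1) + (b + 1) := by
        obtain ⟨m, rfl⟩ : ∃ m, K = m + 1 := ⟨K - 1, by omega⟩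
        rw [hb, Nat.add_sub_cancel]; ring
      rw [e2]
      omega
    have h7 := Set.ncard_le_ncard hsub hfin
    rw [Set.ncard_coe_finset, Finset.card_image_of_injective _ (add_left_injective b)] at h7
    exact_mod_cast hI.trans h7

/-- the case of the rational numbers -/
theorem z_irr : ∃ c : ℝ, 0 < c ∧ ∃ K0 : ℕ, ∀ K ≥ K0, ∀ s : ℕ, Odd s →
    c * Real.sqrt (K * Real.log (Real.log K) / Real.log K) ≤
      (Set.ncard {j : ℕ | s < j ∧ j ≤ K * s ∧ Odd j ∧ Irrational (∑' n : ℕ, 1 / ((n : ℝ) + 1) ^ j)} : ℝ) := by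
  obtain ⟨c, hc, K0, h⟩ := z_fields
  have t2 : Tendsto (fun s : ℕ => c * Real.log (Real.log (s : ℝ))) atTop atTop :=
    (Real.tendsto_log_atTop.comp (Real.tendsto_log_atTop.comp tendsto_natCast_atTop_atTop)).const_mul_atTop hc
  obtain ⟨K1, hK1⟩ := eventually_atTop.1 (t2.eventually_ge_atTop 1)
  refine ⟨c, hc, max K0 K1, fun K hK s hs => ?_⟩
  have h1 := h K ((le_max_left _ _).trans hK) s hs ⊥ inferInstance (by
    rw [IntermediateField.finrank_bot, Nat.cast_one]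
    exact hK1 K ((le_max_right _ _).trans hK))
  rw [IntermediateField.finrank_bot, Nat.cast_one, one_mul] at h1
  refine h1.trans (le_of_eq ?_)
  congr 2

end Run7.h795.UW
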