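import Pool.Agent.Run7.h795.UW.Stm

/-!
# Linearity of the linear forms (helper366)
-/

open Polynomial Pool.Agent.H337R2 Pool.Agent.W165.OZ Filter Topology

namespace Run7.h795.UW

noncomputable section

lemma bet_add (n h B b : ℕ) (w : ℕ → ℤ) (P Q : ℚ[X]) (i : ℕ) :
    bet n h B b w (P + Q) i = bet n h B b w P i + bet n h B b w Q i := by
  unfold bet
  rw [← Finset.sum_add_distrib]
  apply Finset.sum_congr rfl
  intro d _
  rw [← mul_add, ← Finset.sum_add_distrib]
  congr 1
  apply Finset.sum_congr rfl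
  intro k _
  rw [pa_add]; ring

lemma bet_C_mul (n h B b : ℕ) (w : ℕ → ℤ) (c : ℚ) (P : ℚ[X]) (i : ℕ) :
    bet n h B b w (C c * P) i = c * bet n h B b w P i := by
  unfold bet
  rw [Finset.mul_sum]
  apply Finset.sum_congr rfl
  intro d _
  have : ∑ k ∈ sP n, pa (sP n) (mP h) (C c * P) k i * hs (i + b) (d * (k + 1))
      = c * ∑ k ∈ sP n, pa (sP n) (mP h) P k i * hs (i + b) (d * (k + 1)) := by
    rw [Finset.mul_sum]
    apply Finset.sum_congr rfl
    intro k _
    rw [pa_C_mul]; ring
  rw [this]; ring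

/-- the linear form as a linear map of the polynomial `Q(y)` -/
def LbL {A : Type*} [CommRing A] [Algebra ℚ A] (n h B b : ℕ) (w : ℕ → ℤ) (z : ℕ → A) : ℚ[X] →ₗ[ℚ] A where
  toFun Q := La n h B b w z (num n Q)
  map_add' P Q := by
    unfold La
    rw [num_add, ← Finset.sum_add_distrib]
    apply Finset.sum_congr rfl
    intro i _
    rw [rhoP_add, bet_add, add_mul, map_add, map_add]
    ring
  map_smul' c P := by
    rw [Polynomial.smul_eq_C_mul, num_C_mul, RingHom.id_apply]
    unfold La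
    rw [Finset.smul_sum]
    apply Finset.sum_congr rfl
    intro i _
    rw [rhoP_C_mul, bet_C_mul, Algebra.smul_def, mul_assoc c, map_mul, map_mul (algebraMap ℚ A) c]
    ring

lemma mo_eq' {A : Type*} [CommRing A] [Algebra ℚ A] (n h B b : ℕ) (w : ℕ → ℤ) (z : ℕ → A) (k : ℕ) :
    mo n h B b w z k = LbL n h B b w z (X ^ k) := rfl

end

end Run7.h795.UW
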