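import Pool.Agent.Run7.h795.UW.Stm

/-!
# Majorants for power series
-/

set_option autoImplicit false
set_option linter.unusedSimpArgs false

open Polynomial Pool.Agent.H337R2 Pool.Agent.W165.OZ Filter Topology

namespace Run7.h795.UW

noncomputable section

lemma cf_zero (j : ℕ) : cf 0 j = if j = 0 then 1 else 0 := by
  unfold cf
  rw [pow_zero, PowerSeries.coeff_one]

lemma cf_succ (e j : ℕ) : cf (e + 1) j = (Nat.choose (e + j) e : ℝ) := by
  unfold cf
  rw [PowerSeries.mk_one_pow_eq_mk_choose_add, PowerSeries.coeff_mk]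

lemma cf_nonneg (e j : ℕ) : 0 ≤ cf e j := by
  rcases e with _ | e
  · rw [cf_zero]; split_ifs <;> norm_num
  · rw [cf_succ]; positivity

lemma cf_at_zero (e : ℕ) : cf e 0 = 1 := by
  rcases e with _ | e
  · rw [cf_zero, if_pos rfl]
  · rw [cf_succ, add_zero, Nat.choose_self, Nat.cast_one]

lemma cf_le (e j : ℕ) : cf e j ≤ ((e : ℝ) + j) ^ j := by
  rcases e with _ | e
  · rw [cf_zero]
    split_ifs with h
    · rw [h]; simp
    · positivity
  · rw [cf_succ, Nat.choose_symm_add]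
    have h1 : Nat.choose (e + j) j ≤ (e + j) ^ j := Nat.choose_le_pow _ _
    have h2 : ((Nat.choose (e + j) j : ℕ) : ℝ) ≤ (((e + j) ^ j : ℕ) : ℝ) := by exact_mod_cast h1
    refine h2.trans ?_
    push_cast
    exact pow_le_pow_left₀ (by positivity) (by linarith) j

lemma cf_mono {e e' : ℕ} (h : e ≤ e') (j : ℕ) : cf e j ≤ cf e' j := by
  induction e', h using Nat.le_induction with
  | base => exact le_rfl
  | succ e' _ ih =>
    refine ih.trans ?_
    rcases e' with _ | e'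
    · rw [cf_zero, cf_succ]
      split_ifs <;> simp
    · rw [cf_succ, cf_succ]
      have : Nat.choose (e' + j) e' ≤ Nat.choose (e' + 1 + j) (e' + 1) := by
        rw [show e' + 1 + j = (e' + j) + 1 by ring, Nat.choose_succ_succ]
        omega
      exact_mod_cast this

lemma cf_add (e e' j : ℕ) :
    ∑ x ∈ Finset.HasAntidiagonal.antidiagonal j, cf e x.1 * cf e' x.2 = cf (e + e') j := by
  unfold cf
  rw [pow_add, PowerSeries.coeff_mul]

lemma Mj.mul {ρ A B : ℝ} {e e' : ℕ} {f g : PowerSeries ℝ} (hρ : 0 ≤ ρ) (hA : 0 ≤ A)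
    (hf : Mj ρ e A f) (hg : Mj ρ e' B g) : Mj ρ (e + e') (A * B) (f * g) := by
  intro j
  rw [PowerSeries.coeff_mul, ← cf_add, Finset.mul_sum, Finset.mul_sum]
  refine (Finset.abs_sum_le_sum_abs _ _).trans (Finset.sum_le_sum fun x hx => ?_)
  have hx := Finset.HasAntidiagonal.mem_antidiagonal.1 hx
  rw [abs_mul]
  have c1 := cf_nonneg e x.1
  calc |(PowerSeries.coeff x.1) f| * |(PowerSeries.coeff x.2) g|
      ≤ (A * (ρ ^ x.1 * cf e x.1)) * (B * (ρ ^ x.2 * cf e' x.2)) :=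
        mul_le_mul (hf _) (hg _) (abs_nonneg _) (by positivity)
    _ = A * B * (ρ ^ j * (cf e x.1 * cf e' x.2)) := by rw [← hx, pow_add]; ring

lemma Mj.one {ρ : ℝ} : Mj ρ 0 1 1 := by
  intro j
  rw [PowerSeries.coeff_one, cf_zero]
  split_ifs with h
  · rw [h]; simp
  · simp

lemma Mj.pow {ρ A : ℝ} {e : ℕ} {f : PowerSeries ℝ} (hρ : 0 ≤ ρ) (hA : 0 ≤ A) (hf : Mj ρ e A f) (n : ℕ) :
    Mj ρ (n * e) (A ^ n) (f ^ n) := by
  induction n with
  | zero => simpa using Mj.one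
  | succ n ih =>
    rw [pow_succ, pow_succ, Nat.succ_mul]
    exact Mj.mul hρ (by positivity) ih hf

lemma Mj.prod {ι : Type*} {ρ : ℝ} {e : ℕ} (s : Finset ι) (A : ι → ℝ) (f : ι → PowerSeries ℝ) (hρ : 0 ≤ ρ)
    (hA : ∀ i ∈ s, 0 ≤ A i) (hf : ∀ i ∈ s, Mj ρ e (A i) (f i)) :
    Mj ρ (s.card * e) (∏ i ∈ s, A i) (∏ i ∈ s, f i) := by
  classical
  induction s using Finset.induction_on with
  | empty => simpa using Mj.one
  | insert a s ha ih =>
    rw [Finset.prod_insert ha, Finset.prod_insert ha, Finset.card_insert_of_notMem ha,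
      show (s.card + 1) * e = e + s.card * e by ring]
    apply Mj.mul hρ (hA a (Finset.mem_insert_self _ _)) (hf a (Finset.mem_insert_self _ _))
    exact ih (fun i hi => hA i (Finset.mem_insert_of_mem hi)) (fun i hi => hf i (Finset.mem_insert_of_mem hi))

lemma Mj.mono {ρ A B : ℝ} {e e' : ℕ} {f : PowerSeries ℝ} (hρ : 0 ≤ ρ) (hB : 0 ≤ B) (h : Mj ρ e A f)
    (hAB : A ≤ B) (he : e ≤ e') : Mj ρ e' B f := by
  intro j
  refine (h j).trans ?_
  have := cf_nonneg e j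
  exact mul_le_mul hAB (mul_le_mul_of_nonneg_left (cf_mono he j) (by positivity)) (by positivity) hB

lemma Mj.mono_rho {ρ ρ' A : ℝ} {e : ℕ} {f : PowerSeries ℝ} (hρ : 0 ≤ ρ) (hA : 0 ≤ A) (h : Mj ρ e A f)
    (hr : ρ ≤ ρ') : Mj ρ' e A f := by
  intro j
  refine (h j).trans ?_
  have := cf_nonneg e j
  exact mul_le_mul_of_nonneg_left (mul_le_mul_of_nonneg_right (pow_le_pow_left₀ hρ hr j) this) hA

lemma Mj.lin {ρ A : ℝ} {a u : ℝ} (hρ : 0 ≤ ρ) (ha : |a| ≤ A)
    (hu : |u| ≤ A * ρ) : Mj ρ 1 A (PowerSeries.C u * PowerSeries.X + PowerSeries.C a) := by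
  have hA : 0 ≤ A := (abs_nonneg _).trans ha
  intro j
  rw [map_add]
  rcases j with _ | _ | j
  · simpa [cf_succ] using ha
  · simpa [PowerSeries.coeff_C, cf_succ] using hu
  · have := cf_nonneg 1 (j + 1 + 1)
    simp [PowerSeries.coeff_C, PowerSeries.coeff_X]
    positivity

lemma Mj.linX {ρ : ℝ} {a : ℝ} (hρ : 0 ≤ ρ) (ha : 1 ≤ |a| * ρ) :
    Mj ρ 1 |a| (PowerSeries.X + PowerSeries.C a) := by
  have := Mj.lin (ρ := ρ) (A := |a|) (a := a) (u := 1) hρ le_rfl (by simpa using ha)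
  simpa using this

lemma Mj.ir {ρ a : ℝ} (ha : 0 < a) (h : 1 ≤ a * ρ) : Mj ρ 1 a⁻¹ (ir a) := by
  intro j
  simp only [Run7.h795.UW.ir, PowerSeries.coeff_mk]
  rw [abs_div, abs_pow, abs_neg, abs_one, one_pow, abs_of_pos (by positivity), cf_succ]
  simp only [zero_add, Nat.choose_zero_right, Nat.cast_one, mul_one]
  have h1 : a⁻¹ ≤ ρ := by
    rw [inv_le_iff_one_le_mul₀ ha]; linarith
  rw [one_div, pow_succ, mul_inv, mul_comm, ← inv_pow]
  exact mul_le_mul_of_nonneg_left (pow_le_pow_left₀ (by positivity) h1 j) (by positivity)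

lemma ir_mul {a : ℝ} (ha : a ≠ 0) : (PowerSeries.X + PowerSeries.C a) * ir a = 1 := by
  ext j
  rw [add_mul, map_add]
  cases j with
  | zero =>
    simp [ir, ha]
  | succ j =>
    rw [PowerSeries.coeff_succ_X_mul, PowerSeries.coeff_C_mul]
    simp only [ir, PowerSeries.coeff_mk, PowerSeries.coeff_one]
    rw [if_neg (by omega)]
    field_simp
    ring

/-- the majorant of `R` -/
lemma Mj_Rs (n h : ℕ) (t ρ : ℝ) (hn : 1 ≤ n) (ht : 1 ≤ t) (hρ : 1 ≤ ρ) :
    Mj ρ (2 * h * n + 1) (Rv n h t) (Rs n h t) := by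
  have hn1 : (1 : ℝ) ≤ (n : ℝ) := by exact_mod_cast hn
  have hρ0 : 0 ≤ ρ := by linarith
  have h1 : Mj ρ 1 (2 * t + ((n : ℝ) - 1))
      (PowerSeries.C 2 * PowerSeries.X + PowerSeries.C (2 * t + ((n : ℝ) - 1))) := by
    apply Mj.lin hρ0
    · rw [abs_of_nonneg (by linarith)]
    · rw [abs_of_nonneg (by norm_num)]
      nlinarith
  have h2 : Mj ρ (n * 1) (∏ k ∈ Finset.range n, (t + (k : ℝ))⁻¹) (∏ k ∈ Finset.range n, ir (t + (k : ℝ))) := by
    have := Mj.prod (ρ := ρ) (e := 1) (Finset.range n) (fun k => (t + (k : ℝ))⁻¹) (fun k => ir (t + (k : ℝ))) hρ0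
      (fun k _ => by positivity) (fun k _ => by
        have hk : (0 : ℝ) ≤ k := Nat.cast_nonneg k
        apply Mj.ir (by linarith)
        nlinarith)
    rwa [Finset.card_range] at this
  have h3 := Mj.pow hρ0 (Finset.prod_nonneg fun k _ => by positivity) h2 (2 * h)
  have h4 := Mj.mul hρ0 (by linarith) h1 h3
  have e1 : 1 + 2 * h * (n * 1) = 2 * h * n + 1 := by ring
  have e2 : (2 * t + ((n : ℝ) - 1)) * (∏ k ∈ Finset.range n, (t + (k : ℝ))⁻¹) ^ (2 * h) = Rv n h t := by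
    unfold Rv
    rw [Finset.prod_inv_distrib, inv_pow, div_eq_mul_inv]
  rw [e1, e2] at h4
  exact h4

/-- the majorant of `y - a` -/
lemma Mj_ys (n : ℕ) (t a : ℝ) (hn : 1 ≤ n) (ht : 1 ≤ t) (ha : 0 ≤ a) (hay : a ≤ yv n t) :
    Mj 1 2 (yv n t) (ys n t - PowerSeries.C a) := by
  have hn1 : (1 : ℝ) ≤ (n : ℝ) := by exact_mod_cast hn
  obtain ⟨t', ht'⟩ : ∃ t' : ℝ, t' = t + ((n : ℝ) - 1) := ⟨_, rfl⟩
  have h1 : 1 ≤ t' := by rw [ht']; linarith
  have hy : yv n t = t * t' := by rw [ht']; rfl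
  have e : ys n t - PowerSeries.C a =
      PowerSeries.X ^ 2 + PowerSeries.C (t + t') * PowerSeries.X + PowerSeries.C (t * t' - a) := by
    unfold ys
    rw [← ht', map_sub, map_add, map_mul]
    ring
  rw [e, hy]
  rw [hy] at hay
  have hp : 1 ≤ t * t' := by nlinarith
  intro j
  rw [one_pow, one_mul]
  rcases j with _ | _ | _ | j
  · rw [cf_at_zero]
    simp
    rw [abs_of_nonneg (by linarith)]
    linarith
  · rw [cf_succ]
    simp [PowerSeries.coeff_C, PowerSeries.coeff_X_pow]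
    rw [abs_of_nonneg (by linarith)]
    nlinarith
  · rw [cf_succ]
    simp [PowerSeries.coeff_C, PowerSeries.coeff_X_pow, PowerSeries.coeff_X]
    nlinarith
  · have := cf_nonneg 2 (j + 1 + 1 + 1)
    simp [PowerSeries.coeff_C, PowerSeries.coeff_X_pow, PowerSeries.coeff_X]
    positivity

/-- products of `K` linear factors with roots in `[0, y(t)]` -/
def MY (n : ℕ) (t : ℝ) (K : ℕ) (P : ℝ[X]) : Prop := Mj 1 (2 * K) (yv n t ^ K) (Polynomial.aeval (ys n t) P)

lemma yv_ge_one {n : ℕ} {t : ℝ} (hn : 1 ≤ n) (ht : 1 ≤ t) : 1 ≤ yv n t := by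
  have hn1 : (1 : ℝ) ≤ (n : ℝ) := by exact_mod_cast hn
  unfold yv
  nlinarith

lemma MY.one (n : ℕ) (t : ℝ) : MY n t 0 1 := by
  unfold MY
  simpa using Mj.one

lemma MY.lin {n : ℕ} {t a : ℝ} (hn : 1 ≤ n) (ht : 1 ≤ t) (ha : 0 ≤ a) (hay : a ≤ yv n t) :
    MY n t 1 (X - C a) := by
  unfold MY
  rw [map_sub, Polynomial.aeval_X, Polynomial.aeval_C, pow_one]
  exact Mj_ys n t a hn ht ha hay

lemma MY.mul {n : ℕ} {t : ℝ} {K K' : ℕ} {P P' : ℝ[X]} (hn : 1 ≤ n) (ht : 1 ≤ t)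
    (h : MY n t K P) (h' : MY n t K' P') : MY n t (K + K') (P * P') := by
  unfold MY at *
  have hy := yv_ge_one hn ht
  rw [map_mul, pow_add, mul_add]
  exact Mj.mul zero_le_one (by positivity) h h'

lemma MY.pow {n : ℕ} {t : ℝ} {K : ℕ} {P : ℝ[X]} (hn : 1 ≤ n) (ht : 1 ≤ t)
    (h : MY n t K P) (m : ℕ) : MY n t (m * K) (P ^ m) := by
  induction m with
  | zero => simpa using MY.one n t
  | succ m ih =>
    rw [pow_succ, Nat.succ_mul]
    exact ih.mul hn ht h

lemma MY.prod {ι : Type*} {n : ℕ} {t : ℝ} {K : ℕ} (s : Finset ι) (P : ι → ℝ[X]) (hn : 1 ≤ n) (ht : 1 ≤ t)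
    (h : ∀ i ∈ s, MY n t K (P i)) : MY n t (s.card * K) (∏ i ∈ s, P i) := by
  classical
  induction s using Finset.induction_on with
  | empty => simpa using MY.one n t
  | insert a s ha ih =>
    rw [Finset.prod_insert ha, Finset.card_insert_of_notMem ha,
      show (s.card + 1) * K = K + s.card * K by ring]
    exact (h a (Finset.mem_insert_self _ _)).mul hn ht (ih fun i hi => h i (Finset.mem_insert_of_mem hi))

lemma Rv_pos' {n h : ℕ} {t : ℝ} (hn : 1 ≤ n) (ht : 1 ≤ t) : 0 < Rv n h t := by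
  have hn1 : (1 : ℝ) ≤ (n : ℝ) := by exact_mod_cast hn
  unfold Rv
  apply div_pos (by linarith)
  apply pow_pos
  refine Finset.prod_pos fun k _ => ?_
  have : (0 : ℝ) ≤ k := Nat.cast_nonneg _
  linarith

/-- the bound for the functional at one node -/
lemma Dv_bound {n h b K : ℕ} {t : ℝ} {P : ℝ[X]} (hn : 1 ≤ n) (ht : 1 ≤ t) (hK : K ≤ h * n)
    (hP : MY n t K P) :
    |Dv n h b t P| ≤ (4 * h * n + b + 1 : ℝ) ^ b * (Rv n h t * yv n t ^ K) := by
  have hR := (Rv_pos' (h := h) hn ht).le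
  have hy := yv_ge_one hn ht
  have h1 := Mj.mul zero_le_one hR (Mj_Rs n h t 1 hn ht le_rfl) hP b
  rw [one_pow, one_mul] at h1
  refine h1.trans ?_
  rw [mul_comm]
  apply mul_le_mul_of_nonneg_right _ (by positivity)
  refine (cf_le _ _).trans ?_
  apply pow_le_pow_left₀ (by positivity)
  have hK' : (K : ℝ) ≤ h * n := by exact_mod_cast hK
  push_cast
  linarith

lemma Dv_add (n h b : ℕ) (t : ℝ) (P Q : ℝ[X]) : Dv n h b t (P + Q) = Dv n h b t P + Dv n h b t Q := by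
  unfold Dv
  rw [map_add, mul_add, map_add]

lemma Dv_C_mul (n h b : ℕ) (t c : ℝ) (P : ℝ[X]) : Dv n h b t (C c * P) = c * Dv n h b t P := by
  unfold Dv
  rw [map_mul (Polynomial.aeval (ys n t)), Polynomial.aeval_C]
  change PowerSeries.coeff b (Rs n h t * (PowerSeries.C c * _)) = _
  rw [mul_left_comm, PowerSeries.coeff_C_mul]

lemma Dv_sum {ι : Type*} (n h b : ℕ) (t : ℝ) (s : Finset ι) (P : ι → ℝ[X]) :
    Dv n h b t (∑ i ∈ s, P i) = ∑ i ∈ s, Dv n h b t (P i) := by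
  unfold Dv
  rw [map_sum, Finset.mul_sum, map_sum]

lemma Dv_zero (n h b : ℕ) (t : ℝ) : Dv n h b t 0 = 0 := by
  unfold Dv
  simp

/-- `y(t + s) - y(v)` as a product -/
lemma ys_sub (n : ℕ) (t v : ℝ) : ys n t - PowerSeries.C (yv n v) =
    (PowerSeries.X + PowerSeries.C (t - v)) * (PowerSeries.X + PowerSeries.C (t + v + ((n : ℝ) - 1))) := by
  unfold ys yv
  simp only [map_add, map_sub, map_mul]
  ring

/-- the functional vanishes on polynomials which vanish to the order `b + 1` -/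
lemma Dv_vanish {n h b : ℕ} {t : ℝ} {P : ℝ[X]} (hP : (X - C (yv n t)) ^ (b + 1) ∣ P) :
    Dv n h b t P = 0 := by
  obtain ⟨P', rfl⟩ := hP
  unfold Dv
  rw [map_mul (Polynomial.aeval (ys n t)), map_pow, map_sub, Polynomial.aeval_X, Polynomial.aeval_C]
  change PowerSeries.coeff b (Rs n h t * ((ys n t - PowerSeries.C (yv n t)) ^ (b + 1) * _)) = 0
  rw [ys_sub, sub_self, map_zero, add_zero, mul_pow, mul_left_comm, mul_assoc,
    PowerSeries.coeff_X_pow_mul', if_neg (by omega)]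

end

end Run7.h795.UW
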