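import Pool.Agent.Run7.h795.UW.Defs

/-!
# Irrational odd zeta values in windows: the statements of the parts
-/

open Polynomial Pool.Agent.H337R2 Pool.Agent.W165.OZ Filter Topology

namespace Run7.h795.UW

noncomputable section

/-- RM: the real moments -/
def S_RM : Prop := ∀ (n h B b : ℕ) (w : ℕ → ℤ), 2 ≤ n → Even n → 1 ≤ h → Even b → 2 ≤ b → ∀ k, k + 2 ≤ h * n →
  (∀ d ∈ Finset.Icc 1 B, Summable (fun u : ℕ => Dv n h b (((u : ℝ) + d + 1) / d) (X ^ k))) ∧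
  mo n h B b w zz k = ∑ d ∈ Finset.Icc 1 B, (w d : ℝ) * ∑' u : ℕ, Dv n h b (((u : ℝ) + d + 1) / d) (X ^ k)

/-- CO: the core of the non-vanishing argument -/
def S_CO : Prop := ∀ (N : ℕ) (δ c1 c2 : ℝ) (τ ω : ℕ → ℝ), Nodes N δ c1 c2 τ ω → ∀ n h b : ℕ, 1 ≤ n → 1 ≤ h →
  ∀ μ : ℕ → ℝ, Mom n h b τ ω μ → ∀ M M0 : ℕ, 1 ≤ M0 → M0 ≤ M → 2 * ((b + 1) * M) ≤ h * n →
  ∀ Q : ℝ[X], Q ≠ 0 → Q.natDegree < (b + 1) * M0 → (∀ j < (b + 1) * M, Lf μ (Q * X ^ j) = 0) →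
  1 ≤ PW n h b δ * ∑ j ∈ Finset.range M0,
    (∑' i, |ω (i + M)| * (Rv n h (τ (i + M)) *
      yv n (τ (i + M)) ^ (((b + 1) * M - 1) + ((b + 1) * M0 - 1)))) /
      (c1 * Rv n h (τ j) * (∏ l ∈ (Finset.range M).erase j, |yv n (τ j) - yv n (τ l)|) ^ (b + 1) *
        (∏ l ∈ (Finset.range M0).erase j, |yv n (τ j) - yv n (τ l)|) ^ (b + 1))

/-- NU: the numerical inequality of the non-vanishing argument -/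
def S_NU : Prop := ∀ (N : ℕ) (δ c1 c2 : ℝ), 1 ≤ N → 0 < δ → δ ≤ 1 → 0 < c1 → 0 < c2 → ∀ κ b : ℕ, 32 * N ≤ κ →
  ∃ n0 : ℕ, ∀ n ≥ n0, ∀ M M0 : ℕ, 2 * M = κ * n → M0 = (M + 7) / 8 →
    PW n ((b + 1) * κ) b δ * ((M0 : ℝ) * ((4 * (N : ℝ) ^ 2 * c2 * (MM N M ^ (2 * ((b + 1) * (M - M0))))⁻¹) *
      (2 + (M0 : ℝ) / N + n) ^ (2 * ((b + 1) * κ) * n) /
      (c1 * (δ ^ (6 * N) * (((M - 1).factorial : ℝ) ^ 2 / (6 * (N : ℝ) ^ 2) ^ (M - 1))) ^ (b + 1) *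
        (δ ^ (6 * N) * (((M0 - 1).factorial : ℝ) ^ 2 / (6 * (N : ℝ) ^ 2) ^ (M0 - 1))) ^ (b + 1)))) < 1

/-- NV: the non-vanishing theorem -/
def S_NV : Prop := ∀ (N : ℕ) (δ c1 c2 : ℝ) (τ ω : ℕ → ℝ), Nodes N δ c1 c2 τ ω → ∀ κ b : ℕ, 32 * N ≤ κ →
  ∃ n0 : ℕ, ∀ n ≥ n0, Even n → ∀ μ : ℕ → ℝ, Mom n ((b + 1) * κ) b τ ω μ →
    ∃ r : ℕ, (b + 1) * κ * n ≤ 16 * r ∧ 2 * r ≤ (b + 1) * κ * n ∧ DH μ r ≠ 0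

/-- AR: the archimedean bound -/
def S_AR : Prop := ∀ (N : ℕ) (δ c1 c2 : ℝ) (τ ω : ℕ → ℝ), Nodes N δ c1 c2 τ ω → ∀ n h b : ℕ, 1 ≤ n → 1 ≤ h →
  Even n → ∀ μ : ℕ → ℝ, Mom n h b τ ω μ → ∀ r : ℕ, 2 * r ≤ h * n → |DH μ r| ≤ Arc N n h b (4 * (N : ℝ) ^ 2 * c2) r

/-- LA: parts of small rank -/
def S_LA : Prop := ∀ (A : Type) [CommRing A] (S : Subring A) (c : A) (r : ℕ) (ι : Type) [Fintype ι] [DecidableEq ι]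
  (G : Matrix (Fin r) (Fin r) A) (V : Matrix (Fin r) ι A) (L : Matrix ι (Fin r) A), c ∈ S →
  (∀ i j, G i j ∈ S) → (∀ s i, c * L s i ∈ S) → (∀ i s, V i s ∈ S) →
  c ^ Fintype.card ι * Matrix.det (G + V * L) ∈ S

/-- SE: integrality at the primes `p ≤ n` -/
def S_SE : Prop := ∀ (A : Type) [CommRing A] [Algebra ℚ A] (p : ℕ) [Fact p.Prime] (S : Subring A),
  (∀ x : ℚ, padicNorm p x ≤ 1 → algebraMap ℚ A x ∈ S) →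
  ∀ (n h B b : ℕ) (w : ℕ → ℤ) (z : ℕ → A) (q : ℕ), (∀ i, (q : A) * z i ∈ S) →
  2 ≤ n → Even n → 1 ≤ h → 1 ≤ B → p ≤ n → ∀ r : ℕ, 2 * r ≤ h * n →
  algebraMap ℚ A (((q : ℚ) * (Dl n B : ℚ) ^ b) ^ r * ∏ i ∈ Finset.range r, sc n h B i ^ 2) *
    DH (mo n h B b w z) r ∈ S

/-- PO: the polar part at a singular node, `p > n` -/
def S_PO : Prop := ∀ (p : ℕ) [Fact p.Prime] (n h B b : ℕ), n < p → B ≤ n → Even b → ∀ P : ℚ[X],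
  (∀ j, padicNorm p (P.coeff j) ≤ 1) → P.natDegree < 2 * h * n →
  ∀ d k v : ℕ, 1 ≤ d → d ≤ B → k < n → 1 ≤ v → p * v ≤ d * (k + 1) →
    padicNorm p ((∑ i ∈ Finset.Icc 1 (2 * h), (bc b i : ℚ) * (pa (sP n) (mP h) P k i *
        ((d : ℚ) / ((p * v : ℕ) : ℚ)) ^ (i + b))) -
      PowerSeries.coeff b (RS (sP n) (mP h) P (((p * v : ℕ) : ℚ) / d - k))) ≤ 1 ∧
    (∀ j, padicNorm p (PowerSeries.coeff j (VV (sP n) (mP h) (((p * v : ℕ) : ℚ) / d - k))) ≤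
      (p : ℚ) ^ (2 * h + j)) ∧
    padicNorm p (((p * v : ℕ) : ℚ) / d - k) ≤ 1

/-- SF: integrality at the primes `p > n` -/
def S_SF : Prop := ∀ (A : Type) [CommRing A] [Algebra ℚ A] (p : ℕ) [Fact p.Prime] (S : Subring A),
  (∀ x : ℚ, padicNorm p x ≤ 1 → algebraMap ℚ A x ∈ S) →
  ∀ (n h B b : ℕ) (w : ℕ → ℤ) (z : ℕ → A) (q : ℕ), (∀ i, (q : A) * z i ∈ S) → Even b →
  2 ≤ n → 1 ≤ h → 1 ≤ B → B ≤ n → n < p → ∀ r : ℕ, 2 * r ≤ h * n →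
  algebraMap ℚ A ((q : ℚ) ^ r * (p : ℚ) ^ (2 * hb h b * Sp n B p)) * DH (mo n h B b w z) r ∈ S

/-- PK: the norm of the determinant over a number field -/
def S_PK : Prop := ∀ (K : Type) [Field K] [Algebra ℚ K] [FiniteDimensional ℚ K] (n h B b : ℕ) (w : ℕ → ℤ)
  (z : ℕ → K) (q : ℕ), 1 ≤ q → (∀ i, IsIntegral ℤ ((q : K) * z i)) → Even b →
  2 ≤ n → Even n → 1 ≤ h → 1 ≤ B → B ≤ n → ∀ r : ℕ, 2 * r ≤ h * n → DH (mo n h B b w z) r ≠ 0 →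
  1 ≤ |Algebra.norm ℚ (algebraMap ℚ K (((q : ℚ) * (Dl n B : ℚ) ^ b) ^ r *
    (∏ i ∈ Finset.range r, sc n h B i ^ 2) * (PPn n (hb h b) B : ℚ)) * DH (mo n h B b w z) r)|

/-- AS: the asymptotic size -/
def S_AS : Prop := ∃ C1 : ℝ, 0 < C1 ∧ ∀ (N κ B b q : ℕ) (C : ℝ), 1 ≤ N → 1 ≤ κ → 1 ≤ B → 1 ≤ q → 0 < C →
  Even b → 2 * N ≤ κ →
  ∃ n0 : ℕ, ∀ n ≥ n0, Even n → ∀ r : ℕ, (b + 1) * κ * n ≤ 16 * r → 2 * r ≤ (b + 1) * κ * n →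
    Real.log (Arc N n ((b + 1) * κ) b C r * (((q : ℝ) * (Dl n B : ℝ) ^ b) ^ r *
      (∏ i ∈ Finset.range r, (sc n ((b + 1) * κ) B i : ℝ) ^ 2) * (PPn n (hb ((b + 1) * κ) b) B : ℝ))) ≤
      (C1 * (1 + ((B : ℝ) * (B + 1) / κ) * (1 + Real.log B)) -
        (1 / 16) * Real.log ((κ : ℝ) / (2 * N))) * (((b : ℝ) + 1) * κ * n) ^ 2

/-- CD: the conjugates of the determinant -/
def S_CD : Prop := ∃ C2 : ℝ, 0 < C2 ∧ ∀ (h B b : ℕ) (w : ℕ → ℤ) (Z : ℝ), 1 ≤ h → 1 ≤ B →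
  ∃ n0 : ℕ, ∀ n ≥ n0, Even n → ∀ z : ℕ → ℂ, (∀ i, ‖z i‖ ≤ Z) → ∀ r : ℕ, 2 * r ≤ h * n →
    ‖algebraMap ℚ ℂ (∏ i ∈ Finset.range r, sc n h B i ^ 2) * DH (mo n h B b w z) r‖ ≤
      Real.exp (C2 * ((h : ℝ) * n) ^ 2)

/-- MB: the main inequality -/
def S_MB : Prop := ∃ C1 : ℝ, 0 < C1 ∧ ∀ D κ B b : ℕ, 1 ≤ D → 1 ≤ B → Even b → 2 ≤ b → 16 * (B * (B + 1)) ≤ κ →
  C1 * D * (1 + ((B : ℝ) * (B + 1) / κ) * (1 + Real.log B)) < (1 / 16) * Real.log ((κ : ℝ) / ((B : ℝ) * (B + 1))) →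
  ∀ K : IntermediateField ℚ ℝ, FiniteDimensional ℚ K → Module.finrank ℚ K ≤ D →
  ∃ I : Finset ℕ, B ≤ I.card ∧ ∀ i ∈ I, 3 ≤ i ∧ i ≤ 2 * ((b + 1) * κ) ∧ Odd i ∧ zr (i + b) ∉ K

end

end Run7.h795.UW
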