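import Pool.Agent.Run7.h795.UW.Fin
import Pool.Agent.TH818.SA.Sub

/-!
# Simultaneous approximation of odd zeta values in windows: the statements of the parts

`h = (b + 1) κ`, `n = 4 D ν`, `κ ν` nodes are used, every one of them with multiplicity `b + 1`, and everything
is a function of `ν → ∞` (`κ`, `b`, `D`, the weights `w` and the nodes are fixed). This is
`Pool.Agent.TH818.SA` for the functional of `Pool.Agent.Run7.h795.UW`.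
-/

open Polynomial Pool.Agent.H337R2 Pool.Agent.W165.OZ Filter Topology

namespace Run7.h795.UW

noncomputable section

/-- the constant in the perturbation bound -/
def Cw (h B b : ℕ) (w : ℕ → ℤ) : ℝ :=
  2 ^ (2 * h) * ∑ i ∈ Finset.Icc 1 (2 * h), |(bc b i : ℝ) * (WW B w (i + b) : ℝ)|

/-- the size of the perturbation -/
def Ep (n h B b : ℕ) (w : ℕ → ℤ) (η : ℝ) : ℝ :=
  η * Cw h B b w * (n : ℝ) ^ 2 * ((8 : ℝ) ^ n / n.factorial) ^ (2 * h)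

/-- the exponent -/
def UU (N κ B D : ℕ) : ℝ :=
  (2 - 1 / (2 * (D : ℝ))) * Real.log ((κ : ℝ) / (32 * D * N)) - 22 -
    90 * D * ((B : ℝ) * (B + 1) / κ * (1 + Real.log B))

/-- PE: the perturbation of the moments -/
def S_PE : Prop := ∀ (n h B b : ℕ) (w : ℕ → ℤ) (z z' : ℕ → ℝ) (η : ℝ),
  (∀ i ∈ Finset.Icc 1 (2 * h), WW B w (i + b) ≠ 0 → |z (i + b) - z' (i + b)| ≤ η) → ∀ k : ℕ,
  |mo n h B b w z k - mo n h B b w z' k| ≤ Ep n h B b w η * ((n : ℝ) ^ 2) ^ k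

/-- ES: the size of the perturbation -/
def S_ES : Prop := ∀ N κ b D : ℕ, 1 ≤ N → 1 ≤ D → 64 * D * N ≤ κ → ∀ Cc c0 V : ℝ, 0 < Cc → 0 < c0 →
  2 * Real.log ((κ : ℝ) / (32 * D * N)) + 13 ≤ V →
  ∃ ν0 : ℕ, ∀ ν ≥ ν0, ∀ n : ℕ, n = 4 * D * ν → ∀ η : ℝ, 0 < η →
    Real.log η ≤ -(V * ((((b + 1) * κ : ℕ) : ℝ) * (n - 4 * D))) →
    η * Cc * (n : ℝ) ^ 2 * ((8 : ℝ) ^ n / n.factorial) ^ (2 * ((b + 1) * κ)) * 16 ^ ((b + 1) * κ * ν) *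
      MM N (κ * ν) ^ (2 * ((b + 1) * κ * n)) ≤ c0

/-- C2: the perturbed core of the non-vanishing argument -/
def S_C2 : Prop := ∀ (N : ℕ) (δ c1 c2 : ℝ) (τ ω : ℕ → ℝ), Nodes N δ c1 c2 τ ω → ∀ n h b : ℕ, 1 ≤ n → 1 ≤ h →
  ∀ μ : ℕ → ℝ, Mom n h b τ ω μ → ∀ (μ' : ℕ → ℝ) (E : ℝ), 0 ≤ E →
  (∀ k, |μ' k - μ k| ≤ E * ((n : ℝ) ^ 2) ^ k) → ∀ M M0 : ℕ, 1 ≤ M0 → M0 ≤ M → 2 * ((b + 1) * M) ≤ h * n →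
  ∀ Q : ℝ[X], Q ≠ 0 → Q.natDegree < (b + 1) * M0 → (∀ j < (b + 1) * M, Lf μ' (Q * X ^ j) = 0) →
  1 ≤ PW n h b δ * ∑ j ∈ Finset.range M0,
    ((∑' i, |ω (i + M)| * (Rv n h (τ (i + M)) *
      yv n (τ (i + M)) ^ (((b + 1) * M - 1) + ((b + 1) * M0 - 1)))) +
      E * ((∏ l ∈ Finset.range M0, ((n : ℝ) ^ 2 + yv n (τ l))) ^ (b + 1) *
        (∏ l ∈ Finset.range M, ((n : ℝ) ^ 2 + yv n (τ l))) ^ (b + 1))) /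
      (c1 * Rv n h (τ j) * (∏ l ∈ (Finset.range M).erase j, |yv n (τ j) - yv n (τ l)|) ^ (b + 1) *
        (∏ l ∈ (Finset.range M0).erase j, |yv n (τ j) - yv n (τ l)|) ^ (b + 1))

/-- N2: the numerical inequality of the non-vanishing argument -/
def S_N2 : Prop := ∀ (N : ℕ) (δ c1 c2 : ℝ), 1 ≤ N → 0 < δ → δ ≤ 1 → 0 < c1 → 0 < c2 → ∀ κ b D : ℕ, 1 ≤ D →
  64 * D * N ≤ κ → ∃ ν0 : ℕ, ∀ ν ≥ ν0, ∀ n M M0 : ℕ, n = 4 * D * ν → M = κ * ν → M0 = (M + 7) / 8 →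
    PW n ((b + 1) * κ) b δ * ((M0 : ℝ) * ((4 * (N : ℝ) ^ 2 * c2 *
      (MM N M ^ (2 * ((b + 1) * (κ * n - M - M0))))⁻¹) *
      (2 + (M0 : ℝ) / N + n) ^ (2 * ((b + 1) * κ) * n) /
      (c1 * (δ ^ (6 * N) * (((M - 1).factorial : ℝ) ^ 2 / (6 * (N : ℝ) ^ 2) ^ (M - 1))) ^ (b + 1) *
        (δ ^ (6 * N) * (((M0 - 1).factorial : ℝ) ^ 2 / (6 * (N : ℝ) ^ 2) ^ (M0 - 1))) ^ (b + 1)))) < 1

/-- VN: non-vanishing for the perturbed moments -/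
def S_VN : Prop := ∀ (N : ℕ) (δ c1 c2 : ℝ) (τ ω : ℕ → ℝ), Nodes N δ c1 c2 τ ω → ∀ κ b D : ℕ, 1 ≤ D →
  64 * D * N ≤ κ → ∃ ν0 : ℕ, ∀ ν ≥ ν0, ∀ n : ℕ, n = 4 * D * ν →
  ∀ μ : ℕ → ℝ, Mom n ((b + 1) * κ) b τ ω μ → ∀ (μ' : ℕ → ℝ) (E : ℝ), 0 ≤ E →
  (∀ k, |μ' k - μ k| ≤ E * ((n : ℝ) ^ 2) ^ k) →
  E * 16 ^ ((b + 1) * κ * ν) * MM N (κ * ν) ^ (2 * ((b + 1) * κ * n)) ≤ 4 * (N : ℝ) ^ 2 * c2 →
  ∃ r : ℕ, (b + 1) * κ * ν ≤ 8 * r ∧ r ≤ (b + 1) * κ * ν ∧ DH μ' r ≠ 0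

/-- VA: the archimedean bound for the perturbed moments -/
def S_VA : Prop := ∀ (N : ℕ) (δ c1 c2 : ℝ) (τ ω : ℕ → ℝ), Nodes N δ c1 c2 τ ω → ∀ κ b D : ℕ, 1 ≤ D →
  64 * D * N ≤ κ → ∃ ν0 : ℕ, ∀ ν ≥ ν0, ∀ n : ℕ, n = 4 * D * ν →
  ∀ μ : ℕ → ℝ, Mom n ((b + 1) * κ) b τ ω μ → ∀ (μ' : ℕ → ℝ) (E : ℝ), 0 ≤ E →
  (∀ k, |μ' k - μ k| ≤ E * ((n : ℝ) ^ 2) ^ k) →
  E * 16 ^ ((b + 1) * κ * ν) * MM N (κ * ν) ^ (2 * ((b + 1) * κ * n)) ≤ 4 * (N : ℝ) ^ 2 * c2 →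
  ∀ r : ℕ, r ≤ (b + 1) * κ * ν → |DH μ' r| ≤ Arc N n ((b + 1) * κ) b (2 * (4 * (N : ℝ) ^ 2 * c2)) r

/-- A2: the asymptotic size -/
def S_A2 : Prop := ∀ (N κ B b D : ℕ) (C : ℝ), 1 ≤ N → 1 ≤ B → 1 ≤ D → 0 < C → 64 * D * N ≤ κ →
  ∃ ν0 : ℕ, ∀ ν ≥ ν0, ∀ n : ℕ, n = 4 * D * ν → ∀ r : ℕ, (b + 1) * κ * ν ≤ 8 * r → r ≤ (b + 1) * κ * ν →
    ∀ q : ℕ, 1 ≤ q → Real.log q ≤ (((b + 1) * κ : ℕ) : ℝ) * n * UU N κ B D →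
    Real.log (Arc N n ((b + 1) * κ) b C r * (((q : ℝ) * (Dl n B : ℝ) ^ b) ^ r *
      (∏ i ∈ Finset.range r, (sc n ((b + 1) * κ) B i : ℝ) ^ 2) * (PPn n (hb ((b + 1) * κ) b) B : ℝ))) < 0

/-- P2: the lower bound for the determinants belonging to rational numbers -/
def S_P2 : Prop := ∀ (n h B b : ℕ) (w : ℕ → ℤ) (z : ℕ → ℚ) (q : ℕ), 1 ≤ q →
  (∀ i, ∃ a : ℤ, (q : ℚ) * z i = a) → Even b → 2 ≤ n → Even n → 1 ≤ h → 1 ≤ B → B ≤ n → ∀ r : ℕ,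
  2 * r ≤ h * n → DH (mo n h B b w z) r ≠ 0 →
  1 ≤ |DH (mo n h B b w z) r| * (((q : ℚ) * (Dl n B : ℚ) ^ b) ^ r *
    (∏ i ∈ Finset.range r, sc n h B i ^ 2) * (PPn n (hb h b) B : ℚ))

/-- F2: the choice of the parameters -/
def S_F2 : Prop := ∃ K0 : ℕ, ∀ K ≥ K0, ∀ D : ℕ, 1 ≤ D →
  (D : ℝ) ≤ (1 / 5000) * Real.log (Real.log K) → ∃ κ B : ℕ,
  2 * κ ≤ K ∧ 1 ≤ B ∧ 32 * D * (B * (B + 1)) ≤ κ ∧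
  (1 / 5000) / D * Real.sqrt (K * Real.log (Real.log K) / Real.log K) ≤ B ∧
  D * (60 + 180 * D * ((B : ℝ) * (B + 1) / κ * (1 + Real.log B))) ≤
    Real.log ((κ : ℝ) / (16 * D * (B * (B + 1))))

/-- M2: the main argument -/
def S_M2 : Prop := ∀ κ B b D : ℕ, 1 ≤ D → 1 ≤ B → Even b → 2 ≤ b → 32 * D * (B * (B + 1)) ≤ κ →
  D * (60 + 180 * D * ((B : ℝ) * (B + 1) / κ * (1 + Real.log B))) ≤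
    Real.log ((κ : ℝ) / (16 * D * (B * (B + 1)))) →
  ∃ q0 : ℕ, ∀ q : ℕ, q0 ≤ q → ∃ I : Finset ℕ, B ≤ I.card ∧ ∀ i ∈ I, 3 ≤ i ∧ i ≤ 2 * ((b + 1) * κ) ∧ Odd i ∧
    ∀ p : ℤ, (q : ℝ) ^ (-(1 / (D : ℝ))) ≤ |(q : ℝ) * zr (i + b) - p|

end

end Run7.h795.UW
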